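import Mathlib
import Pool.Agent.H11.PB.Defs
import Pool.Agent.H78.PB.Defs

/-!
# Pretentious entire functions of degree two, without a hypothesis on `S_F` (helper11)

PROJECT.  Theorem: let `F` be an entire element of the Selberg class of degree `2` and rational
conductor, `T(α) = ∑_p |a(p)|² p^(-1-α)`.  Then either `F(s) = L(s + i t1, χ1) L(s + i t2, χ2)` with primitive
non-principal characters, or for every Dirichlet character `χ`, all real `t` and `η > 0`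
`Re ∑_p a(p) χ(p) p^(-1-it-α) ≤ η (T(α) log (1/α))^(1/2) + C` for `0 < α ≤ 1/2`.

The files of this folder are the files of `H11/PC`, `H11/PB` and `H78/PB` with the structure `PD` (which contains
`S(x) = O(log log x)`) replaced by `PD0` (which does not).  `PD0`, `QD0`, `VD0`, `BD0` have the fields of `PD`, `QD`, `VD`, `BD`
with this change.
-/

set_option autoImplicit false

namespace Pool.Agent.H11.PE

open Complex Filter Topology Pool.Agent.H11.Selberg Pool.Agent.H11.SC Pool.Agent.H11.PC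
  Pool.Agent.H11.PB Pool.Agent.H78.PB

/-- What is used on the coefficients `b`: all of it follows from the axioms of the Selberg class. -/
structure PD0 (b : ℕ → ℂ) : Prop where
  one : b 1 = 1
  mul : ∀ m n : ℕ, Nat.Coprime m n → b (m * n) = b m * b n
  ram : ∀ δ : ℝ, 0 < δ → ∃ C : ℝ, ∀ n : ℕ, 1 ≤ n → ‖b n‖ ≤ C * (n : ℝ) ^ δ
  /-- the Euler factor at `p` has no zero in `|X| ≤ p^(-1/2)` -/
  loc : ∀ p : ℕ, p.Prime → ∀ X : ℂ, ‖X‖ ≤ (p : ℝ) ^ (-(1 / 2) : ℝ) → ∑' k : ℕ, b (p ^ k) * X ^ k ≠ 0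
  /-- logarithm of the twisted series, uniformly in the twist -/
  log : ∃ K : ℝ, 0 ≤ K ∧ ∀ g : ℕ → ℂ, CM g → ∀ s : ℂ, 1 < s.re →
    ∃ R : ℂ, ‖R‖ ≤ K ∧ PC.LT b g s = cexp (PS (fun n => b n * g n) s + R)

/-- `T(α) = ∑_p |b(p)|² p^(-1-α)` -/
noncomputable def TT (b : ℕ → ℂ) (α : ℝ) : ℝ :=
  ∑' p : Nat.Primes, ‖b (p : ℕ)‖ ^ 2 * ((p : ℕ) : ℝ) ^ (-(1 + α))

/-- `R(α) = (T(α) log (1/α))^(1/2)` -/
noncomputable def RR (b : ℕ → ℂ) (α : ℝ) : ℝ := Real.sqrt (TT b α * Real.log (1 / α))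

/-- the twist by `g` is `o(e^(κ R(α)))` along `U` at `1 - iθ + α` -/
def Sml (b : ℕ → ℂ) (κ θ : ℝ) (U : Filter ℝ) (g : ℕ → ℂ) : Prop :=
  Tendsto (fun α : ℝ => ((Real.exp (-(κ * RR b α)) : ℝ) : ℂ) * PC.LT b g (1 - θ * I + α)) U (𝓝 0)

/-- the set of the primitive characters whose twist is not `o(e^(κ R(α)))` along `U` -/
def Xs (b : ℕ → ℂ) (κ θ : ℝ) (U : Filter ℝ) : Set (Σ f : ℕ, DirichletCharacter ℂ f) :=
  {x | x.1 ≠ 0 ∧ x.2.IsPrimitive ∧ ¬ Sml b κ θ U (fun n => x.2 (n : ZMod x.1))}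

/-- the weight; compare `PB.BD` -/
structure BD0 (b : ℕ → ℂ) (θ : ℝ) (U : Ultrafilter ℝ) (om : ℝ → ℝ) (M0 : ℕ) : Prop where
  pd : PD0 b
  le : (U : Filter ℝ) ≤ 𝓝[>] 0
  om0 : Tendsto om U (𝓝 0)
  bdd : ∀ σ : ℝ, (σ = θ ∨ σ = -θ) → ∀ (N : ℕ) [NeZero N] (χ : DirichletCharacter ℂ N),
    ∃ C : ℝ, ∀ᶠ α in (U : Filter ℝ),
      ‖(om α : ℂ) * PC.LT b (fun n => χ (n : ZMod N)) (1 - σ * I + α)‖ ≤ C
  M0pos : 1 ≤ M0
  good : ∀ σ : ℝ, (σ = θ ∨ σ = -θ) → ∀ r : ℕ, r.Prime → ¬ r ∣ M0 → ∀ (N : ℕ) [NeZero N], ¬ r ∣ N →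
    GoodW b N σ U om r
  ne : ∃ (c : ℕ) (_ : NeZero c) (χ : DirichletCharacter ℂ c), χ.IsPrimitive ∧
    ¬ Tendsto (fun α : ℝ => (om α : ℂ) * PC.LT b (fun n => χ (n : ZMod c)) (1 + θ * I + α)) U (𝓝 0)

/-- the data at the cusps `u0/(N m)`, `m` prime to `c`; compare `PB.QD` -/
structure QD0 (b : ℕ → ℂ) (θ : ℝ) (U : Ultrafilter ℝ) (om : ℝ → ℝ) (M0 N u0 c : ℕ) (w : ℂ)
    (D : ZMod c → ℂ) : Prop where
  pd : PD0 b
  le : (U : Filter ℝ) ≤ 𝓝[>] 0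
  om0 : Tendsto om U (𝓝 0)
  bdd : ∀ (L : ℕ) [NeZero L] (χ : DirichletCharacter ℂ L), ∃ C : ℝ, ∀ᶠ α in (U : Filter ℝ),
    ‖(om α : ℂ) * PC.LT b (fun n => χ (n : ZMod L)) (1 - θ * I + α)‖ ≤ C
  M0pos : 1 ≤ M0
  good : ∀ r : ℕ, r.Prime → ¬ r ∣ M0 → ∀ (L : ℕ) [NeZero L], ¬ r ∣ L → GoodW b L θ U om r
  Npos : 1 ≤ N
  upos : 1 ≤ u0
  cpos : 1 ≤ c
  cop : Nat.Coprime u0 N
  w_ne : w ≠ 0
  D1 : D 1 = 1
  val : ∀ m : ℕ, 1 ≤ m → Nat.Coprime m c → Tendsto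
    (fun α : ℝ => (om α : ℂ) * Es b ((u0 : ℝ) / ((N : ℝ) * m)) (1 - θ * I + α)) U
    (𝓝 (w * (m : ℂ) ^ (-1 + 2 * θ * I : ℂ) * D (m : ZMod c)))

/-- the values at `m = ∏ r^k`; compare `H78.PB.VD` -/
structure VD0 (b : ℕ → ℂ) (θ : ℝ) (N c P : ℕ) [NeZero N] (cf : DirichletCharacter ℂ N → ℂ)
    (D : ZMod c → ℂ) : Prop where
  pd : PD0 b
  P0 : P ≠ 0
  dvd : N * c ∣ P
  sum : ∑ χ : DirichletCharacter ℂ N, cf χ = 1
  D1 : D 1 = 1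
  val : ∀ l : List (ℕ × ℕ), (∀ x ∈ l, x.1.Prime ∧ ¬ x.1 ∣ P ∧ 1 ≤ x.2) → (l.map Prod.fst).Nodup →
    ∑ χ : DirichletCharacter ℂ N, cf χ * (l.map (fun x => Fac b θ χ x.1 x.2)).prod =
      (((l.map (fun x => x.1 ^ x.2)).prod : ℕ) : ℂ) ^ (-1 + 2 * θ * I : ℂ) *
        D (((l.map (fun x => x.1 ^ x.2)).prod : ℕ) : ZMod c)

end Pool.Agent.H11.PE
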