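import Mathlib
import Pool.Agent.H11.PE.Defs
import Pool.Agent.H11.PC.Defs

/-!
# SUMM (copy for PD0): absolute convergence

`h.ram δ` with `δ = (Re s - 1)/2`: `‖b n f n n^(-s)‖ ≤ C n^(-1-δ)`
(`LSeriesSummable_of_le_const_mul_rpow` or `Real.summable_nat_rpow`); over the primes compose with the
injection `Nat.Primes → ℕ` (`Nat.Primes.summable_rpow`).
-/

set_option autoImplicit false

namespace Pool.Agent.H11.PE

open Complex Filter Topology Pool.Agent.H11.PC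

theorem pd_summable {b : ℕ → ℂ} (h : PD0 b) (f : ℕ → ℂ) (hf : ∀ n, ‖f n‖ ≤ 1) (s : ℂ)
    (hs : 1 < s.re) : LSeriesSummable (fun n => b n * f n) s := by
  obtain ⟨C, hC⟩ := h.ram ((s.re - 1) / 2) (by linarith)
  refine LSeriesSummable_of_le_const_mul_rpow (x := (s.re + 1) / 2) (by linarith) ⟨C, ?_⟩
  intro n hn
  have h1 := hC n (Nat.one_le_iff_ne_zero.mpr hn)
  have h2 : ((s.re + 1) / 2 - 1 : ℝ) = (s.re - 1) / 2 := by ring
  rw [h2, norm_mul]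
  calc ‖b n‖ * ‖f n‖ ≤ ‖b n‖ * 1 := mul_le_mul_of_nonneg_left (hf n) (norm_nonneg _)
    _ = ‖b n‖ := mul_one _
    _ ≤ _ := h1

private theorem summ_primes_rpow {x : ℝ} (hx : 1 < x) :
    Summable (fun p : Nat.Primes => ((p : ℕ) : ℝ) ^ (-x)) :=
  Nat.Primes.summable_rpow.mpr (by linarith)

private theorem summ_norm_cpow (p : Nat.Primes) (s : ℂ) :
    ‖((p : ℕ) : ℂ) ^ (-s)‖ = ((p : ℕ) : ℝ) ^ (-s.re) := by
  rw [norm_natCast_cpow_of_pos p.prop.pos, neg_re]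

theorem pd_prime_summable {b : ℕ → ℂ} (h : PD0 b) (f : ℕ → ℂ) (hf : ∀ n, ‖f n‖ ≤ 1) (s : ℂ)
    (hs : 1 < s.re) :
    Summable (fun p : Nat.Primes => ‖b (p : ℕ) * f (p : ℕ) * ((p : ℕ) : ℂ) ^ (-s)‖) := by
  obtain ⟨C, hC⟩ := h.ram ((s.re - 1) / 2) (by linarith)
  refine Summable.of_nonneg_of_le (fun p => norm_nonneg _) (fun p => ?_)
    ((summ_primes_rpow (x := (s.re + 1) / 2) (by linarith)).mul_left C)
  have hp : (0 : ℝ) < ((p : ℕ) : ℝ) := Nat.cast_pos.mpr p.prop.pos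
  have h1 := hC (p : ℕ) p.prop.one_le
  rw [norm_mul, norm_mul, summ_norm_cpow]
  calc ‖b (p : ℕ)‖ * ‖f (p : ℕ)‖ * ((p : ℕ) : ℝ) ^ (-s.re)
      ≤ (C * ((p : ℕ) : ℝ) ^ ((s.re - 1) / 2)) * 1 * ((p : ℕ) : ℝ) ^ (-s.re) := by
        refine mul_le_mul_of_nonneg_right ?_ (Real.rpow_nonneg hp.le _)
        exact mul_le_mul h1 (hf _) (norm_nonneg _) (le_trans (norm_nonneg _) h1)
    _ = C * ((p : ℕ) : ℝ) ^ (-((s.re + 1) / 2)) := by
        rw [mul_one, mul_assoc, ← Real.rpow_add hp]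
        congr 2
        ring

theorem prime_summable_one (f : ℕ → ℂ) (hf : ∀ n, ‖f n‖ ≤ 1) (s : ℂ) (hs : 1 < s.re) :
    Summable (fun p : Nat.Primes => ‖f (p : ℕ) * ((p : ℕ) : ℂ) ^ (-s)‖) := by
  refine Summable.of_nonneg_of_le (fun p => norm_nonneg _) (fun p => ?_) (summ_primes_rpow hs)
  have hp : (0 : ℝ) < ((p : ℕ) : ℝ) := Nat.cast_pos.mpr p.prop.pos
  rw [norm_mul, summ_norm_cpow]
  calc ‖f (p : ℕ)‖ * ((p : ℕ) : ℝ) ^ (-s.re) ≤ 1 * ((p : ℕ) : ℝ) ^ (-s.re) :=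
        mul_le_mul_of_nonneg_right (hf _) (Real.rpow_nonneg hp.le _)
    _ = _ := one_mul _

theorem pd_prime_sq {b : ℕ → ℂ} (h : PD0 b) (x : ℝ) (hx : 1 < x) :
    Summable (fun p : Nat.Primes => ‖b (p : ℕ)‖ ^ 2 * ((p : ℕ) : ℝ) ^ (-x)) := by
  obtain ⟨C, hC⟩ := h.ram ((x - 1) / 4) (by linarith)
  refine Summable.of_nonneg_of_le
    (fun p => mul_nonneg (sq_nonneg _) (Real.rpow_nonneg (Nat.cast_nonneg _) _)) (fun p => ?_)
    ((summ_primes_rpow (x := (x + 1) / 2) (by linarith)).mul_left (C ^ 2))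
  have hp : (0 : ℝ) < ((p : ℕ) : ℝ) := Nat.cast_pos.mpr p.prop.pos
  have h1 := hC (p : ℕ) p.prop.one_le
  calc ‖b (p : ℕ)‖ ^ 2 * ((p : ℕ) : ℝ) ^ (-x)
      ≤ (C * ((p : ℕ) : ℝ) ^ ((x - 1) / 4)) ^ 2 * ((p : ℕ) : ℝ) ^ (-x) := by
        refine mul_le_mul_of_nonneg_right ?_ (Real.rpow_nonneg hp.le _)
        exact pow_le_pow_left₀ (norm_nonneg _) h1 2
    _ = C ^ 2 * ((p : ℕ) : ℝ) ^ (-((x + 1) / 2)) := by
        rw [mul_pow, ← Real.rpow_natCast (((p : ℕ) : ℝ) ^ ((x - 1) / 4)) 2, ← Real.rpow_mul hp.le,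
          mul_assoc, ← Real.rpow_add hp]
        congr 2
        push_cast
        ring

end Pool.Agent.H11.PE
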