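import Mathlib
import Pool.Agent.H11.PE.Defs
import Pool.Agent.H11.PB.Defs
import Pool.Agent.H11.PE.SUMM
import Pool.Agent.H11.PC.CMG

/-!
# BESL (copy for PD0): Bessel inequality with a parameter

PROOF.  Copy `PC/BES.lean` (`bessel` is the case `l = 1`): for every prime `p`, with `G = ∑_i g_i(p)`,
`0 ≤ ‖conj b(p) - l G‖² = ‖b p‖² - 2 l Re (b(p) G) + l² ‖G‖²` and `‖G‖² = Re ∑_{i,j} g_i conj g_j`; multiply by
`p^(-x)` and sum (all series converge absolutely).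
-/

set_option autoImplicit false

namespace Pool.Agent.H11.PE

open Complex Filter Topology Pool.Agent.H11.PC Pool.Agent.H11.PB

private theorem bes_term {ι : Type} [Fintype ι] (z : ℂ) (u : ι → ℂ) :
    2 * ∑ i, (z * u i).re - ∑ i, ∑ j, (u i * (starRingEnd ℂ) (u j)).re ≤ ‖z‖ ^ 2 := by
  have h0 : 0 ≤ ‖z - ∑ i, (starRingEnd ℂ) (u i)‖ ^ 2 := by positivity
  have h1 : ‖z - ∑ i, (starRingEnd ℂ) (u i)‖ ^ 2 =
      ‖z‖ ^ 2 - 2 * ∑ i, (z * u i).re + ∑ i, ∑ j, (u i * (starRingEnd ℂ) (u j)).re := by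
    have e1 : ∀ w : ℂ, ‖w‖ ^ 2 = (w * (starRingEnd ℂ) w).re := by
      intro w
      rw [Complex.mul_conj, Complex.ofReal_re, Complex.normSq_eq_norm_sq]
    rw [e1, e1 z, map_sub, map_sum]
    simp only [Complex.conj_conj]
    have e2 : (z - ∑ i, (starRingEnd ℂ) (u i)) * ((starRingEnd ℂ) z - ∑ i, u i) =
        z * (starRingEnd ℂ) z - (z * ∑ i, u i) - (∑ i, (starRingEnd ℂ) (u i)) * (starRingEnd ℂ) z +
          (∑ i, (starRingEnd ℂ) (u i)) * (∑ i, u i) := by ring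
    have e3 : ((∑ i, (starRingEnd ℂ) (u i)) * (starRingEnd ℂ) z).re = (z * ∑ i, u i).re := by
      have e4 : (∑ i, (starRingEnd ℂ) (u i)) * (starRingEnd ℂ) z =
          (starRingEnd ℂ) (z * ∑ i, u i) := by
        rw [map_mul, map_sum, mul_comm]
      rw [e4, Complex.conj_re]
    have e5 : ((∑ i, (starRingEnd ℂ) (u i)) * (∑ i, u i)).re =
        ∑ i, ∑ j, (u i * (starRingEnd ℂ) (u j)).re := by
      rw [mul_comm, Finset.sum_mul_sum, Complex.re_sum]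
      refine Finset.sum_congr rfl fun i _ => ?_
      rw [Complex.re_sum]
    have e6 : (z * ∑ i, u i).re = ∑ i, (z * u i).re := by
      rw [Finset.mul_sum, Complex.re_sum]
    rw [e2, Complex.add_re, Complex.sub_re, Complex.sub_re, e3, e5, e6]
    ring
  linarith

private theorem bes_cpow (p : Nat.Primes) (x : ℝ) :
    ((p : ℕ) : ℂ) ^ (-(x : ℂ)) = ((((p : ℕ) : ℝ) ^ (-x) : ℝ) : ℂ) := by
  rw [Complex.ofReal_cpow (Nat.cast_nonneg _)]
  push_cast
  rfl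

private theorem bes_hasSum (c : ℕ → ℂ) (x : ℝ)
    (hc : Summable (fun p : Nat.Primes => ‖c (p : ℕ) * ((p : ℕ) : ℂ) ^ (-(x : ℂ))‖)) :
    HasSum (fun p : Nat.Primes => (c (p : ℕ)).re * ((p : ℕ) : ℝ) ^ (-x)) (PS c x).re := by
  have h1 : HasSum (fun p : Nat.Primes => c (p : ℕ) * ((p : ℕ) : ℂ) ^ (-(x : ℂ))) (PS c x) :=
    hc.of_norm.hasSum
  have h2 := Complex.hasSum_re h1
  have h3 : (fun p : Nat.Primes => (c (p : ℕ) * ((p : ℕ) : ℂ) ^ (-(x : ℂ))).re) =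
      fun p : Nat.Primes => (c (p : ℕ)).re * ((p : ℕ) : ℝ) ^ (-x) := by
    funext p
    rw [bes_cpow, Complex.re_mul_ofReal]
  rw [h3] at h2
  exact h2

private theorem bes_term_l {ι : Type} [Fintype ι] (z : ℂ) (u : ι → ℂ) (l : ℝ) :
    2 * l * ∑ i, (z * u i).re - l ^ 2 * ∑ i, ∑ j, (u i * (starRingEnd ℂ) (u j)).re ≤ ‖z‖ ^ 2 := by
  have h := bes_term z (fun i => (l : ℂ) * u i)
  have e1 : ∑ i, (z * ((l : ℂ) * u i)).re = l * ∑ i, (z * u i).re := by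
    rw [Finset.mul_sum]
    refine Finset.sum_congr rfl fun i _ => ?_
    rw [show z * ((l : ℂ) * u i) = (l : ℂ) * (z * u i) by ring, Complex.re_ofReal_mul]
  have e2 : ∑ i, ∑ j, ((l : ℂ) * u i * (starRingEnd ℂ) ((l : ℂ) * u j)).re =
      l ^ 2 * ∑ i, ∑ j, (u i * (starRingEnd ℂ) (u j)).re := by
    rw [Finset.mul_sum]
    refine Finset.sum_congr rfl fun i _ => ?_
    rw [Finset.mul_sum]
    refine Finset.sum_congr rfl fun j _ => ?_
    rw [map_mul, Complex.conj_ofReal,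
      show (l : ℂ) * u i * ((l : ℂ) * (starRingEnd ℂ) (u j)) =
        ((l ^ 2 : ℝ) : ℂ) * (u i * (starRingEnd ℂ) (u j)) by push_cast; ring, Complex.re_ofReal_mul]
  rw [e1, e2] at h
  linarith

theorem bessel_l {b : ℕ → ℂ} (h : PD0 b) {ι : Type} [Fintype ι] (g : ι → ℕ → ℂ)
    (hg : ∀ i, CM (g i)) (x : ℝ) (hx : 1 < x) (l : ℝ) :
    2 * l * ∑ i, (PS (fun n => b n * g i n) x).re -
      l ^ 2 * ∑ i, ∑ j, (PS (fun n => g i n * (starRingEnd ℂ) (g j n)) x).re ≤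
      ∑' p : Nat.Primes, ‖b (p : ℕ)‖ ^ 2 * ((p : ℕ) : ℝ) ^ (-x) := by
  have hx' : 1 < ((x : ℝ) : ℂ).re := by rw [Complex.ofReal_re]; exact hx
  have h1 : ∀ i, HasSum (fun p : Nat.Primes => (b (p : ℕ) * g i (p : ℕ)).re * ((p : ℕ) : ℝ) ^ (-x))
      (PS (fun n => b n * g i n) x).re := fun i =>
    bes_hasSum (fun n => b n * g i n) x (pd_prime_summable h (g i) (hg i).bd x hx')
  have h2 : ∀ i j, HasSum (fun p : Nat.Primes =>
      (g i (p : ℕ) * (starRingEnd ℂ) (g j (p : ℕ))).re * ((p : ℕ) : ℝ) ^ (-x))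
      (PS (fun n => g i n * (starRingEnd ℂ) (g j n)) x).re := fun i j => by
    refine bes_hasSum (fun n => g i n * (starRingEnd ℂ) (g j n)) x
      (prime_summable_one (fun n => g i n * (starRingEnd ℂ) (g j n)) (fun n => ?_) x hx')
    rw [norm_mul, Complex.norm_conj]
    exact mul_le_one₀ ((hg i).bd n) (norm_nonneg _) ((hg j).bd n)
  have h3 := ((hasSum_sum (s := Finset.univ) fun i _ => h1 i).mul_left (2 * l)).sub
    ((hasSum_sum (s := Finset.univ) fun i _ => hasSum_sum (s := Finset.univ) fun j _ => h2 i j).mul_left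
      (l ^ 2))
  refine hasSum_le (fun p => ?_) h3 (pd_prime_sq h x hx).hasSum
  have h4 := bes_term_l (b (p : ℕ)) (fun i => g i (p : ℕ)) l
  have h5 : (0 : ℝ) ≤ ((p : ℕ) : ℝ) ^ (-x) := Real.rpow_nonneg (Nat.cast_nonneg _) _
  have h6 := mul_le_mul_of_nonneg_right h4 h5
  rw [sub_mul, mul_assoc (2 * l), mul_assoc (l ^ 2), Finset.sum_mul, Finset.sum_mul] at h6
  simp only [Finset.sum_mul] at h6
  exact h6

end Pool.Agent.H11.PE
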