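import Mathlib
import Pool.Agent.H11.PE.Defs
import Pool.Agent.H11.PE.SUMM

/-!
# TTL: the functions `T(α)` and `R(α)`
-/

set_option autoImplicit false

namespace Pool.Agent.H11.PE

open Complex Filter Topology Pool.Agent.H11.PC Pool.Agent.H11.PB

theorem TT_nonneg (b : ℕ → ℂ) (α : ℝ) : 0 ≤ TT b α :=
  tsum_nonneg fun p => by positivity

theorem TT_summable {b : ℕ → ℂ} (h : PD0 b) {α : ℝ} (hα : 0 < α) :
    Summable (fun p : Nat.Primes => ‖b (p : ℕ)‖ ^ 2 * ((p : ℕ) : ℝ) ^ (-(1 + α))) :=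
  pd_prime_sq h (1 + α) (by linarith)

theorem TT_anti {b : ℕ → ℂ} (h : PD0 b) {α β : ℝ} (hα : 0 < α) (hαβ : α ≤ β) :
    TT b β ≤ TT b α := by
  refine Summable.tsum_le_tsum (fun p => ?_) (TT_summable h (hα.trans_le hαβ)) (TT_summable h hα)
  apply mul_le_mul_of_nonneg_left _ (by positivity)
  exact Real.rpow_le_rpow_of_exponent_le (by exact_mod_cast p.2.one_le) (by linarith)

theorem TT_pos {b : ℕ → ℂ} (h : PD0 b) {p : ℕ} (hp : p.Prime) (hb : b p ≠ 0) :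
    0 < TT b (1 / 2) := by
  have h1 : 0 < ‖b p‖ ^ 2 * ((p : ℕ) : ℝ) ^ (-(1 + (1 / 2 : ℝ))) := by
    have : (0 : ℝ) < p := by exact_mod_cast hp.pos
    have h2 : 0 < ‖b p‖ := norm_pos_iff.2 hb
    positivity
  have h2 := (TT_summable h (by norm_num : (0 : ℝ) < 1 / 2)).le_tsum (⟨p, hp⟩ : Nat.Primes)
    (fun q _ => by positivity)
  exact lt_of_lt_of_le h1 h2

theorem log_inv_tendsto : Tendsto (fun α : ℝ => Real.log (1 / α)) (𝓝[>] 0) atTop := by
  have h2 := tendsto_neg_atBot_atTop.comp Real.tendsto_log_nhdsGT_zero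
  refine h2.congr fun α => ?_
  show -Real.log α = Real.log (1 / α)
  rw [one_div, Real.log_inv]

theorem RR_tendsto {b : ℕ → ℂ} (h : PD0 b) (hT : 0 < TT b (1 / 2)) :
    Tendsto (RR b) (𝓝[>] 0) atTop := by
  unfold RR
  refine Real.tendsto_sqrt_atTop.comp ?_
  refine tendsto_atTop_mono' _ ?_ (log_inv_tendsto.const_mul_atTop hT)
  have h1 : Set.Ioo (0 : ℝ) (1 / 2) ∈ 𝓝[>] (0 : ℝ) := Ioo_mem_nhdsGT (by norm_num)
  filter_upwards [h1] with α hα
  have h2 : 0 ≤ Real.log (1 / α) := by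
    apply Real.log_nonneg
    rw [le_div_iff₀ hα.1]
    linarith [hα.2]
  exact mul_le_mul_of_nonneg_right (TT_anti h hα.1 hα.2.le) h2

end Pool.Agent.H11.PE
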