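import Mathlib
import Pool.Agent.H11.PE.Defs
import Pool.Agent.H11.PC.CMG

/-!
# NSL0: a twist which is not small is large
-/

set_option autoImplicit false

namespace Pool.Agent.H11.PE

open Complex Filter Topology Pool.Agent.H11.PC Pool.Agent.H11.PB

theorem nsl0 {b : ℕ → ℂ} (h : PD0 b) (κ θ : ℝ) (U : Ultrafilter ℝ) (hU : (U : Filter ℝ) ≤ 𝓝[>] 0)
    (g : ℕ → ℂ) (hg : CM g) (hs : ¬ Sml b κ θ U g) :
    ∃ C : ℝ, ∀ᶠ α in (U : Filter ℝ),
      κ * RR b α - C ≤ (PS (fun n => b n * g n) (1 - θ * I + α)).re := by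
  obtain ⟨K, hK, hlog⟩ := h.log
  have h1 : ∃ ε > 0, ∀ᶠ α in (U : Filter ℝ),
      ¬ ‖((Real.exp (-(κ * RR b α)) : ℝ) : ℂ) * PC.LT b g (1 - θ * I + α)‖ < ε := by
    by_contra hc
    push Not at hc
    apply hs
    unfold Sml
    rw [Metric.tendsto_nhds]
    intro ε hε
    refine (hc ε hε).mono fun α hα => ?_
    rw [dist_zero_right]
    exact hα
  obtain ⟨ε, hε, h2⟩ := h1
  have hpos : ∀ᶠ α in (U : Filter ℝ), (0 : ℝ) < α := hU self_mem_nhdsWithin
  refine ⟨K - Real.log ε, ?_⟩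
  filter_upwards [h2, hpos] with α hα hα0
  have hre : 1 < (1 - (θ : ℂ) * I + (α : ℂ)).re := by
    simp
    exact hα0
  obtain ⟨R, hR, hL⟩ := hlog g hg _ hre
  rw [not_lt, norm_mul, Complex.norm_real, Real.norm_of_nonneg (Real.exp_pos _).le, hL,
    Complex.norm_exp, Complex.add_re] at hα
  have h3 := Real.log_le_log hε hα
  rw [Real.log_mul (Real.exp_ne_zero _) (Real.exp_ne_zero _), Real.log_exp,
    Real.log_exp] at h3
  have h4 : R.re ≤ K := (Complex.re_le_norm R).trans hR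
  linarith

end Pool.Agent.H11.PE
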