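import Mathlib
import Pool.Agent.H11.PE.CNT0
import Pool.Agent.H11.PE.NSL0
import Pool.Agent.H11.PB.PRQ
import Pool.Agent.H11.PC.CMG
import Pool.Agent.H11.PC.DIR

/-!
# FINS0: only finitely many primitive characters have a large twist
-/

set_option autoImplicit false

namespace Pool.Agent.H11.PE

open Complex Filter Topology Pool.Agent.H11.PC Pool.Agent.H11.PB

private theorem fins_norm (p : ℕ) (hp : 0 < p) (θ : ℝ) :
    (p : ℂ) ^ ((θ : ℂ) * I) * (starRingEnd ℂ) ((p : ℂ) ^ ((θ : ℂ) * I)) = 1 := by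
  rw [Complex.mul_conj, Complex.normSq_eq_norm_sq, Complex.norm_natCast_cpow_of_pos hp]
  simp

theorem xs_finite0 {b : ℕ → ℂ} (h : PD0 b) (hT : 0 < TT b (1 / 2)) (κ : ℝ) (hκ : 0 < κ) (θ : ℝ) (U : Ultrafilter ℝ)
    (hU : (U : Filter ℝ) ≤ 𝓝[>] 0) : (Xs b κ θ U).Finite := by
  classical
  by_contra hinf
  obtain ⟨J0, hJ0⟩ := cnt0 h hT κ hκ (U : Filter ℝ) hU
  obtain ⟨t, ht, htc⟩ := Set.Infinite.exists_subset_card_eq hinf (J0 + 1)
  have e : Fin (J0 + 1) ≃ t := (t.equivFinOfCardEq htc).symm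
  set x : Fin (J0 + 1) → (Σ f : ℕ, DirichletCharacter ℂ f) := fun i => (e i : _) with hx
  have hxX : ∀ i, x i ∈ Xs b κ θ U := fun i => ht (e i).2
  have hxi : ∀ i j, i ≠ j → x i ≠ x j := by
    intro i j hij h1
    exact hij (e.injective (Subtype.ext h1))
  set g : Fin (J0 + 1) → ℕ → ℂ := fun i n => (x i).2 (n : ZMod (x i).1) * (n : ℂ) ^ ((θ : ℂ) * I)
    with hg
  have hcm : ∀ i, CM (g i) := fun i => (cm_char (x i).2).times (cm_pow θ)
  have h2 := hJ0 (J0 + 1) g hcm ?_ ?_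
  · omega
  · intro i j hij
    obtain ⟨hi0, hi1, -⟩ := hxX i
    obtain ⟨hj0, hj1, -⟩ := hxX j
    haveI : NeZero (x i).1 := ⟨hi0⟩
    haveI : NeZero (x j).1 := ⟨hj0⟩
    obtain ⟨L, hL, Ψ, hΨ, hval⟩ := prim_ne (x i).2 (x j).2 hi1 hj1 (hxi i j hij)
    obtain ⟨C, hC⟩ := dir_bdd Ψ 0 (Or.inl hΨ)
    refine ⟨C, fun α hα hα1 => ?_⟩
    have h3 := hC α hα hα1
    have h4 : (1 + ((0 : ℝ) : ℂ) * I + (α : ℂ)) = 1 + α := by simp
    rw [h4] at h3
    have h5 : PS (fun n => g i n * (starRingEnd ℂ) (g j n)) (1 + α) =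
        PS (fun n => Ψ (n : ZMod L)) (1 + α) := by
      unfold PS
      refine tsum_congr fun p => ?_
      congr 1
      simp only [hg, map_mul]
      rw [← hval (p : ℕ)]
      have h6 := fins_norm (p : ℕ) p.2.pos θ
      calc (x i).2 (((p : ℕ) : ℕ) : ZMod (x i).1) * ((p : ℕ) : ℂ) ^ ((θ : ℂ) * I) *
            ((starRingEnd ℂ) ((x j).2 (((p : ℕ) : ℕ) : ZMod (x j).1)) *
              (starRingEnd ℂ) (((p : ℕ) : ℂ) ^ ((θ : ℂ) * I)))
          = (x i).2 (((p : ℕ) : ℕ) : ZMod (x i).1) *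
              (starRingEnd ℂ) ((x j).2 (((p : ℕ) : ℕ) : ZMod (x j).1)) *
              (((p : ℕ) : ℂ) ^ ((θ : ℂ) * I) *
                (starRingEnd ℂ) (((p : ℕ) : ℂ) ^ ((θ : ℂ) * I))) := by ring
        _ = _ := by rw [h6, mul_one]
    rw [h5]
    exact h3
  · intro i
    obtain ⟨-, -, hi⟩ := hxX i
    obtain ⟨C, hC⟩ := nsl0 h κ θ U hU _ (cm_char (x i).2) hi
    refine ⟨C, ?_⟩
    filter_upwards [hC] with α hα
    have h3 : PS (fun n => b n * g i n) (1 + α) =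
        PS (fun n => b n * (x i).2 (n : ZMod (x i).1)) (1 - θ * I + α) := by
      have h4 := PS_shift (fun n => b n * (x i).2 (n : ZMod (x i).1)) θ (1 + α)
      have h5 : (1 + (α : ℂ) - θ * I) = 1 - θ * I + α := by ring
      rw [h5] at h4
      rw [← h4]
      congr 1
      funext n
      simp only [hg]
      ring
    rw [h3]
    exact hα

end Pool.Agent.H11.PE
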