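import Mathlib
import Pool.Agent.H11.PE.CMP
import Pool.Agent.H11.PE.FINS0
import Pool.Agent.H11.PE.OMX0

/-!
# OMG0: chapter 0, the structure BD0
-/

set_option autoImplicit false

namespace Pool.Agent.H11.PE

open Complex Filter Topology Pool.Agent.H11.PC Pool.Agent.H11.PB

private theorem omg_cop {n N : ℕ} (hn : n.Prime) (hN : N ≠ 0) (h : n ∉ N.primeFactors) :
    Nat.Coprime n N := by
  rw [Nat.Prime.coprime_iff_not_dvd hn]
  intro hd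
  exact h (Nat.mem_primeFactors.2 ⟨hn, hd, hN⟩)

private theorem omg_cmp {b : ℕ → ℂ} (h : PD0 b) {N : ℕ} [NeZero N] (χ : DirichletCharacter ℂ N) :
    ∃ (f : ℕ) (_ : NeZero f) (ψ : DirichletCharacter ℂ f) (C : ℝ), ψ.IsPrimitive ∧ 0 < C ∧
      ∀ s : ℂ, 1 < s.re → ‖PC.LT b (fun n => χ (n : ZMod N)) s‖ ≤
        C * ‖PC.LT b (fun n => ψ (n : ZMod f)) s‖ := by
  obtain ⟨f, hf, ψ, hψ, -, hval⟩ := prim_ind χ
  obtain ⟨C, hC, hcmp⟩ := cmp_bd h N.primeFactors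
  refine ⟨f, hf, ψ, C, hψ, hC, fun s hs => ?_⟩
  exact hcmp _ _ (cm_char χ) (cm_char ψ)
    (fun p hp hpT => hval p (omg_cop hp (NeZero.ne N) hpT)) s hs

private theorem omg_cmp2 {b : ℕ → ℂ} (h : PD0 b) {N r e : ℕ} [NeZero N] (hr : r.Prime)
    (hrN : ¬ r ∣ N) (χ : DirichletCharacter ℂ N) (ψ : DirichletCharacter ℂ (r ^ e)) (hψ : ψ ≠ 1) :
    ∃ (f : ℕ) (_ : NeZero f) (Ψ : DirichletCharacter ℂ f) (C : ℝ), Ψ.IsPrimitive ∧ r ∣ f ∧ 0 < C ∧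
      ∀ s : ℂ, 1 < s.re → ‖PC.LT b (prodChar χ ψ) s‖ ≤
        C * ‖PC.LT b (fun n => Ψ (n : ZMod f)) s‖ := by
  obtain ⟨f, hf, Ψ, hΨ, hrf, hval⟩ := prim_prod hr hrN χ ψ hψ
  obtain ⟨C, hC, hcmp⟩ := cmp_bd h (N * r).primeFactors
  refine ⟨f, hf, Ψ, C, hΨ, hrf, hC, fun s hs => ?_⟩
  exact hcmp _ _ (cm_prod χ ψ) (cm_char Ψ)
    (fun p hp hpT => hval p (omg_cop hp (mul_ne_zero (NeZero.ne N) hr.ne_zero) hpT)) s hs

private theorem omg_re (σ α : ℝ) (hα : 0 < α) : 1 < (1 - σ * I + α : ℂ).re := by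
  simp
  exact hα

private theorem omg_pos {U : Ultrafilter ℝ} (hU : (U : Filter ℝ) ≤ 𝓝[>] 0) :
    ∀ᶠ α in (U : Filter ℝ), (0 : ℝ) < α := hU self_mem_nhdsWithin

private theorem omg_lt_one {U : Ultrafilter ℝ} (hU : (U : Filter ℝ) ≤ 𝓝[>] 0) :
    ∀ᶠ α in (U : Filter ℝ), α < (1 : ℝ) :=
  (hU.trans nhdsWithin_le_nhds) (Iio_mem_nhds one_pos)

theorem bd_of0 {b : ℕ → ℂ} (h : PD0 b) (hT : 0 < TT b (1 / 2)) (κ : ℝ) (hκ : 0 < κ) (θ : ℝ)
    (U : Ultrafilter ℝ)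
    (hU : (U : Filter ℝ) ≤ 𝓝[>] 0) {L : ℕ} [NeZero L] (χ : DirichletCharacter ℂ L) (c0 : ℝ)
    (hc0 : 0 < c0) (hbig : ∀ᶠ (α : ℝ) in (U : Filter ℝ),
      c0 * (Real.exp (-(κ * RR b α)))⁻¹ ≤ ‖PC.LT b (fun n => χ (n : ZMod L)) (1 - θ * I + α)‖) :
    ∃ (θ' : ℝ) (om : ℝ → ℝ) (M0 : ℕ), BD0 b θ' U om M0 := by
  obtain ⟨f0, hf0, ψ0, C0, hψ0, hC0, hc0'⟩ := omg_cmp h χ
  set c1 : ℝ := c0 / C0 with hc1
  have hc1pos : 0 < c1 := div_pos hc0 hC0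
  have hbig' : ∀ᶠ (α : ℝ) in (U : Filter ℝ),
      c1 * (Real.exp (-(κ * RR b α)))⁻¹ ≤ ‖PC.LT b (fun n => ψ0 (n : ZMod f0)) (1 - θ * I + α)‖ := by
    filter_upwards [hbig, omg_pos hU] with α h1 h2
    have h3 := hc0' _ (omg_re θ α h2)
    rw [hc1, div_mul_eq_mul_div, div_le_iff₀ hC0, mul_comm _ C0]
    exact h1.trans h3
  have hmem : (⟨f0, ψ0⟩ : Σ f : ℕ, DirichletCharacter ℂ f) ∈ Xs b (κ / 2) θ U := by
    refine ⟨hf0.out, hψ0, ?_⟩
    intro hs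
    unfold Sml at hs
    have h1 := (Metric.tendsto_nhds.1 hs) c1 hc1pos
    have h2 : ∀ᶠ (α : ℝ) in (U : Filter ℝ), False := by
      filter_upwards [h1, hbig'] with α e1 e2
      rw [dist_zero_right, norm_mul, Complex.norm_real, Real.norm_eq_abs,
        abs_of_pos (Real.exp_pos _)] at e1
      have e5 : Real.exp (-(κ / 2 * RR b α)) * (c1 * (Real.exp (-(κ * RR b α)))⁻¹) ≤
          Real.exp (-(κ / 2 * RR b α)) *
          ‖PC.LT b (fun n => ψ0 (n : ZMod f0)) (1 - θ * I + α)‖ :=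
        mul_le_mul_of_nonneg_left e2 (Real.exp_pos _).le
      have e6 : Real.exp (-(κ / 2 * RR b α)) * (c1 * (Real.exp (-(κ * RR b α)))⁻¹) =
          c1 * Real.exp (κ / 2 * RR b α) := by
        rw [mul_left_comm, ← Real.exp_neg, ← Real.exp_add]
        congr 2
        ring
      have e7 : 1 ≤ Real.exp (κ / 2 * RR b α) :=
        Real.one_le_exp (mul_nonneg (by linarith) (Real.sqrt_nonneg _))
      nlinarith
    exact (h2.exists).choose_spec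
  have hfin : (Xs b (κ / 2) θ U ∪ Xs b (κ / 2) (-θ) U).Finite :=
    (xs_finite0 h hT (κ / 2) (by positivity) θ U hU).union
      (xs_finite0 h hT (κ / 2) (by positivity) (-θ) U hU)
  obtain ⟨X, hX⟩ : ∃ X : Finset (Σ f : ℕ, DirichletCharacter ℂ f),
      (X : Set (Σ f : ℕ, DirichletCharacter ℂ f)) = Xs b (κ / 2) θ U ∪ Xs b (κ / 2) (-θ) U :=
    ⟨hfin.toFinset, hfin.coe_toFinset⟩
  have hXmem : ∀ x, x ∈ X ↔ x ∈ Xs b (κ / 2) θ U ∨ x ∈ Xs b (κ / 2) (-θ) U := by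
    intro x
    rw [← Finset.mem_coe, hX]
    rfl
  have hXne : ∀ x ∈ X, x.1 ≠ 0 ∧ x.2.IsPrimitive := by
    intro x hx
    rcases (hXmem x).1 hx with h1 | h1
    · exact ⟨h1.1, h1.2.1⟩
    · exact ⟨h1.1, h1.2.1⟩
  obtain ⟨om, hom1, hom2, x1, hx1, σ1, hσ1, hom3⟩ := om_ex0
    (fun α => Real.exp (-(κ * RR b α))) θ U (Filter.Eventually.of_forall fun α => Real.exp_pos _)
    X ⟨f0, ψ0⟩ ((hXmem _).2 (Or.inl hmem)) θ (Or.inl rfl) c1 hc1pos hbig'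
  have hsmall : ∀ (f : ℕ) (_ : NeZero f) (ψ : DirichletCharacter ℂ f), ψ.IsPrimitive →
      (⟨f, ψ⟩ : Σ f : ℕ, DirichletCharacter ℂ f) ∉ X → ∀ σ : ℝ, (σ = θ ∨ σ = -θ) →
      Tendsto (fun α : ℝ => (om α : ℂ) * PC.LT b (fun n => ψ (n : ZMod f)) (1 - σ * I + α)) U
        (𝓝 0) := by
    intro f hf ψ hψ hnot σ hσ
    have hsm : Sml b (κ / 2) σ U (fun n => ψ (n : ZMod f)) := by
      by_contra hc
      apply hnot
      rw [hXmem]
      rcases hσ with rfl | rfl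
      · exact Or.inl ⟨hf.out, hψ, hc⟩
      · exact Or.inr ⟨hf.out, hψ, hc⟩
    unfold Sml at hsm
    have h1 : Tendsto (fun α : ℝ => (1 / c1) * ‖((Real.exp (-(κ / 2 * RR b α)) : ℝ) : ℂ) *
        PC.LT b (fun n => ψ (n : ZMod f)) (1 - σ * I + α)‖) U (𝓝 0) := by
      have := (tendsto_norm_zero.comp hsm).const_mul (1 / c1)
      simpa using this
    refine squeeze_zero_norm' ?_ h1
    filter_upwards [hom1] with α e1
    rw [norm_mul, norm_mul, Complex.norm_real, Complex.norm_real, Real.norm_eq_abs,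
      Real.norm_eq_abs, abs_of_pos e1.1, abs_of_pos (Real.exp_pos _), ← mul_assoc]
    apply mul_le_mul_of_nonneg_right _ (norm_nonneg _)
    have e4 : Real.exp (-(κ * RR b α)) ≤ Real.exp (-(κ / 2 * RR b α)) := by
      apply Real.exp_le_exp.2
      have : 0 ≤ RR b α := Real.sqrt_nonneg _
      nlinarith
    calc om α ≤ Real.exp (-(κ * RR b α)) / c1 := e1.2
      _ ≤ Real.exp (-(κ / 2 * RR b α)) / c1 := div_le_div_of_nonneg_right e4 hc1pos.le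
      _ = 1 / c1 * Real.exp (-(κ / 2 * RR b α)) := by ring
  have hbdd : ∀ σ : ℝ, (σ = θ ∨ σ = -θ) → ∀ (N : ℕ) [NeZero N] (χ : DirichletCharacter ℂ N),
      ∃ C : ℝ, ∀ᶠ α in (U : Filter ℝ),
        ‖(om α : ℂ) * PC.LT b (fun n => χ (n : ZMod N)) (1 - σ * I + α)‖ ≤ C := by
    intro σ hσ N hN χ'
    obtain ⟨f, hf, ψ, C, hψ, hC, hcmp⟩ := omg_cmp h χ'
    have h1 : ∀ᶠ (α : ℝ) in (U : Filter ℝ),
        ‖(om α : ℂ) * PC.LT b (fun n => ψ (n : ZMod f)) (1 - σ * I + α)‖ ≤ 1 := by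
      by_cases hx : (⟨f, ψ⟩ : Σ f : ℕ, DirichletCharacter ℂ f) ∈ X
      · exact hom2 _ hx σ hσ
      · have h2 := (Metric.tendsto_nhds.1 (hsmall f hf ψ hψ hx σ hσ)) 1 one_pos
        filter_upwards [h2] with α h3
        rw [dist_zero_right] at h3
        exact h3.le
    refine ⟨C, ?_⟩
    filter_upwards [h1, omg_pos hU] with α e1 e2
    rw [norm_mul] at e1 ⊢
    calc ‖(om α : ℂ)‖ * ‖PC.LT b (fun n => χ' (n : ZMod N)) (1 - σ * I + α)‖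
        ≤ ‖(om α : ℂ)‖ * (C * ‖PC.LT b (fun n => ψ (n : ZMod f)) (1 - σ * I + α)‖) :=
          mul_le_mul_of_nonneg_left (hcmp _ (omg_re σ α e2)) (norm_nonneg _)
      _ = C * (‖(om α : ℂ)‖ * ‖PC.LT b (fun n => ψ (n : ZMod f)) (1 - σ * I + α)‖) := by ring
      _ ≤ C * 1 := mul_le_mul_of_nonneg_left e1 hC.le
      _ = C := mul_one C
  have hgood : ∀ σ : ℝ, (σ = θ ∨ σ = -θ) → ∀ r : ℕ, r.Prime → ¬ r ∣ ∏ x ∈ X, x.1 →
      ∀ (N : ℕ) [NeZero N], ¬ r ∣ N → GoodW b N σ U om r := by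
    intro σ hσ r hr hrM N hN hrN e χ' ψ hψ
    obtain ⟨f, hf, Ψ, C, hΨ, hrf, hC, hcmp⟩ := omg_cmp2 h hr hrN χ' ψ hψ
    have hx : (⟨f, Ψ⟩ : Σ f : ℕ, DirichletCharacter ℂ f) ∉ X := by
      intro hx
      exact hrM (hrf.trans (Finset.dvd_prod_of_mem (fun x : (Σ f : ℕ, DirichletCharacter ℂ f) => x.1) hx))
    have h1 := (tendsto_norm_zero.comp (hsmall f hf Ψ hΨ hx σ hσ)).const_mul C
    rw [mul_zero] at h1
    refine squeeze_zero_norm' ?_ h1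
    filter_upwards [omg_pos hU] with α e2
    simp only [Function.comp]
    rw [norm_mul, norm_mul]
    calc ‖(om α : ℂ)‖ * ‖PC.LT b (prodChar χ' ψ) (1 - σ * I + α)‖
        ≤ ‖(om α : ℂ)‖ * (C * ‖PC.LT b (fun n => Ψ (n : ZMod f)) (1 - σ * I + α)‖) :=
          mul_le_mul_of_nonneg_left (hcmp _ (omg_re σ α e2)) (norm_nonneg _)
      _ = C * (‖(om α : ℂ)‖ * ‖PC.LT b (fun n => Ψ (n : ZMod f)) (1 - σ * I + α)‖) := by ring
  have hom0 : Tendsto om U (𝓝 0) := by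
    have h1 : Tendsto (fun α : ℝ => Real.exp (-(κ * RR b α)) / c1) U (𝓝 0) := by
      have h2 : Tendsto (fun α : ℝ => Real.exp (-(κ * RR b α))) U (𝓝 0) :=
        Real.tendsto_exp_neg_atTop_nhds_zero.comp
          (((RR_tendsto h hT).mono_left hU).const_mul_atTop hκ)
      have h3 := h2.div_const c1
      simpa using h3
    refine squeeze_zero' ?_ ?_ h1
    · filter_upwards [hom1] with α e1
      exact e1.1.le
    · filter_upwards [hom1] with α e1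
      exact e1.2
  have hsw : ∀ σ : ℝ, (σ = -σ1 ∨ σ = -(-σ1)) → (σ = θ ∨ σ = -θ) := by
    intro σ hσ
    rcases hσ with h1 | h1 <;> rcases hσ1 with h2 | h2 <;> subst h2
    · exact Or.inr h1
    · exact Or.inl (by rw [h1, neg_neg])
    · exact Or.inl (by rw [h1, neg_neg])
    · exact Or.inr (by rw [h1, neg_neg])
  refine ⟨-σ1, om, ∏ x ∈ X, x.1, ?_⟩
  refine
    { pd := h
      le := hU
      om0 := hom0
      bdd := fun σ hσ N hN χ' => @hbdd σ (hsw σ hσ) N hN χ'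
      M0pos := ?_
      good := fun σ hσ r hr hrM N hN hrN => @hgood σ (hsw σ hσ) r hr hrM N hN hrN
      ne := ?_ }
  · exact Nat.one_le_iff_ne_zero.2 (Finset.prod_ne_zero_iff.2 fun x hx => (hXne x hx).1)
  · refine ⟨x1.1, ⟨(hXne x1 hx1).1⟩, x1.2, (hXne x1 hx1).2, ?_⟩
    intro hT
    apply hom3
    have e : (fun α : ℝ => (om α : ℂ) * PC.LT b (fun n => x1.2 (n : ZMod x1.1)) (1 - σ1 * I + α)) =
        fun α : ℝ => (om α : ℂ) * PC.LT b (fun n => x1.2 (n : ZMod x1.1))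
          (1 + ((-σ1 : ℝ) : ℂ) * I + α) := by
      funext α
      congr 2
      push_cast
      ring
    rw [e]
    exact hT

end Pool.Agent.H11.PE
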