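import Mathlib
import Pool.Agent.H11.PE.Defs
import Pool.Agent.H11.PC.PDOF

/-!
# PDOF0: the axioms of the Selberg class give `PD0`
-/

set_option autoImplicit false

namespace Pool.Agent.H11.PE

open Complex Filter Topology Pool.Agent.H11.Selberg Pool.Agent.H11.SC Pool.Agent.H11.PC Pool.Agent.H39.Pol

theorem pd0_of (a : ℕ → ℂ) (F : ℂ → ℂ) (hS : IsSelberg a F) (δ : ℝ) :
    PD0 (fun n => a n * (n : ℂ) ^ (-(δ * I) : ℂ)) := by
  obtain ⟨b0, θ0, C0, hθ0, hb0, hE⟩ := hS.euler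
  have hE' : ∀ s : ℂ, 1 < s.re → HasProd
      (fun p : Nat.Primes => Complex.exp (∑' l : ℕ, b0 ((p : ℕ) ^ (l + 1)) *
        ((p : ℕ) : ℂ) ^ (-((l : ℂ) + 1) * s))) (LSeries a s) := fun s hs => by
    rw [← hS.eq_LSeries s hs]; exact hE s hs
  have hrec := conv_rec a hS.summable b0 θ0 C0 hθ0 hb0 hE'
  have hmul0 := twoc_mul a F hS b0 hrec
  have hmul : ∀ m n : ℕ, Nat.Coprime m n → a (m * n) = a m * a n := by
    intro m n hmn
    by_cases h0 : m * n = 0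
    · rcases Nat.mul_eq_zero.mp h0 with rfl | rfl
      · rw [Nat.coprime_zero_left] at hmn
        subst hmn
        rw [mul_one, hS.one, mul_one]
      · rw [Nat.coprime_zero_right] at hmn
        subst hmn
        rw [one_mul, hS.one, one_mul]
    · exact hmul0 m n h0 hmn
  have hnorm : ∀ n : ℕ, 1 ≤ n → ‖a n * (n : ℂ) ^ (-(δ * I) : ℂ)‖ = ‖a n‖ := by
    intro n hn
    rw [norm_mul, norm_natCast_cpow_of_pos (by omega)]
    simp
  have hcast : (-((δ : ℂ) * I)) = (((-δ : ℝ) : ℂ) * I) := by push_cast; ring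
  refine ⟨?_, ?_, ?_, ?_, ?_⟩
  · show a 1 * ((1 : ℕ) : ℂ) ^ (-(δ * I) : ℂ) = 1
    rw [hS.one, Nat.cast_one, one_cpow, mul_one]
  · intro m n hmn
    show a (m * n) * ((m * n : ℕ) : ℂ) ^ (-(δ * I) : ℂ) =
      a m * (m : ℂ) ^ (-(δ * I) : ℂ) * (a n * (n : ℂ) ^ (-(δ * I) : ℂ))
    rw [hmul m n hmn, Nat.cast_mul, natCast_mul_natCast_cpow]
    ring
  · intro ε hε
    obtain ⟨C, hC⟩ := hS.ramanujan ε hε
    refine ⟨C, fun n hn => ?_⟩
    show ‖a n * (n : ℂ) ^ (-(δ * I) : ℂ)‖ ≤ _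
    rw [hnorm n hn]
    exact hC n hn
  · intro p hp X hX
    exact loc_twist a F hS δ p hp X hX
  · obtain ⟨K, hK, hlog⟩ := log_twist a F hS
    refine ⟨K, hK, fun g hg s hs => ?_⟩
    have hg2 : CM (fun n => (n : ℂ) ^ (((-δ : ℝ) : ℂ) * I) * g n) := (cm_pow (-δ)).times hg
    obtain ⟨R, hR, hRe⟩ := hlog _ hg2 s hs
    refine ⟨R, hR, ?_⟩
    have e1 : (fun n : ℕ => a n * ((n : ℂ) ^ (((-δ : ℝ) : ℂ) * I) * g n)) =
        fun n : ℕ => (fun n : ℕ => a n * (n : ℂ) ^ (-(δ * I) : ℂ)) n * g n := by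
      funext n
      rw [hcast]
      ring
    unfold PC.LT at hRe ⊢
    rw [e1] at hRe
    exact hRe

end Pool.Agent.H11.PE
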