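import Mathlib
import Pool.Agent.H11.PE.Defs
import Pool.Agent.H11.PE.PDOF0
import Pool.Agent.H11.PE.OMG0
import Pool.Agent.H11.PE.TTL

/-!
# CHZ0: chapter 0 for the version without a hypothesis on `S_F`
-/

set_option autoImplicit false

namespace Pool.Agent.H11.PE

open Complex Filter Topology Pool.Agent.H11.PC Pool.Agent.H11.Selberg

theorem TT_shift (a : ℕ → ℂ) (δ α : ℝ) :
    TT (fun n => a n * (n : ℂ) ^ (-(δ * I) : ℂ)) α = TT a α := by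
  unfold TT
  refine tsum_congr fun p => ?_
  have h : ‖a (p : ℕ) * ((p : ℕ) : ℂ) ^ (-(δ * I) : ℂ)‖ = ‖a (p : ℕ)‖ := by
    rw [norm_mul, norm_natCast_cpow_of_pos p.2.pos]
    simp
  show ‖a (p : ℕ) * ((p : ℕ) : ℂ) ^ (-(δ * I) : ℂ)‖ ^ 2 * _ = _
  rw [h]

theorem RR_shift (a : ℕ → ℂ) (δ α : ℝ) :
    RR (fun n => a n * (n : ℂ) ^ (-(δ * I) : ℂ)) α = RR a α := by
  unfold RR
  rw [TT_shift]

theorem pd0_zero (a : ℕ → ℂ) (F : ℂ → ℂ) (hS : IsSelberg a F) : PD0 a := by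
  have h0 := pd0_of a F hS 0
  have e : (fun n : ℕ => a n * (n : ℂ) ^ (-(((0 : ℝ) : ℂ) * I) : ℂ)) = a := by
    funext n
    rw [Complex.ofReal_zero, zero_mul, neg_zero, Complex.cpow_zero, mul_one]
  rwa [e] at h0

private theorem chz_bd {a : ℕ → ℂ} (ha : PD0 a) {L : ℕ} (χ : DirichletCharacter ℂ L) (t δ0 : ℝ)
    (hδ0 : 0 < δ0) : ∃ C1 : ℝ, 0 ≤ C1 ∧ ∀ α : ℝ, δ0 ≤ α →
      (PS (fun n => a n * χ (n : ZMod L)) (1 + t * I + α)).re ≤ C1 := by
  have hs : 1 < (1 + t * I + (δ0 : ℝ) : ℂ).re := by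
    simp
    exact hδ0
  have h1 := pd_prime_summable ha (fun _ => 1) (fun _ => by simp) (1 + t * I + (δ0 : ℝ)) hs
  refine ⟨∑' p : Nat.Primes, ‖a (p : ℕ) * 1 * ((p : ℕ) : ℂ) ^ (-(1 + t * I + (δ0 : ℝ) : ℂ))‖,
    tsum_nonneg fun p => norm_nonneg _, fun α hα => ?_⟩
  refine (Complex.re_le_norm _).trans ?_
  unfold PS
  refine tsum_of_norm_bounded h1.hasSum fun p => ?_
  rw [norm_mul, norm_mul, norm_mul, norm_mul, norm_one, mul_one,
    norm_natCast_cpow_of_pos p.2.pos, norm_natCast_cpow_of_pos p.2.pos]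
  have g1 := χ.norm_le_one ((p : ℕ) : ZMod L)
  have g2 : ((p : ℕ) : ℝ) ^ (-(1 + t * I + α : ℂ)).re ≤
      ((p : ℕ) : ℝ) ^ (-(1 + t * I + (δ0 : ℝ) : ℂ)).re := by
    apply Real.rpow_le_rpow_of_exponent_le
    · exact_mod_cast p.2.one_le
    · simp
      linarith
  calc ‖a (p : ℕ)‖ * ‖χ ((p : ℕ) : ZMod L)‖ * ((p : ℕ) : ℝ) ^ (-(1 + t * I + α : ℂ)).re
      ≤ ‖a (p : ℕ)‖ * 1 * ((p : ℕ) : ℝ) ^ (-(1 + t * I + (δ0 : ℝ) : ℂ)).re := by gcongr
    _ = _ := by rw [mul_one]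

theorem chapter_zero0 (a : ℕ → ℂ) (F : ℂ → ℂ) (hS : IsSelberg a F) (δ : ℝ)
    {L : ℕ} [NeZero L] (χ : DirichletCharacter ℂ L) (t η : ℝ) (hη : 0 < η)
    (hbad : ∀ C : ℝ, ∃ α : ℝ, 0 < α ∧ α ≤ 1 / 2 ∧ η * RR a α + C <
      (PS (fun n => a n * χ (n : ZMod L)) (1 + t * I + α)).re) :
    ∃ (θ : ℝ) (U : Ultrafilter ℝ) (om : ℝ → ℝ) (M0 : ℕ),
      BD0 (fun n => a n * (n : ℂ) ^ (-(δ * I) : ℂ)) θ U om M0 := by
  have ha : PD0 a := pd0_zero a F hS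
  have hb := pd0_of a F hS δ
  have hT : 0 < TT a (1 / 2) := by
    by_contra hcon
    have h0 : ∀ p : ℕ, p.Prime → a p = 0 := by
      intro p hp
      by_contra hap
      exact hcon (TT_pos ha hp hap)
    obtain ⟨α, -, -, hα⟩ := hbad 0
    have h1 : PS (fun n => a n * χ (n : ZMod L)) (1 + t * I + α) = 0 := by
      unfold PS
      rw [← tsum_zero (α := ℂ) (β := Nat.Primes)]
      refine tsum_congr fun p => ?_
      show a (p : ℕ) * χ ((p : ℕ) : ZMod L) * _ = 0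
      rw [h0 p p.2, zero_mul, zero_mul]
    rw [h1, Complex.zero_re] at hα
    have h2 : 0 ≤ RR a α := Real.sqrt_nonneg _
    nlinarith
  have hfr : ∃ᶠ α in 𝓝[>] (0 : ℝ), η * RR a α ≤
      (PS (fun n => a n * χ (n : ZMod L)) (1 + t * I + α)).re := by
    rw [Filter.frequently_iff]
    intro V hV
    obtain ⟨δ0, hδ0, hδV⟩ := mem_nhdsGT_iff_exists_Ioo_subset.1 hV
    have hδ0' : 0 < δ0 := hδ0
    obtain ⟨C1, hC1, hbd⟩ := chz_bd ha χ t δ0 hδ0'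
    obtain ⟨α, h1, h2, h3⟩ := hbad C1
    have h4 : 0 ≤ η * RR a α := mul_nonneg hη.le (Real.sqrt_nonneg _)
    refine ⟨α, hδV ⟨h1, ?_⟩, by linarith⟩
    by_contra hcon
    push Not at hcon
    have := hbd α hcon
    linarith
  rw [Filter.frequently_iff_neBot] at hfr
  set P : Set ℝ := {α : ℝ | η * RR a α ≤
    (PS (fun n => a n * χ (n : ZMod L)) (1 + t * I + α)).re} with hP
  have hfr' : (𝓝[>] (0 : ℝ) ⊓ 𝓟 P).NeBot := hfr
  set U : Ultrafilter ℝ := @Ultrafilter.of ℝ (𝓝[>] (0 : ℝ) ⊓ 𝓟 P) hfr' with hU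
  have hUle : (U : Filter ℝ) ≤ 𝓝[>] (0 : ℝ) ⊓ 𝓟 P := @Ultrafilter.of_le ℝ _ hfr'
  have hU0 : (U : Filter ℝ) ≤ 𝓝[>] 0 := hUle.trans inf_le_left
  have hUP : ∀ᶠ α in (U : Filter ℝ), α ∈ P := (hUle.trans inf_le_right) (mem_principal_self P)
  obtain ⟨K, hK, hlog⟩ := hb.log
  have hpos : ∀ᶠ α in (U : Filter ℝ), (0 : ℝ) < α := hU0 self_mem_nhdsWithin
  obtain ⟨θ', om, M0, hBD⟩ := bd_of0 hb (by rw [TT_shift]; exact hT) η hη (δ - t) U hU0 χ
    (Real.exp (-K)) (Real.exp_pos _) (by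
      filter_upwards [hUP, hpos] with α hα hα0
      have hre : 1 < (1 - ((δ - t : ℝ) : ℂ) * I + α : ℂ).re := by
        simp
        exact hα0
      obtain ⟨R, hR, hRe⟩ := hlog _ (cm_char χ) _ hre
      have hps : PS (fun n : ℕ => a n * (n : ℂ) ^ (-(δ * I) : ℂ) * χ (n : ZMod L))
          (1 - ((δ - t : ℝ) : ℂ) * I + α) = PS (fun n => a n * χ (n : ZMod L)) (1 + t * I + α) := by
        have e1 := PS_shift (fun n : ℕ => a n * χ (n : ZMod L)) (-δ)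
          (1 - ((δ - t : ℝ) : ℂ) * I + α)
        have e2 : (fun n : ℕ => a n * χ (n : ZMod L) * (n : ℂ) ^ (((-δ : ℝ) : ℂ) * I)) =
            fun n : ℕ => a n * (n : ℂ) ^ (-(δ * I) : ℂ) * χ (n : ZMod L) := by
          funext n
          have e3 : (((-δ : ℝ) : ℂ) * I) = -(δ * I) := by push_cast; ring
          rw [e3]
          ring
        have e4 : (1 - ((δ - t : ℝ) : ℂ) * I + α : ℂ) - ((-δ : ℝ) : ℂ) * I = 1 + t * I + α := by
          push_cast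
          ring
        rw [e2, e4] at e1
        exact e1
      rw [hRe, hps, Complex.norm_exp, Complex.add_re, RR_shift, ← Real.exp_neg, neg_neg,
        ← Real.exp_add]
      have h1 : -K ≤ R.re := by
        have := (abs_le.mp ((Complex.abs_re_le_norm R).trans hR)).1
        linarith
      have h2 : η * RR a α ≤
        (PS (fun n => a n * χ (n : ZMod L)) (1 + t * I + α)).re := hα
      exact Real.exp_le_exp.mpr (by linarith))
  exact ⟨θ', U, om, M0, hBD⟩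

end Pool.Agent.H11.PE
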