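import Mathlib
import Pool.Agent.H11.PE.Defs
import Pool.Agent.H11.PC.Defs

/-!
# LAMC (copy for PD0): continuity and size of `Λ_k`

`‖b(r^j)‖ ≤ C r^(j/4)` (`h.ram (1/4)`), so all series converge absolutely and uniformly for `‖X‖ ≤ r^(-1/2)`:
continuity there (`continuousOn_tsum`).  `FL b r X ≠ 0` by `h.loc`.
`Lam_tendsto`: `α ↦ z r^(-(1-θI+α))` is continuous, norm `≤ 1/r ≤ r^(-1/2)`.
`Lam_one`: use `h.ram (1/16)`.  For `‖X‖ ≤ 1/r`: `FL b r X = 1 + O(r^(-15/16))`, numerator times `r`: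
`-r/(r-1) + b(r) r X + O(r^(-7/8))`, `‖b(r) r X‖ ≤ C r^(1/16)`.  For `r ≥ r0` `‖FL b r X‖ ≥ 1/2`, so
`r Lam b r 1 X = -1 + b(r) r X + O(r^(-7/8)) + O(r^(1/16 - 15/16)) = -1 + b(r) r X + O(r^(-1/2))`.  For the finitely many
`r < r0`: `FL b r` is continuous and nonzero on the compact disc `‖X‖ ≤ 1/r`, so everything is bounded.
-/

set_option autoImplicit false

namespace Pool.Agent.H11.PE

open Complex Filter Topology Pool.Agent.H11.PC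

private theorem lamc_pow {r : ℕ} (hr : r.Prime) (δ : ℝ) (j : ℕ) :
    (((r ^ j : ℕ) : ℝ)) ^ δ = ((r : ℝ) ^ δ) ^ j := by
  rw [Nat.cast_pow, ← Real.rpow_natCast, ← Real.rpow_mul (Nat.cast_nonneg _),
    ← Real.rpow_natCast, ← Real.rpow_mul (Nat.cast_nonneg _), mul_comm]

private theorem lamc_term {b : ℕ → ℂ} {δ C : ℝ} (hC : ∀ n : ℕ, 1 ≤ n → ‖b n‖ ≤ C * (n : ℝ) ^ δ)
    {r : ℕ} (hr : r.Prime) {x : ℝ} {X : ℂ} (hX : ‖X‖ ≤ x) (j : ℕ) :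
    ‖b (r ^ j) * X ^ j‖ ≤ C * ((r : ℝ) ^ δ * x) ^ j := by
  have hr0 : (0 : ℝ) < r := by exact_mod_cast hr.pos
  have h1 := hC (r ^ j) (Nat.one_le_pow _ _ hr.pos)
  rw [lamc_pow hr] at h1
  rw [norm_mul, norm_pow, mul_pow, ← mul_assoc]
  exact mul_le_mul h1 (pow_le_pow_left₀ (norm_nonneg _) hX _) (pow_nonneg (norm_nonneg _) _)
    ((norm_nonneg _).trans h1)

private theorem lamc_q {r : ℕ} (hr : r.Prime) :
    (r : ℝ) ^ (1 / 4 : ℝ) * (r : ℝ) ^ (-(1 / 2) : ℝ) < 1 ∧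
      0 ≤ (r : ℝ) ^ (1 / 4 : ℝ) * (r : ℝ) ^ (-(1 / 2) : ℝ) := by
  have hr0 : (0 : ℝ) < r := by exact_mod_cast hr.pos
  refine ⟨?_, by positivity⟩
  rw [← Real.rpow_add hr0]
  exact Real.rpow_lt_one_of_one_lt_of_neg (by exact_mod_cast hr.one_lt) (by norm_num)

private theorem lamc_cont {b : ℕ → ℂ} (h : PD0 b) (r : ℕ) (hr : r.Prime) (k : ℕ) :
    ContinuousOn (fun X : ℂ => ∑' j : ℕ, b (r ^ (j + k)) * X ^ (j + k))
      (Metric.closedBall 0 ((r : ℝ) ^ (-(1 / 2) : ℝ))) := by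
  obtain ⟨C, hC⟩ := h.ram (1 / 4) (by norm_num)
  obtain ⟨hq1, hq0⟩ := lamc_q hr
  refine continuousOn_tsum (u := fun j : ℕ =>
    C * ((r : ℝ) ^ (1 / 4 : ℝ) * (r : ℝ) ^ (-(1 / 2) : ℝ)) ^ (j + k)) (fun j => ?_) ?_ ?_
  · exact (continuous_const.mul (continuous_id.pow _)).continuousOn
  · refine Summable.mul_left _ ?_
    exact (summable_nat_add_iff k).2 (summable_geometric_of_lt_one hq0 hq1)
  · intro j X hX
    exact lamc_term hC hr (by simpa using hX) (j + k)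

theorem FL_cont {b : ℕ → ℂ} (h : PD0 b) (r : ℕ) (hr : r.Prime) :
    ContinuousOn (FL b r) (Metric.closedBall 0 ((r : ℝ) ^ (-(1 / 2) : ℝ))) :=
  lamc_cont h r hr 0

private theorem lamc_lam {b : ℕ → ℂ} (h : PD0 b) (r : ℕ) (hr : r.Prime) (k : ℕ) :
    ContinuousOn (Lam b r k) (Metric.closedBall 0 ((r : ℝ) ^ (-(1 / 2) : ℝ))) := by
  unfold Lam
  refine ContinuousOn.div (ContinuousOn.add ?_ (lamc_cont h r hr k)) (FL_cont h r hr) ?_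
  · exact (continuous_const.mul (continuous_id.pow _)).continuousOn
  · intro X hX
    exact h.loc r hr X (by simpa using hX)

theorem Lam_tendsto {b : ℕ → ℂ} (h : PD0 b) (r : ℕ) (hr : r.Prime) (k : ℕ) (hk : 1 ≤ k) (z : ℂ)
    (hz : ‖z‖ ≤ 1) (θ : ℝ) :
    Tendsto (fun α : ℝ => Lam b r k (z * (r : ℂ) ^ (-(1 - θ * I + α : ℂ)))) (𝓝[>] 0)
      (𝓝 (Lam b r k (z * (r : ℂ) ^ (-(1 - θ * I : ℂ))))) := by
  have hr0 : (r : ℂ) ≠ 0 := by exact_mod_cast hr.ne_zero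
  have hrR : (1 : ℝ) ≤ r := by exact_mod_cast hr.one_le
  have hmem : ∀ α : ℝ, 0 ≤ α → z * (r : ℂ) ^ (-(1 - θ * I + α : ℂ)) ∈
      Metric.closedBall (0 : ℂ) ((r : ℝ) ^ (-(1 / 2) : ℝ)) := by
    intro α hα
    rw [mem_closedBall_zero_iff, norm_mul, norm_natCast_cpow_of_pos hr.pos]
    have e : (-(1 - θ * I + α : ℂ)).re = -(1 + α) := by simp
    rw [e]
    calc ‖z‖ * (r : ℝ) ^ (-(1 + α)) ≤ 1 * (r : ℝ) ^ (-(1 / 2) : ℝ) :=
          mul_le_mul hz (Real.rpow_le_rpow_of_exponent_le hrR (by linarith))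
            (Real.rpow_nonneg (by linarith) _) zero_le_one
      _ = _ := one_mul _
  have hx0 : z * (r : ℂ) ^ (-(1 - θ * I : ℂ)) ∈
      Metric.closedBall (0 : ℂ) ((r : ℝ) ^ (-(1 / 2) : ℝ)) := by
    have := hmem 0 le_rfl
    rwa [ofReal_zero, add_zero] at this
  refine (lamc_lam h r hr k _ hx0).tendsto.comp ?_
  refine tendsto_nhdsWithin_iff.2 ⟨?_, ?_⟩
  · have hc : Continuous fun α : ℝ => z * (r : ℂ) ^ (-(1 - θ * I + α : ℂ)) := by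
      refine continuous_const.mul ?_
      refine Continuous.const_cpow ?_ (Or.inl hr0)
      exact (continuous_const.add continuous_ofReal).neg
    have := (hc.tendsto 0).mono_left (nhdsWithin_le_nhds (s := Set.Ioi 0))
    rwa [ofReal_zero, add_zero] at this
  · filter_upwards [self_mem_nhdsWithin] with α hα
    exact hmem α (le_of_lt hα)

private theorem lamc_min {b : ℕ → ℂ} (h : PD0 b) (r : ℕ) (hr : r.Prime) :
    ∃ m : ℝ, 0 < m ∧ ∀ X : ℂ, ‖X‖ ≤ 1 / (r : ℝ) → m ≤ ‖FL b r X‖ := by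
  have hrR : (1 : ℝ) ≤ r := by exact_mod_cast hr.one_le
  have hle : 1 / (r : ℝ) ≤ (r : ℝ) ^ (-(1 / 2) : ℝ) := by
    rw [one_div, ← Real.rpow_neg_one]
    exact Real.rpow_le_rpow_of_exponent_le hrR (by norm_num)
  have hsub : Metric.closedBall (0 : ℂ) (1 / (r : ℝ)) ⊆
      Metric.closedBall 0 ((r : ℝ) ^ (-(1 / 2) : ℝ)) := Metric.closedBall_subset_closedBall hle
  obtain ⟨X0, hX0, hmin⟩ := (isCompact_closedBall (0 : ℂ) (1 / (r : ℝ))).exists_isMinOn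
    ⟨0, by rw [mem_closedBall_zero_iff, norm_zero]; positivity⟩ ((FL_cont h r hr).mono hsub).norm
  refine ⟨‖FL b r X0‖, norm_pos_iff.2 (h.loc r hr X0 ?_), fun X hX => ?_⟩
  · have := hsub hX0
    rwa [mem_closedBall_zero_iff] at this
  · exact hmin (by rwa [mem_closedBall_zero_iff])

private theorem lamc_min' {b : ℕ → ℂ} (h : PD0 b) (R : ℕ) :
    ∃ m : ℝ, 0 < m ∧ ∀ r : ℕ, r.Prime → r < R → ∀ X : ℂ, ‖X‖ ≤ 1 / (r : ℝ) → m ≤ ‖FL b r X‖ := by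
  induction R with
  | zero => exact ⟨1, one_pos, fun r _ h => absurd h (Nat.not_lt_zero _)⟩
  | succ R ih =>
    obtain ⟨m, hm, hm'⟩ := ih
    by_cases hR : R.Prime
    · obtain ⟨m2, h2, h2'⟩ := lamc_min h R hR
      refine ⟨min m m2, lt_min hm h2, fun r hr hrR X hX => ?_⟩
      rcases Nat.lt_succ_iff_lt_or_eq.1 hrR with h3 | h3
      · exact (min_le_left _ _).trans (hm' r hr h3 X hX)
      · subst h3
        exact (min_le_right _ _).trans (h2' X hX)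
    · refine ⟨m, hm, fun r hr hrR X hX => ?_⟩
      rcases Nat.lt_succ_iff_lt_or_eq.1 hrR with h3 | h3
      · exact hm' r hr h3 X hX
      · exact absurd (h3 ▸ hr) hR

/-- the tail of the series in the disc of radius `1/r` -/
private theorem lamc_tail {b : ℕ → ℂ} {A : ℝ} (hA0 : 0 ≤ A)
    (hA : ∀ n : ℕ, 1 ≤ n → ‖b n‖ ≤ A * (n : ℝ) ^ (1 / 16 : ℝ)) {r : ℕ} (hr : r.Prime) {X : ℂ}
    (hX : ‖X‖ ≤ 1 / (r : ℝ)) (k : ℕ) :
    Summable (fun j : ℕ => b (r ^ (j + k)) * X ^ (j + k)) ∧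
    ‖∑' j : ℕ, b (r ^ (j + k)) * X ^ (j + k)‖ ≤ 3 * A * ((r : ℝ) ^ (-(15 / 16) : ℝ)) ^ k := by
  have hr0 : (0 : ℝ) < r := by exact_mod_cast hr.pos
  have hr2 : (2 : ℝ) ≤ r := by exact_mod_cast hr.two_le
  obtain ⟨q, hq⟩ : ∃ q : ℝ, q = (r : ℝ) ^ (-(15 / 16) : ℝ) := ⟨_, rfl⟩
  have hqe : (r : ℝ) ^ (1 / 16 : ℝ) * (1 / (r : ℝ)) = q := by
    rw [hq, one_div (r : ℝ), ← Real.rpow_neg_one, ← Real.rpow_add hr0]
    norm_num
  have hq0 : 0 ≤ q := by rw [hq]; positivity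
  have hq1 : q ≤ 2 / 3 := by
    have e1 : q ≤ (2 : ℝ) ^ (-(15 / 16) : ℝ) := by
      rw [hq]
      exact Real.rpow_le_rpow_of_nonpos (by norm_num) hr2 (by norm_num)
    have e2 : (2 : ℝ) ^ (-(15 / 16) : ℝ) ≤ (2 : ℝ) ^ (-(3 / 4) : ℝ) :=
      Real.rpow_le_rpow_of_exponent_le (by norm_num) (by norm_num)
    have e3 : (2 : ℝ) ^ (-(3 / 4) : ℝ) ≤ 2 / 3 := by
      have e4 : ((2 : ℝ) ^ (-(3 / 4) : ℝ)) ^ 4 = 1 / 8 := by
        rw [← Real.rpow_natCast, ← Real.rpow_mul (by norm_num)]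
        norm_num
      refine le_of_pow_le_pow_left₀ (n := 4) (by norm_num) (by norm_num) ?_
      rw [e4]
      norm_num
    linarith
  rw [← hq]
  have hterm : ∀ j : ℕ, ‖b (r ^ (j + k)) * X ^ (j + k)‖ ≤ A * q ^ k * q ^ j := by
    intro j
    have := lamc_term hA hr hX (j + k)
    rw [hqe] at this
    refine this.trans (le_of_eq ?_)
    rw [pow_add]
    ring
  have hs : Summable (fun j : ℕ => A * q ^ k * q ^ j) :=
    (summable_geometric_of_lt_one hq0 (by linarith)).mul_left _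
  refine ⟨Summable.of_norm_bounded hs hterm, ?_⟩
  refine (tsum_of_norm_bounded hs.hasSum hterm).trans ?_
  rw [tsum_mul_left, tsum_geometric_of_lt_one hq0 (by linarith)]
  have h3 : (1 - q)⁻¹ ≤ 3 := by
    rw [inv_le_comm₀ (by linarith) (by norm_num)]
    linarith
  have h4 : 0 ≤ A * q ^ k := by positivity
  nlinarith

theorem Lam_one {b : ℕ → ℂ} (h : PD0 b) : ∃ C : ℝ, 0 ≤ C ∧ ∀ r : ℕ, r.Prime → ∀ X : ℂ,
    ‖X‖ ≤ 1 / (r : ℝ) →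
      ‖(r : ℂ) * Lam b r 1 X - (-1 + b r * ((r : ℂ) * X))‖ ≤ C * (r : ℝ) ^ (-(1 / 2) : ℝ) := by
  obtain ⟨A, hA⟩ := h.ram (1 / 16) (by norm_num)
  have hA0 : 0 ≤ A := by
    have := (norm_nonneg _).trans (hA 1 le_rfl)
    simpa using this
  obtain ⟨R, hR⟩ := exists_nat_gt (36 * A ^ 2 + 1)
  obtain ⟨m1, hm1, hm1'⟩ := lamc_min' h R
  obtain ⟨m, hm, hm1m, hm2⟩ : ∃ m : ℝ, 0 < m ∧ m ≤ m1 ∧ m ≤ 1 / 2 :=
    ⟨min m1 (1 / 2), lt_min hm1 (by norm_num), min_le_left _ _, min_le_right _ _⟩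
  refine ⟨2 + 3 * A + (2 + 4 * A) * (3 * A) / m, by positivity, fun r hr X hX => ?_⟩
  have hr0 : (0 : ℝ) < r := by exact_mod_cast hr.pos
  have hr1 : (1 : ℝ) ≤ r := by exact_mod_cast hr.one_le
  have hr2 : (2 : ℝ) ≤ r := by exact_mod_cast hr.two_le
  have hrC : (r : ℂ) ≠ 0 := by exact_mod_cast hr.ne_zero
  have hrC1 : (r : ℂ) - 1 ≠ 0 := by
    intro h0
    have : (r : ℂ) = ((1 : ℕ) : ℂ) := by rw [Nat.cast_one]; linear_combination h0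
    exact hr.one_lt.ne' (Nat.cast_injective this)
  obtain ⟨s1, t1⟩ := lamc_tail hA0 hA hr hX 1
  obtain ⟨s2, t2⟩ := lamc_tail hA0 hA hr hX 2
  obtain ⟨s0, t0⟩ := lamc_tail hA0 hA hr hX 0
  obtain ⟨T1, hT1⟩ : ∃ T1 : ℂ, T1 = ∑' j : ℕ, b (r ^ (j + 1)) * X ^ (j + 1) := ⟨_, rfl⟩
  obtain ⟨T2, hT2⟩ : ∃ T2 : ℂ, T2 = ∑' j : ℕ, b (r ^ (j + 2)) * X ^ (j + 2) := ⟨_, rfl⟩
  rw [← hT1] at t1
  rw [← hT2] at t2
  have hFL : FL b r X = 1 + T1 := by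
    unfold FL
    have := s0.tsum_eq_zero_add
    simp only [add_zero] at this
    rw [this, hT1, pow_zero, pow_zero, h.one, mul_one]
  have hT12 : T1 = b r * X + T2 := by
    rw [hT1, hT2]
    have := s1.tsum_eq_zero_add
    simp only [zero_add, pow_one] at this
    rw [this]
  -- sizes
  have hT1le : ‖T1‖ ≤ 3 * A * (r : ℝ) ^ (-(15 / 16) : ℝ) := by rwa [pow_one] at t1
  have hT2le : (r : ℝ) * ‖T2‖ ≤ 3 * A * (r : ℝ) ^ (-(7 / 8) : ℝ) := by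
    calc (r : ℝ) * ‖T2‖ ≤ (r : ℝ) * (3 * A * ((r : ℝ) ^ (-(15 / 16) : ℝ)) ^ 2) :=
          mul_le_mul_of_nonneg_left t2 hr0.le
      _ = 3 * A * ((r : ℝ) ^ (1 : ℝ) * ((r : ℝ) ^ (-(15 / 16) : ℝ)) ^ 2) := by
          rw [Real.rpow_one]
          ring
      _ = 3 * A * (r : ℝ) ^ (-(7 / 8) : ℝ) := by
          rw [← Real.rpow_natCast ((r : ℝ) ^ (-(15 / 16) : ℝ)), ← Real.rpow_mul hr0.le,
            ← Real.rpow_add hr0]
          norm_num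
  have hbX : ‖b r * ((r : ℂ) * X)‖ ≤ A * (r : ℝ) ^ (1 / 16 : ℝ) := by
    rw [norm_mul, norm_mul, Complex.norm_natCast]
    have h1 : (r : ℝ) * ‖X‖ ≤ 1 := by
      calc (r : ℝ) * ‖X‖ ≤ (r : ℝ) * (1 / (r : ℝ)) := mul_le_mul_of_nonneg_left hX hr0.le
        _ = 1 := by field_simp
    calc ‖b r‖ * ((r : ℝ) * ‖X‖) ≤ (A * (r : ℝ) ^ (1 / 16 : ℝ)) * 1 :=
          mul_le_mul (hA r hr.one_le) h1 (by positivity) (by positivity)
      _ = _ := mul_one _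
  have hFLm : m ≤ ‖FL b r X‖ := by
    by_cases hrR : r < R
    · exact hm1m.trans (hm1' r hr hrR X hX)
    · have h1 : (R : ℝ) ≤ r := by exact_mod_cast not_lt.1 hrR
      have h2 : 6 * A ≤ (r : ℝ) ^ (1 / 2 : ℝ) := by
        rw [← Real.sqrt_eq_rpow]
        refine Real.le_sqrt_of_sq_le ?_
        nlinarith
      have h3 : ‖T1‖ ≤ 1 / 2 := by
        refine hT1le.trans ?_
        have h4 : (r : ℝ) ^ (-(15 / 16) : ℝ) ≤ (r : ℝ) ^ (-(1 / 2) : ℝ) :=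
          Real.rpow_le_rpow_of_exponent_le hr1 (by norm_num)
        have h5 : (r : ℝ) ^ (1 / 2 : ℝ) * (r : ℝ) ^ (-(1 / 2) : ℝ) = 1 := by
          rw [← Real.rpow_add hr0]
          norm_num
        have h6 : 0 ≤ (r : ℝ) ^ (-(1 / 2) : ℝ) := by positivity
        nlinarith
      have h4 : (1 : ℝ) ≤ ‖FL b r X‖ + ‖T1‖ := by
        calc (1 : ℝ) = ‖(1 + T1) - T1‖ := by rw [add_sub_cancel_right, norm_one]
          _ ≤ ‖1 + T1‖ + ‖T1‖ := norm_sub_le _ _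
          _ = _ := by rw [hFL]
      linarith
  have hFL0 : FL b r X ≠ 0 := by
    intro h0
    rw [h0, norm_zero] at hFLm
    linarith
  -- numerator
  obtain ⟨Nm, hNm⟩ : ∃ Nm : ℂ, Nm = (r : ℂ) * (-(1 / ((r : ℂ) - 1)) + T1) := ⟨_, rfl⟩
  have hLam : (r : ℂ) * Lam b r 1 X = Nm / FL b r X := by
    unfold Lam
    rw [hNm, ← hT1]
    simp only [Nat.sub_self, pow_zero, mul_one, h.one]
    ring
  have hNm2 : Nm = (-1 + b r * ((r : ℂ) * X)) + (-(1 / ((r : ℂ) - 1)) + r * T2) := by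
    rw [hNm, hT12]
    field_simp
    ring
  have hinv : ‖(1 : ℂ) / ((r : ℂ) - 1)‖ ≤ 2 / (r : ℝ) := by
    have e : ((r : ℂ) - 1) = (((r : ℝ) - 1 : ℝ) : ℂ) := by push_cast; ring
    rw [norm_div, norm_one, e, Complex.norm_real, Real.norm_of_nonneg (by linarith),
      div_le_div_iff₀ (by linarith) hr0]
    linarith
  have h2r : 2 / (r : ℝ) ≤ 2 * (r : ℝ) ^ (-(1 / 2) : ℝ) := by
    rw [div_eq_mul_inv, ← Real.rpow_neg_one]
    exact mul_le_mul_of_nonneg_left (Real.rpow_le_rpow_of_exponent_le hr1 (by norm_num))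
      (by norm_num)
  have h78 : (r : ℝ) ^ (-(7 / 8) : ℝ) ≤ (r : ℝ) ^ (-(1 / 2) : ℝ) :=
    Real.rpow_le_rpow_of_exponent_le hr1 (by norm_num)
  have h116 : (1 : ℝ) ≤ (r : ℝ) ^ (1 / 16 : ℝ) := Real.one_le_rpow hr1 (by norm_num)
  have h781 : (r : ℝ) ^ (-(7 / 8) : ℝ) ≤ 1 := Real.rpow_le_one_of_one_le_of_nonpos hr1 (by norm_num)
  have hNmle : ‖Nm‖ ≤ (2 + 4 * A) * (r : ℝ) ^ (1 / 16 : ℝ) := by
    rw [hNm2]
    have e1 : ‖(r : ℂ) * T2‖ ≤ 3 * A * (r : ℝ) ^ (-(7 / 8) : ℝ) := by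
      rw [norm_mul, Complex.norm_natCast]
      exact hT2le
    have e2 : 2 / (r : ℝ) ≤ 1 := by
      rw [div_le_one hr0]
      exact hr2
    have e3 : 3 * A * (r : ℝ) ^ (-(7 / 8) : ℝ) ≤ 3 * A := by nlinarith
    calc ‖(-1 + b r * ((r : ℂ) * X)) + (-(1 / ((r : ℂ) - 1)) + r * T2)‖
        ≤ ‖(-1 + b r * ((r : ℂ) * X))‖ + ‖(-(1 / ((r : ℂ) - 1)) + r * T2)‖ := norm_add_le _ _
      _ ≤ (‖(-1 : ℂ)‖ + ‖b r * ((r : ℂ) * X)‖) + (‖-(1 / ((r : ℂ) - 1))‖ + ‖(r : ℂ) * T2‖) :=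
          add_le_add (norm_add_le _ _) (norm_add_le _ _)
      _ ≤ (1 + A * (r : ℝ) ^ (1 / 16 : ℝ)) + (1 + 3 * A) := by
          rw [norm_neg, norm_neg, norm_one]
          have := hinv.trans e2
          linarith
      _ ≤ _ := by nlinarith
  have hdiff : (r : ℂ) * Lam b r 1 X - (-1 + b r * ((r : ℂ) * X)) =
      (-(1 / ((r : ℂ) - 1)) + r * T2) - Nm * T1 / FL b r X := by
    rw [hLam]
    have e : Nm / FL b r X = Nm - Nm * T1 / FL b r X := by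
      field_simp
      rw [hFL]
      ring
    rw [e]
    linear_combination hNm2
  rw [hdiff]
  have e1 : ‖(r : ℂ) * T2‖ ≤ 3 * A * (r : ℝ) ^ (-(1 / 2) : ℝ) := by
    rw [norm_mul, Complex.norm_natCast]
    exact hT2le.trans (mul_le_mul_of_nonneg_left h78 (by positivity))
  have e2 : ‖Nm * T1 / FL b r X‖ ≤ (2 + 4 * A) * (3 * A) / m * (r : ℝ) ^ (-(1 / 2) : ℝ) := by
    rw [norm_div, norm_mul]
    have h5 : (r : ℝ) ^ (1 / 16 : ℝ) * (r : ℝ) ^ (-(15 / 16) : ℝ) = (r : ℝ) ^ (-(7 / 8) : ℝ) := by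
      rw [← Real.rpow_add hr0]
      norm_num
    calc ‖Nm‖ * ‖T1‖ / ‖FL b r X‖
        ≤ ((2 + 4 * A) * (r : ℝ) ^ (1 / 16 : ℝ)) * (3 * A * (r : ℝ) ^ (-(15 / 16) : ℝ)) / m := by
          refine div_le_div₀ (by positivity) (mul_le_mul hNmle hT1le (norm_nonneg _)
            (by positivity)) hm hFLm
      _ = (2 + 4 * A) * (3 * A) / m * ((r : ℝ) ^ (1 / 16 : ℝ) * (r : ℝ) ^ (-(15 / 16) : ℝ)) := by
          ring
      _ ≤ (2 + 4 * A) * (3 * A) / m * (r : ℝ) ^ (-(1 / 2) : ℝ) := by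
          rw [h5]
          exact mul_le_mul_of_nonneg_left h78 (by positivity)
  calc ‖(-(1 / ((r : ℂ) - 1)) + r * T2) - Nm * T1 / FL b r X‖
      ≤ (‖-(1 / ((r : ℂ) - 1))‖ + ‖(r : ℂ) * T2‖) + ‖Nm * T1 / FL b r X‖ :=
        (norm_sub_le _ _).trans (add_le_add_left (norm_add_le _ _) _)
    _ ≤ (2 * (r : ℝ) ^ (-(1 / 2) : ℝ) + 3 * A * (r : ℝ) ^ (-(1 / 2) : ℝ)) +
        (2 + 4 * A) * (3 * A) / m * (r : ℝ) ^ (-(1 / 2) : ℝ) := by
        rw [norm_neg]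
        exact add_le_add (add_le_add (hinv.trans h2r) e1) e2
    _ = _ := by ring

end Pool.Agent.H11.PE
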