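import Mathlib
import Pool.Agent.H11.PE.Defs
import Pool.Agent.H78.PB.Defs
import Pool.Agent.H11.PE.LAMC

/-!
# ROT (copy for PD0): the relations for one and two primes

For a prime `r ∤ P` put `ρ = r^(-(1-θI))` (`‖ρ‖ = 1/r`, `r ρ = r^(θI)`), `B = Bv b θ r = b r * (r ρ)` and, for `χ` modulo `N`
(`‖χ r‖ = 1` as `r ∤ N`), `E_χ = r * Fac b θ χ r 1 - (B - (χ r)⁻¹)`.  `Lam_one V.pd` with `X = χ(r) ρ`:
`r Lam b r 1 X = -1 + b r * (r * X) + O(r^(-1/2))`, multiplied by `(χ r)⁻¹` (norm 1): `‖E_χ‖ ≤ C r^(-1/2)`.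
`r_one`: `V.val [(r,1)]`: `∑ cf χ Fac = r^(-1+2θI) D(r)`; times `r`: `r^(2θI) D(r) = ∑ cf χ (B - (χ r)⁻¹ + E_χ) =
B - cu x + ∑ cf χ E_χ` (`V.sum`), `Du N D x = D (r)`, `cu c cf x = ∑ cf χ (χ r)⁻¹` (`map_natCast`).
`r_two`: `V.val [(r1,1),(r2,1)]`: `∑ cf χ Fac1 Fac2 = (r1 r2)^(-1+2θI) D(r1 r2)`; times `r1 r2`:
`r1^(2θI) r2^(2θI) D(r1 r2) = ∑ cf χ (B1 - (χ r1)⁻¹ + E1)(B2 - (χ r2)⁻¹ + E2)`; `‖B_i‖ ≤ A` by `r_one`
(`‖cu‖, ‖Du‖` are bounded: finite type), so up to `C (r1^(-1/2) + r2^(-1/2))` this is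
`∑ cf χ (B1 - (χ r1)⁻¹)(B2 - (χ r2)⁻¹) = B1 B2 - B1 cu y - B2 cu x + cu (x y) = (B1 - cu x)(B2 - cu y) - cu x cu y + cu (x y)`,
and `B1 - cu x = r1^(2θI) Du x + O(r1^(-1/2))`, the same for `B2` (`r_one`; all factors are bounded).
-/

set_option autoImplicit false

namespace Pool.Agent.H11.PE

open Complex Filter Topology Pool.Agent.H11.PC Pool.Agent.H11.PB Pool.Agent.H78.PB

private theorem rot_chi {N c P : ℕ} [NeZero N] (hP : N * c ∣ P) {r : ℕ} (hr : r.Prime)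
    (hrP : ¬ r ∣ P) (χ : DirichletCharacter ℂ N) :
    ‖χ (r : ZMod N)‖ = 1 ∧ χ (r : ZMod N) ≠ 0 := by
  have hc : Nat.Coprime r N := (Nat.Prime.coprime_iff_not_dvd hr).2 fun h =>
    hrP ((h.mul_right c).trans hP)
  have h1 : ‖χ (r : ZMod N)‖ = 1 := by
    rw [← ZMod.coe_unitOfCoprime r hc]
    exact χ.unit_norm_eq_one _
  refine ⟨h1, fun h0 => ?_⟩
  rw [h0, norm_zero] at h1
  exact zero_ne_one h1

private theorem rot_rho (θ : ℝ) {r : ℕ} (hr : r.Prime) :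
    ‖(r : ℂ) ^ (-(1 - θ * I : ℂ))‖ = 1 / (r : ℝ) ∧
      (r : ℂ) * (r : ℂ) ^ (-(1 - θ * I : ℂ)) = (r : ℂ) ^ (θ * I : ℂ) := by
  have hr0 : (r : ℂ) ≠ 0 := by exact_mod_cast hr.ne_zero
  constructor
  · rw [norm_natCast_cpow_of_pos hr.pos]
    have : (-(1 - θ * I : ℂ)).re = -1 := by simp
    rw [this, Real.rpow_neg_one, one_div]
  · have e : (θ * I : ℂ) = 1 + -(1 - θ * I : ℂ) := by ring
    rw [e, cpow_add _ _ hr0, cpow_one]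
    congr 2
    ring

private theorem rot_half {r : ℕ} (hr : r.Prime) :
    0 ≤ (r : ℝ) ^ (-(1 / 2) : ℝ) ∧ (r : ℝ) ^ (-(1 / 2) : ℝ) ≤ 1 := by
  have hr1 : (1 : ℝ) ≤ r := by exact_mod_cast hr.one_le
  exact ⟨by positivity, Real.rpow_le_one_of_one_le_of_nonpos hr1 (by norm_num)⟩

/-- the factor of one prime -/
theorem fac_one {b : ℕ → ℂ} {θ : ℝ} {N c P : ℕ} [NeZero N] {cf : DirichletCharacter ℂ N → ℂ}
    {D : ZMod c → ℂ} (V : VD0 b θ N c P cf D) : ∃ C : ℝ, 0 ≤ C ∧ ∀ r : ℕ, r.Prime → ¬ r ∣ P →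
      ∀ χ : DirichletCharacter ℂ N,
        ‖(r : ℂ) * Fac b θ χ r 1 - (Bv b θ r - (χ (r : ZMod N))⁻¹)‖ ≤ C * (r : ℝ) ^ (-(1 / 2) : ℝ) := by
  obtain ⟨C, hC0, hC⟩ := Lam_one V.pd
  refine ⟨C, hC0, fun r hr hrP χ => ?_⟩
  obtain ⟨hn, h0⟩ := rot_chi V.dvd hr hrP χ
  obtain ⟨h1, h2⟩ := rot_rho θ hr
  obtain ⟨ρ, hρ⟩ : ∃ ρ : ℂ, ρ = (r : ℂ) ^ (-(1 - θ * I : ℂ)) := ⟨_, rfl⟩
  rw [← hρ] at h1 h2
  have h3 := hC r hr (χ (r : ZMod N) * ρ) (by rw [norm_mul, hn, one_mul, h1])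
  have e : (r : ℂ) * Fac b θ χ r 1 - (Bv b θ r - (χ (r : ZMod N))⁻¹) = (χ (r : ZMod N))⁻¹ *
      ((r : ℂ) * Lam b r 1 (χ (r : ZMod N) * ρ) -
        (-1 + b r * ((r : ℂ) * (χ (r : ZMod N) * ρ)))) := by
    unfold Fac Bv
    rw [← h2, ← hρ, pow_one]
    have e1 : (χ (r : ZMod N))⁻¹ * χ (r : ZMod N) = 1 := inv_mul_cancel₀ h0
    linear_combination (b r * r * ρ) * e1
  rw [e, norm_mul, norm_inv, hn, inv_one, one_mul]
  exact h3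

private theorem rot_cu {N c : ℕ} [NeZero N] (cf : DirichletCharacter ℂ N → ℂ) (r : ℕ)
    (x : (ZMod (N * c))ˣ) (hx : (x : ZMod (N * c)) = (r : ZMod (N * c))) :
    cu c cf x = ∑ χ : DirichletCharacter ℂ N, cf χ * (χ (r : ZMod N))⁻¹ := by
  unfold cu
  rw [hx, map_natCast]

private theorem rot_Du {N c : ℕ} (D : ZMod c → ℂ) (r : ℕ)
    (x : (ZMod (N * c))ˣ) (hx : (x : ZMod (N * c)) = (r : ZMod (N * c))) :
    Du N D x = D (r : ZMod c) := by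
  unfold Du
  rw [hx, map_natCast]

theorem r_one {b : ℕ → ℂ} {θ : ℝ} {N c P : ℕ} [NeZero N] {cf : DirichletCharacter ℂ N → ℂ}
    {D : ZMod c → ℂ} (V : VD0 b θ N c P cf D) : ∃ C : ℝ, 0 ≤ C ∧ ∀ r : ℕ, r.Prime → ¬ r ∣ P →
      ∀ x : (ZMod (N * c))ˣ, (x : ZMod (N * c)) = (r : ZMod (N * c)) →
        ‖Bv b θ r - cu c cf x - (r : ℂ) ^ (2 * θ * I : ℂ) * Du N D x‖ ≤
          C * (r : ℝ) ^ (-(1 / 2) : ℝ) := by
  obtain ⟨C, hC0, hC⟩ := fac_one V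
  refine ⟨(∑ χ : DirichletCharacter ℂ N, ‖cf χ‖) * C,
    mul_nonneg (Finset.sum_nonneg fun _ _ => norm_nonneg _) hC0, fun r hr hrP x hx => ?_⟩
  have hr0 : (r : ℂ) ≠ 0 := by exact_mod_cast hr.ne_zero
  have h1 := V.val [(r, 1)] (by
    intro y hy
    rw [List.mem_singleton] at hy
    subst hy
    exact ⟨hr, hrP, le_rfl⟩) (by simp)
  simp only [List.map_cons, List.map_nil, List.prod_cons, List.prod_nil, mul_one, pow_one] at h1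
  have e1 : (r : ℂ) ^ (-1 + 2 * θ * I : ℂ) = (r : ℂ)⁻¹ * (r : ℂ) ^ (2 * θ * I : ℂ) := by
    rw [cpow_add _ _ hr0, cpow_neg_one]
  have e2 : (r : ℂ) ^ (2 * θ * I : ℂ) * Du N D x =
      ∑ χ : DirichletCharacter ℂ N, cf χ * ((r : ℂ) * Fac b θ χ r 1) := by
    have e3 : ∑ χ : DirichletCharacter ℂ N, cf χ * ((r : ℂ) * Fac b θ χ r 1) =
        (r : ℂ) * ∑ χ : DirichletCharacter ℂ N, cf χ * Fac b θ χ r 1 := by
      rw [Finset.mul_sum]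
      exact Finset.sum_congr rfl fun χ _ => by ring
    rw [e3, h1, e1, rot_Du D r x hx]
    field_simp
  have e4 : Bv b θ r - cu c cf x - (r : ℂ) ^ (2 * θ * I : ℂ) * Du N D x =
      -∑ χ : DirichletCharacter ℂ N, cf χ *
        ((r : ℂ) * Fac b θ χ r 1 - (Bv b θ r - (χ (r : ZMod N))⁻¹)) := by
    have e5 : ∑ χ : DirichletCharacter ℂ N, cf χ *
        ((r : ℂ) * Fac b θ χ r 1 - (Bv b θ r - (χ (r : ZMod N))⁻¹)) =
        ∑ χ : DirichletCharacter ℂ N, cf χ * ((r : ℂ) * Fac b θ χ r 1) -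
        ((∑ χ : DirichletCharacter ℂ N, cf χ) * Bv b θ r -
          ∑ χ : DirichletCharacter ℂ N, cf χ * (χ (r : ZMod N))⁻¹) := by
      rw [Finset.sum_mul, ← Finset.sum_sub_distrib, ← Finset.sum_sub_distrib]
      exact Finset.sum_congr rfl fun χ _ => by ring
    rw [e5, V.sum, ← e2, rot_cu cf r x hx]
    ring
  rw [e4, norm_neg, Finset.sum_mul, Finset.sum_mul]
  refine (norm_sum_le _ _).trans (Finset.sum_le_sum fun χ _ => ?_)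
  rw [norm_mul, mul_assoc]
  exact mul_le_mul_of_nonneg_left (hC r hr hrP χ) (norm_nonneg _)

private theorem rot_pow (θ : ℝ) {r : ℕ} (hr : r.Prime) : ‖(r : ℂ) ^ (2 * θ * I : ℂ)‖ = 1 := by
  rw [norm_natCast_cpow_of_pos hr.pos]
  have : (2 * θ * I : ℂ).re = 0 := by simp
  rw [this, Real.rpow_zero]

theorem r_two {b : ℕ → ℂ} {θ : ℝ} {N c P : ℕ} [NeZero N] {cf : DirichletCharacter ℂ N → ℂ}
    {D : ZMod c → ℂ} (V : VD0 b θ N c P cf D) : ∃ C : ℝ, 0 ≤ C ∧ ∀ r1 r2 : ℕ, r1.Prime → r2.Prime →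
      r1 ≠ r2 → ¬ r1 ∣ P → ¬ r2 ∣ P → ∀ x y : (ZMod (N * c))ˣ,
      (x : ZMod (N * c)) = (r1 : ZMod (N * c)) → (y : ZMod (N * c)) = (r2 : ZMod (N * c)) →
        ‖(r1 : ℂ) ^ (2 * θ * I : ℂ) * (r2 : ℂ) ^ (2 * θ * I : ℂ) *
            (Du N D (x * y) - Du N D x * Du N D y) - (cu c cf (x * y) - cu c cf x * cu c cf y)‖ ≤
          C * ((r1 : ℝ) ^ (-(1 / 2) : ℝ) + (r2 : ℝ) ^ (-(1 / 2) : ℝ)) := by
  obtain ⟨C1, hC10, hC1⟩ := fac_one V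
  obtain ⟨C2, hC20, hC2⟩ := r_one V
  have hNc : NeZero (N * c) := ⟨fun h => V.P0 (Nat.eq_zero_of_zero_dvd (h ▸ V.dvd))⟩
  obtain ⟨S, hS⟩ : ∃ S : ℝ, S = ∑ χ : DirichletCharacter ℂ N, ‖cf χ‖ := ⟨_, rfl⟩
  obtain ⟨A, hA0, hA⟩ : ∃ A : ℝ, 0 ≤ A ∧ ∀ x : (ZMod (N * c))ˣ, ‖cu c cf x‖ + ‖Du N D x‖ ≤ A := by
    refine ⟨∑ x : (ZMod (N * c))ˣ, (‖cu c cf x‖ + ‖Du N D x‖),
      Finset.sum_nonneg fun _ _ => by positivity, fun x => ?_⟩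
    exact Finset.single_le_sum (f := fun x : (ZMod (N * c))ˣ => ‖cu c cf x‖ + ‖Du N D x‖)
      (fun _ _ => by positivity) (Finset.mem_univ x)
  have hS0 : 0 ≤ S := by
    rw [hS]
    exact Finset.sum_nonneg fun _ _ => norm_nonneg _
  refine ⟨S * (C1 * (A + C2 + 1 + C1)) + (A + C2) * C2, by positivity,
    fun r1 r2 hr1 hr2 hne hP1 hP2 x y hx hy => ?_⟩
  have h10 : (r1 : ℂ) ≠ 0 := by exact_mod_cast hr1.ne_zero
  have h20 : (r2 : ℂ) ≠ 0 := by exact_mod_cast hr2.ne_zero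
  have hval := V.val [(r1, 1), (r2, 1)] (by
    intro y hy
    rw [List.mem_cons, List.mem_singleton] at hy
    rcases hy with rfl | rfl
    · exact ⟨hr1, hP1, le_rfl⟩
    · exact ⟨hr2, hP2, le_rfl⟩) (by simp [hne])
  simp only [List.map_cons, List.map_nil, List.prod_cons, List.prod_nil, mul_one, pow_one] at hval
  obtain ⟨ζ1, hζ1⟩ : ∃ ζ1 : ℂ, ζ1 = (r1 : ℂ) ^ (2 * θ * I : ℂ) := ⟨_, rfl⟩
  obtain ⟨ζ2, hζ2⟩ : ∃ ζ2 : ℂ, ζ2 = (r2 : ℂ) ^ (2 * θ * I : ℂ) := ⟨_, rfl⟩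
  have nζ1 : ‖ζ1‖ = 1 := by rw [hζ1]; exact rot_pow θ hr1
  have nζ2 : ‖ζ2‖ = 1 := by rw [hζ2]; exact rot_pow θ hr2
  have hxy : ((x * y : (ZMod (N * c))ˣ) : ZMod (N * c)) = ((r1 * r2 : ℕ) : ZMod (N * c)) := by
    rw [Units.val_mul, hx, hy]
    push_cast
    ring
  have e1 : ((r1 * r2 : ℕ) : ℂ) ^ (-1 + 2 * θ * I : ℂ) = (r1 : ℂ)⁻¹ * (r2 : ℂ)⁻¹ * (ζ1 * ζ2) := by
    rw [Nat.cast_mul, natCast_mul_natCast_cpow, cpow_add _ _ h10, cpow_add _ _ h20,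
      cpow_neg_one, cpow_neg_one, ← hζ1, ← hζ2]
    ring
  rw [e1, ← rot_Du D (r1 * r2) (x * y) hxy] at hval
  obtain ⟨ε1, hε1⟩ : ∃ ε1 : ℝ, ε1 = (r1 : ℝ) ^ (-(1 / 2) : ℝ) := ⟨_, rfl⟩
  obtain ⟨ε2, hε2⟩ : ∃ ε2 : ℝ, ε2 = (r2 : ℝ) ^ (-(1 / 2) : ℝ) := ⟨_, rfl⟩
  have hε10 := rot_half hr1
  have hε20 := rot_half hr2
  rw [← hε1] at hε10
  rw [← hε2] at hε20
  obtain ⟨B1, hB1⟩ : ∃ B1 : ℂ, B1 = Bv b θ r1 := ⟨_, rfl⟩
  obtain ⟨B2, hB2⟩ : ∃ B2 : ℂ, B2 = Bv b θ r2 := ⟨_, rfl⟩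
  have hR1 := hC2 r1 hr1 hP1 x hx
  have hR2 := hC2 r2 hr2 hP2 y hy
  have hF1 := hC1 r1 hr1 hP1
  have hF2 := hC1 r2 hr2 hP2
  rw [← hζ1, ← hB1, ← hε1] at hR1
  rw [← hζ2, ← hB2, ← hε2] at hR2
  rw [← hB1, ← hε1] at hF1
  rw [← hB2, ← hε2] at hF2
  rw [← hζ1, ← hζ2, ← hε1, ← hε2]
  -- the bound of `B1 - cu x`
  have hBc : ‖B1 - cu c cf x‖ ≤ A + C2 := by
    have e : B1 - cu c cf x = (B1 - cu c cf x - ζ1 * Du N D x) + ζ1 * Du N D x := by ring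
    rw [e]
    refine (norm_add_le _ _).trans ?_
    rw [norm_mul, nζ1, one_mul]
    have h1 := hA x
    have h2 := norm_nonneg (cu c cf x)
    nlinarith [hε10.2, hε10.1]
  have hB1n : ‖B1‖ ≤ A + C2 := by
    have e : B1 = (B1 - cu c cf x - ζ1 * Du N D x) + (cu c cf x + ζ1 * Du N D x) := by ring
    rw [e]
    refine (norm_add_le _ _).trans ?_
    have h1 := hA x
    have h2 : ‖cu c cf x + ζ1 * Du N D x‖ ≤ ‖cu c cf x‖ + ‖Du N D x‖ := by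
      refine (norm_add_le _ _).trans ?_
      rw [norm_mul, nζ1, one_mul]
    nlinarith [hε10.2, hε10.1]
  have hB2n : ‖B2‖ ≤ A + C2 := by
    have e : B2 = (B2 - cu c cf y - ζ2 * Du N D y) + (cu c cf y + ζ2 * Du N D y) := by ring
    rw [e]
    refine (norm_add_le _ _).trans ?_
    have h1 := hA y
    have h2 : ‖cu c cf y + ζ2 * Du N D y‖ ≤ ‖cu c cf y‖ + ‖Du N D y‖ := by
      refine (norm_add_le _ _).trans ?_
      rw [norm_mul, nζ2, one_mul]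
    nlinarith [hε20.2, hε20.1]
  -- the product of the two factors
  obtain ⟨E, hE⟩ : ∃ E : DirichletCharacter ℂ N → ℂ, E = fun χ =>
    ((r1 : ℂ) * Fac b θ χ r1 1) * ((r2 : ℂ) * Fac b θ χ r2 1) -
      (B1 - (χ (r1 : ZMod N))⁻¹) * (B2 - (χ (r2 : ZMod N))⁻¹) := ⟨_, rfl⟩
  have hEle : ∀ χ, ‖E χ‖ ≤ C1 * (A + C2 + 1 + C1) * (ε1 + ε2) := by
    intro χ
    have n1 := (rot_chi V.dvd hr1 hP1 χ).1
    have n2 := (rot_chi V.dvd hr2 hP2 χ).1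
    have g1 : ‖B1 - (χ (r1 : ZMod N))⁻¹‖ ≤ A + C2 + 1 := by
      refine (norm_sub_le _ _).trans ?_
      rw [norm_inv, n1, inv_one]
      linarith
    have g2 : ‖(r2 : ℂ) * Fac b θ χ r2 1‖ ≤ A + C2 + 1 + C1 := by
      have e : (r2 : ℂ) * Fac b θ χ r2 1 = ((r2 : ℂ) * Fac b θ χ r2 1 -
        (B2 - (χ (r2 : ZMod N))⁻¹)) + (B2 - (χ (r2 : ZMod N))⁻¹) := by ring
      rw [e]
      refine (norm_add_le _ _).trans ?_
      have g3 : ‖B2 - (χ (r2 : ZMod N))⁻¹‖ ≤ A + C2 + 1 := by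
        refine (norm_sub_le _ _).trans ?_
        rw [norm_inv, n2, inv_one]
        linarith
      have g4 := hF2 χ
      nlinarith [hε20.2, hε20.1]
    have e : E χ = ((r1 : ℂ) * Fac b θ χ r1 1 - (B1 - (χ (r1 : ZMod N))⁻¹)) *
        ((r2 : ℂ) * Fac b θ χ r2 1) + (B1 - (χ (r1 : ZMod N))⁻¹) *
        ((r2 : ℂ) * Fac b θ χ r2 1 - (B2 - (χ (r2 : ZMod N))⁻¹)) := by
      rw [hE]
      ring
    rw [e]
    refine (norm_add_le _ _).trans ?_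
    refine (add_le_add (norm_mul_le _ _) (norm_mul_le _ _)).trans ?_
    have k1 : ‖(r1 : ℂ) * Fac b θ χ r1 1 - (B1 - (χ (r1 : ZMod N))⁻¹)‖ *
        ‖(r2 : ℂ) * Fac b θ χ r2 1‖ ≤ (C1 * ε1) * (A + C2 + 1 + C1) :=
      mul_le_mul (hF1 χ) g2 (norm_nonneg _) (mul_nonneg hC10 hε10.1)
    have k2 : ‖B1 - (χ (r1 : ZMod N))⁻¹‖ *
        ‖(r2 : ℂ) * Fac b θ χ r2 1 - (B2 - (χ (r2 : ZMod N))⁻¹)‖ ≤ (A + C2 + 1) * (C1 * ε2) :=
      mul_le_mul g1 (hF2 χ) (norm_nonneg _) (by positivity)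
    have k3 : 0 ≤ C1 * (C1 * ε2) := mul_nonneg hC10 (mul_nonneg hC10 hε20.1)
    nlinarith
  have hsumE : ‖∑ χ : DirichletCharacter ℂ N, cf χ * E χ‖ ≤
      S * (C1 * (A + C2 + 1 + C1)) * (ε1 + ε2) := by
    rw [hS, Finset.sum_mul, Finset.sum_mul]
    refine (norm_sum_le _ _).trans (Finset.sum_le_sum fun χ _ => ?_)
    rw [norm_mul, mul_assoc]
    exact mul_le_mul_of_nonneg_left (hEle χ) (norm_nonneg _)
  have hid : ζ1 * ζ2 * Du N D (x * y) = ∑ χ : DirichletCharacter ℂ N, cf χ * E χ +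
      (B1 * B2 - B1 * cu c cf y - B2 * cu c cf x + cu c cf (x * y)) := by
    have e2 : ζ1 * ζ2 * Du N D (x * y) = ∑ χ : DirichletCharacter ℂ N, cf χ *
        (((r1 : ℂ) * Fac b θ χ r1 1) * ((r2 : ℂ) * Fac b θ χ r2 1)) := by
      have e3 : ∑ χ : DirichletCharacter ℂ N, cf χ *
          (((r1 : ℂ) * Fac b θ χ r1 1) * ((r2 : ℂ) * Fac b θ χ r2 1)) =
          ((r1 : ℂ) * r2) * ∑ χ : DirichletCharacter ℂ N, cf χ *
            (Fac b θ χ r1 1 * Fac b θ χ r2 1) := by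
        rw [Finset.mul_sum]
        exact Finset.sum_congr rfl fun χ _ => by ring
      rw [e3, hval]
      field_simp
    have e4 : ∀ χ : DirichletCharacter ℂ N, cf χ *
        (((r1 : ℂ) * Fac b θ χ r1 1) * ((r2 : ℂ) * Fac b θ χ r2 1)) = cf χ * E χ +
        (cf χ * (B1 * B2) - B1 * (cf χ * (χ (r2 : ZMod N))⁻¹) -
          B2 * (cf χ * (χ (r1 : ZMod N))⁻¹) +
          cf χ * (χ ((r1 * r2 : ℕ) : ZMod N))⁻¹) := by
      intro χ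
      rw [hE, Nat.cast_mul, map_mul, mul_inv]
      ring
    rw [e2, Finset.sum_congr rfl fun χ _ => e4 χ, Finset.sum_add_distrib, Finset.sum_add_distrib,
      Finset.sum_sub_distrib, Finset.sum_sub_distrib, ← Finset.sum_mul, ← Finset.mul_sum,
      ← Finset.mul_sum, V.sum, rot_cu cf r1 x hx, rot_cu cf r2 y hy,
      rot_cu cf (r1 * r2) (x * y) hxy]
    ring
  have hfin : ζ1 * ζ2 * (Du N D (x * y) - Du N D x * Du N D y) -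
      (cu c cf (x * y) - cu c cf x * cu c cf y) = ∑ χ : DirichletCharacter ℂ N, cf χ * E χ +
      ((B1 - cu c cf x) * (B2 - cu c cf y - ζ2 * Du N D y) +
        (B1 - cu c cf x - ζ1 * Du N D x) * (ζ2 * Du N D y)) := by
    linear_combination hid
  rw [hfin]
  refine (norm_add_le _ _).trans ?_
  have k1 : ‖(B1 - cu c cf x) * (B2 - cu c cf y - ζ2 * Du N D y) +
        (B1 - cu c cf x - ζ1 * Du N D x) * (ζ2 * Du N D y)‖ ≤ (A + C2) * C2 * (ε1 + ε2) := by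
    refine (norm_add_le _ _).trans ?_
    rw [norm_mul, norm_mul, norm_mul, nζ2, one_mul]
    have j1 : ‖B1 - cu c cf x‖ * ‖B2 - cu c cf y - ζ2 * Du N D y‖ ≤ (A + C2) * (C2 * ε2) :=
      mul_le_mul hBc hR2 (norm_nonneg _) (by positivity)
    have j2 : ‖Du N D y‖ ≤ A + C2 := by
      have := hA y
      have h2 := norm_nonneg (cu c cf y)
      linarith
    have j3 : ‖B1 - cu c cf x - ζ1 * Du N D x‖ * ‖Du N D y‖ ≤ (C2 * ε1) * (A + C2) :=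
      mul_le_mul hR1 j2 (norm_nonneg _) (mul_nonneg hC20 hε10.1)
    nlinarith
  nlinarith [hsumE, k1]

end Pool.Agent.H11.PE
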