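import Mathlib
import Pool.Agent.H11.PE.Defs
import Pool.Agent.H78.PB.Defs
import Pool.Agent.H11.PE.ROT

/-!
# RZE (copy for PD0): the relations for three primes, and for one prime and a prime power (`θ = 0`)

`θ = 0`, so `r^(2θI) = 1`, `m^(-1+2θI) = m⁻¹`.  By Dirichlet's theorem (`Nat.forall_exists_prime_gt_and_eq_mod`) there is for
every unit `x` modulo `N c` a sequence of primes `r(n) > n` (so `r(n) → ∞`, and `r(n) ∤ P` for `n ≥ P`) with
`r(n) = x` in `ZMod (N c)`; by `r_one` `B(r(n)) → cu x + Du x =: β x`, and by `fac_one` `r(n) Fac b 0 χ (r n) 1 → β x - (χ x)⁻¹`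
(here `χ x = χ (castHom x)`, as in the definition of `cu`).
`r_mix`: `V.val [(r0, 1), (r, k)]` for `r0 = r0(n)` (`≠ r` for large `n`), times `r0`:
`(r^k)⁻¹ Du (x y^k) = ∑ cf χ (r0 Fac b 0 χ r0 1) Fac b 0 χ r k`, and let `n → ∞` (the left side is constant).
`r_three`: `V.val [(r1,1),(r2,1),(r3,1)]` times `r1 r2 r3`, choosing `r1(n) > n`, `r2(n) > r1(n)`, `r3(n) > r2(n)`; the limit is
`Du (x y z) = ∑ cf χ (β x - (χ x)⁻¹)(β y - (χ y)⁻¹)(β z - (χ z)⁻¹)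
 = β x β y β z - β x β y cu z - β x β z cu y - β y β z cu x + β x cu (y z) + β y cu (x z) + β z cu (x y) - cu (x y z)`
(`V.sum`, definition of `cu`).  With `Du = cu`, `β = 2 cu`, this is
`2 cu (x y z) = 8 ccc - 12 ccc + 2 (...)`, i.e. the claim.
-/

set_option autoImplicit false

namespace Pool.Agent.H11.PE

open Complex Filter Topology Pool.Agent.H11.PC Pool.Agent.H11.PB Pool.Agent.H78.PB

private theorem rze_seq (M P : ℕ) [NeZero M] (hP : P ≠ 0) (x : (ZMod M)ˣ) (n : ℕ) :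
    ∃ p : ℕ, n < p ∧ p.Prime ∧ ¬ p ∣ P ∧ (x : ZMod M) = (p : ZMod M) := by
  obtain ⟨p, hp, hpp, hpx⟩ := Nat.forall_exists_prime_gt_and_eq_mod (Units.isUnit x) (n + P)
  refine ⟨p, by omega, hpp, ?_, hpx.symm⟩
  intro hd
  have := Nat.le_of_dvd (Nat.pos_of_ne_zero hP) hd
  omega

private theorem rze_lim {b : ℕ → ℂ} {N c P : ℕ} [NeZero N] {cf : DirichletCharacter ℂ N → ℂ}
    {D : ZMod c → ℂ} (V : VD0 b 0 N c P cf D) (x : (ZMod (N * c))ˣ) (ρ : ℕ → ℕ)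
    (hρ : ∀ n, n < ρ n) (hp : ∀ n, (ρ n).Prime) (hP : ∀ n, ¬ ρ n ∣ P)
    (hx : ∀ n, (x : ZMod (N * c)) = (ρ n : ZMod (N * c))) (χ : DirichletCharacter ℂ N) :
    Tendsto (fun n => (ρ n : ℂ) * Fac b 0 χ (ρ n) 1) atTop (𝓝 (cu c cf x + Du N D x -
      (χ (ZMod.castHom (dvd_mul_right N c) (ZMod N) (x : ZMod (N * c))))⁻¹)) := by
  obtain ⟨C1, hC1, h1⟩ := fac_one V
  obtain ⟨C2, hC2, h2⟩ := r_one V
  have hlim : Tendsto (fun n : ℕ => ((ρ n : ℕ) : ℝ) ^ (-(1 / 2) : ℝ)) atTop (𝓝 0) := by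
    have h3 : Tendsto (fun n : ℕ => ((ρ n : ℕ) : ℝ)) atTop atTop := by
      refine tendsto_atTop_mono (fun n => ?_) tendsto_natCast_atTop_atTop
      exact_mod_cast (hρ n).le
    exact (tendsto_rpow_neg_atTop (by norm_num : (0 : ℝ) < 1 / 2)).comp h3
  rw [tendsto_iff_norm_sub_tendsto_zero]
  have h4 : Tendsto (fun n : ℕ => (C1 + C2) * ((ρ n : ℕ) : ℝ) ^ (-(1 / 2) : ℝ)) atTop (𝓝 0) := by
    have := hlim.const_mul (C1 + C2)
    rwa [mul_zero] at this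
  refine squeeze_zero (fun n => norm_nonneg _) (fun n => ?_) h4
  have e1 := h1 (ρ n) (hp n) (hP n) χ
  have e2 := h2 (ρ n) (hp n) (hP n) x (hx n)
  have e3 : χ (ZMod.castHom (dvd_mul_right N c) (ZMod N) (x : ZMod (N * c))) =
      χ (ρ n : ZMod N) := by
    rw [hx n, map_natCast]
  have e4 : ((ρ n : ℕ) : ℂ) ^ (2 * ((0 : ℝ) : ℂ) * I : ℂ) = 1 := by simp
  rw [e4, one_mul] at e2
  rw [e3]
  have e5 : (ρ n : ℂ) * Fac b 0 χ (ρ n) 1 - (cu c cf x + Du N D x - (χ (ρ n : ZMod N))⁻¹) =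
      ((ρ n : ℂ) * Fac b 0 χ (ρ n) 1 - (Bv b 0 (ρ n) - (χ (ρ n : ZMod N))⁻¹)) +
      (Bv b 0 (ρ n) - cu c cf x - Du N D x) := by ring
  rw [e5, add_mul]
  exact (norm_add_le _ _).trans (add_le_add e1 e2)

theorem r_mix {b : ℕ → ℂ} {N c P : ℕ} [NeZero N] {cf : DirichletCharacter ℂ N → ℂ}
    {D : ZMod c → ℂ} (V : VD0 b 0 N c P cf D) (r : ℕ) (hr : r.Prime) (hrP : ¬ r ∣ P) (k : ℕ)
    (hk : 1 ≤ k) (x y : (ZMod (N * c))ˣ) (hy : (y : ZMod (N * c)) = (r : ZMod (N * c))) :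
    (1 / (r : ℂ)) ^ k * Du N D (x * y ^ k) = ∑ χ : DirichletCharacter ℂ N,
      cf χ * (cu c cf x + Du N D x -
        (χ (ZMod.castHom (dvd_mul_right N c) (ZMod N) (x : ZMod (N * c))))⁻¹) * Fac b 0 χ r k := by
  have hNc : NeZero (N * c) := ⟨fun h => V.P0 (Nat.eq_zero_of_zero_dvd (h ▸ V.dvd))⟩
  choose ρ hρ using fun n : ℕ => rze_seq (N * c) P V.P0 x (n + r)
  have hlim : Tendsto (fun n => ∑ χ : DirichletCharacter ℂ N,
      cf χ * ((ρ n : ℂ) * Fac b 0 χ (ρ n) 1) * Fac b 0 χ r k) atTop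
      (𝓝 (∑ χ : DirichletCharacter ℂ N, cf χ * (cu c cf x + Du N D x -
        (χ (ZMod.castHom (dvd_mul_right N c) (ZMod N) (x : ZMod (N * c))))⁻¹) *
          Fac b 0 χ r k)) := by
    refine tendsto_finsetSum _ fun χ _ => ?_
    exact ((rze_lim V x ρ (fun n => lt_of_le_of_lt (Nat.le_add_right n r) (hρ n).1)
      (fun n => (hρ n).2.1) (fun n => (hρ n).2.2.1) (fun n => (hρ n).2.2.2) χ).const_mul
        (cf χ)).mul_const _
  refine tendsto_nhds_unique ?_ hlim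
  refine tendsto_const_nhds.congr fun n => ?_
  obtain ⟨h1, h2, h3, h4⟩ := hρ n
  have hr0 : ((ρ n : ℕ) : ℂ) ≠ 0 := by exact_mod_cast h2.ne_zero
  have hval := V.val [(ρ n, 1), (r, k)] (by
    intro z hz
    rw [List.mem_cons, List.mem_singleton] at hz
    rcases hz with rfl | rfl
    · exact ⟨h2, h3, le_rfl⟩
    · exact ⟨hr, hrP, hk⟩) (by
      simp only [List.map_cons, List.map_nil, List.nodup_cons, List.mem_cons, List.not_mem_nil,
        or_false, List.nodup_nil, not_false_eq_true, and_true, and_self]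
      omega)
  simp only [List.map_cons, List.map_nil, List.prod_cons, List.prod_nil, mul_one, pow_one] at hval
  have e1 : ((ρ n * r ^ k : ℕ) : ℂ) ^ (-1 + 2 * ((0 : ℝ) : ℂ) * I : ℂ) =
      ((ρ n : ℕ) : ℂ)⁻¹ * (1 / (r : ℂ)) ^ k := by
    rw [Complex.ofReal_zero, mul_zero, zero_mul, add_zero, cpow_neg_one]
    push_cast
    rw [mul_inv, one_div, inv_pow]
  have e2 : D ((ρ n * r ^ k : ℕ) : ZMod c) = Du N D (x * y ^ k) := by
    unfold Du
    rw [Units.val_mul, Units.val_pow_eq_pow_val, h4, hy, map_mul, map_pow, map_natCast,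
      map_natCast]
    push_cast
    rfl
  rw [e1, e2] at hval
  have e3 : ∑ χ : DirichletCharacter ℂ N, cf χ * ((ρ n : ℂ) * Fac b 0 χ (ρ n) 1) * Fac b 0 χ r k =
      (ρ n : ℂ) * ∑ χ : DirichletCharacter ℂ N, cf χ * (Fac b 0 χ (ρ n) 1 * Fac b 0 χ r k) := by
    rw [Finset.mul_sum]
    exact Finset.sum_congr rfl fun χ _ => by ring
  rw [e3, hval]
  field_simp

theorem r_three {b : ℕ → ℂ} {N c P : ℕ} [NeZero N] {cf : DirichletCharacter ℂ N → ℂ}
    {D : ZMod c → ℂ} (V : VD0 b 0 N c P cf D) (hcD : ∀ x, cu c cf x = Du N D x)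
    (x y z : (ZMod (N * c))ˣ) :
    cu c cf (x * y * z) = -2 * cu c cf x * cu c cf y * cu c cf z + cu c cf x * cu c cf (y * z) +
      cu c cf y * cu c cf (x * z) + cu c cf z * cu c cf (x * y) := by
  have hNc : NeZero (N * c) := ⟨fun h => V.P0 (Nat.eq_zero_of_zero_dvd (h ▸ V.dvd))⟩
  choose r1 hr1 using fun n : ℕ => rze_seq (N * c) P V.P0 x n
  choose r2 hr2 using fun n : ℕ => rze_seq (N * c) P V.P0 y (r1 n)
  choose r3 hr3 using fun n : ℕ => rze_seq (N * c) P V.P0 z (r2 n)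
  have g1 : ∀ n, n < r1 n := fun n => (hr1 n).1
  have g2 : ∀ n, n < r2 n := fun n => (g1 n).trans (hr2 n).1
  have g3 : ∀ n, n < r3 n := fun n => (g2 n).trans (hr3 n).1
  set K : (ZMod (N * c))ˣ → DirichletCharacter ℂ N → ℂ := fun u χ =>
    (χ (ZMod.castHom (dvd_mul_right N c) (ZMod N) (u : ZMod (N * c))))⁻¹ with hK
  have hKm : ∀ u v χ, K (u * v) χ = K u χ * K v χ := by
    intro u v χ
    simp only [hK]
    rw [Units.val_mul, map_mul, map_mul, mul_inv]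
  have hcu : ∀ u, cu c cf u = ∑ χ : DirichletCharacter ℂ N, cf χ * K u χ := fun u => rfl
  have hlim : Tendsto (fun n => ∑ χ : DirichletCharacter ℂ N,
      cf χ * (((r1 n : ℂ) * Fac b 0 χ (r1 n) 1) * ((r2 n : ℂ) * Fac b 0 χ (r2 n) 1) *
        ((r3 n : ℂ) * Fac b 0 χ (r3 n) 1))) atTop
      (𝓝 (∑ χ : DirichletCharacter ℂ N, cf χ * ((cu c cf x + Du N D x - K x χ) *
        (cu c cf y + Du N D y - K y χ) * (cu c cf z + Du N D z - K z χ)))) := by
    refine tendsto_finsetSum _ fun χ _ => ?_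
    exact (((rze_lim V x r1 g1 (fun n => (hr1 n).2.1) (fun n => (hr1 n).2.2.1)
      (fun n => (hr1 n).2.2.2) χ).mul (rze_lim V y r2 g2 (fun n => (hr2 n).2.1)
      (fun n => (hr2 n).2.2.1) (fun n => (hr2 n).2.2.2) χ)).mul
      (rze_lim V z r3 g3 (fun n => (hr3 n).2.1)
      (fun n => (hr3 n).2.2.1) (fun n => (hr3 n).2.2.2) χ)).const_mul (cf χ)
  have hconst : Du N D (x * y * z) = ∑ χ : DirichletCharacter ℂ N,
      cf χ * ((cu c cf x + Du N D x - K x χ) * (cu c cf y + Du N D y - K y χ) *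
        (cu c cf z + Du N D z - K z χ)) := by
    refine tendsto_nhds_unique ?_ hlim
    refine tendsto_const_nhds.congr fun n => ?_
    obtain ⟨a1, a2, a3, a4⟩ := hr1 n
    obtain ⟨b1, b2, b3, b4⟩ := hr2 n
    obtain ⟨c1, c2, c3, c4⟩ := hr3 n
    have n1 : ((r1 n : ℕ) : ℂ) ≠ 0 := by exact_mod_cast a2.ne_zero
    have n2 : ((r2 n : ℕ) : ℂ) ≠ 0 := by exact_mod_cast b2.ne_zero
    have n3 : ((r3 n : ℕ) : ℂ) ≠ 0 := by exact_mod_cast c2.ne_zero
    have hval := V.val [(r1 n, 1), (r2 n, 1), (r3 n, 1)] (by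
      intro w hw
      rw [List.mem_cons, List.mem_cons, List.mem_singleton] at hw
      rcases hw with rfl | rfl | rfl
      · exact ⟨a2, a3, le_rfl⟩
      · exact ⟨b2, b3, le_rfl⟩
      · exact ⟨c2, c3, le_rfl⟩) (by
        simp only [List.map_cons, List.map_nil, List.nodup_cons, List.mem_cons, List.not_mem_nil,
          or_false, List.nodup_nil, not_false_eq_true, and_true]
        omega)
    simp only [List.map_cons, List.map_nil, List.prod_cons, List.prod_nil, mul_one, pow_one] at hval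
    have e1 : ((r1 n * (r2 n * r3 n) : ℕ) : ℂ) ^ (-1 + 2 * ((0 : ℝ) : ℂ) * I : ℂ) =
        ((r1 n : ℕ) : ℂ)⁻¹ * ((r2 n : ℕ) : ℂ)⁻¹ * ((r3 n : ℕ) : ℂ)⁻¹ := by
      rw [Complex.ofReal_zero, mul_zero, zero_mul, add_zero, cpow_neg_one]
      push_cast
      rw [mul_inv, mul_inv, mul_assoc]
    have e2 : D ((r1 n * (r2 n * r3 n) : ℕ) : ZMod c) = Du N D (x * y * z) := by
      unfold Du
      rw [Units.val_mul, Units.val_mul, a4, b4, c4, map_mul, map_mul, map_natCast, map_natCast,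
        map_natCast]
      push_cast
      rw [mul_assoc]
    rw [e1, e2] at hval
    have e3 : ∑ χ : DirichletCharacter ℂ N,
        cf χ * (((r1 n : ℂ) * Fac b 0 χ (r1 n) 1) * ((r2 n : ℂ) * Fac b 0 χ (r2 n) 1) *
        ((r3 n : ℂ) * Fac b 0 χ (r3 n) 1)) = (r1 n : ℂ) * (r2 n : ℂ) * (r3 n : ℂ) *
        ∑ χ : DirichletCharacter ℂ N, cf χ * (Fac b 0 χ (r1 n) 1 * (Fac b 0 χ (r2 n) 1 *
          Fac b 0 χ (r3 n) 1)) := by
      rw [Finset.mul_sum]
      exact Finset.sum_congr rfl fun χ _ => by ring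
    rw [e3, hval]
    field_simp
  have s1 := V.sum
  have sx := hcu x
  have sy := hcu y
  have sz := hcu z
  have sxy := hcu (x * y)
  have sxz := hcu (x * z)
  have syz := hcu (y * z)
  have sxyz := hcu (x * y * z)
  simp only [hKm] at sxy sxz syz sxyz
  simp only [← hcD] at hconst
  obtain ⟨X, hX⟩ : ∃ X : ℂ, X = cu c cf x := ⟨_, rfl⟩
  obtain ⟨Y, hY⟩ : ∃ Y : ℂ, Y = cu c cf y := ⟨_, rfl⟩
  obtain ⟨Z, hZ⟩ : ∃ Z : ℂ, Z = cu c cf z := ⟨_, rfl⟩
  have hexp : ∑ χ : DirichletCharacter ℂ N, cf χ * ((cu c cf x + cu c cf x - K x χ) *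
      (cu c cf y + cu c cf y - K y χ) * (cu c cf z + cu c cf z - K z χ)) =
      8 * X * Y * Z * (∑ χ : DirichletCharacter ℂ N, cf χ) -
      4 * Y * Z * (∑ χ : DirichletCharacter ℂ N, cf χ * K x χ) -
      4 * X * Z * (∑ χ : DirichletCharacter ℂ N, cf χ * K y χ) -
      4 * X * Y * (∑ χ : DirichletCharacter ℂ N, cf χ * K z χ) +
      2 * X * (∑ χ : DirichletCharacter ℂ N, cf χ * (K y χ * K z χ)) +
      2 * Y * (∑ χ : DirichletCharacter ℂ N, cf χ * (K x χ * K z χ)) +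
      2 * Z * (∑ χ : DirichletCharacter ℂ N, cf χ * (K x χ * K y χ)) -
      ∑ χ : DirichletCharacter ℂ N, cf χ * (K x χ * K y χ * K z χ) := by
    rw [← hX, ← hY, ← hZ]
    simp only [Finset.mul_sum, ← Finset.sum_sub_distrib, ← Finset.sum_add_distrib]
    exact Finset.sum_congr rfl fun χ _ => by ring
  rw [hexp, ← sx, ← sy, ← sz, ← sxy, ← sxz, ← syz, ← sxyz, s1, ← hX, ← hY, ← hZ] at hconst
  rw [← hX, ← hY, ← hZ]
  linear_combination (1 / 2) * hconst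

end Pool.Agent.H11.PE
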