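import Mathlib
import Pool.Agent.H11.PE.Defs
import Pool.Agent.H78.PB.Defs
import Pool.Agent.H11.PE.ROT
import Pool.Agent.H11.PE.RZE
import Pool.Agent.H78.PB.AVG
import Pool.Agent.H78.PB.ALG

/-!
# CAS (copy for PD0): the two cases

`M = N c ≠ 0` (`V.dvd`, `V.P0`).  `cu 1 = ∑ cf = 1`, `Du 1 = D 1 = 1`.  Let `C` be the constant of `r_two`.
*`θ ≠ 0`*.  Fix units `x, y`, `X = Du (x y) - Du x Du y`, `Y = cu (x y) - cu x cu y`.  For every prime `r2 > P` with `r2 = y`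
`avg` (class `x`, `P0 = max P r2`, `X' = r2^(2θI) X`, `E = C r2^(-1/2)`) gives `‖Y‖ ≤ C r2^(-1/2)` (a prime `r > P` does not
divide `P`, as `P ≠ 0`).  By Dirichlet `r2 → ∞` is possible, so `Y = 0`.  Then `‖X‖ = ‖r1^(2θI) r2^(2θI) X‖ ≤
C (r1^(-1/2) + r2^(-1/2))` for arbitrarily large `r1 ≠ r2` in the classes: `X = 0`.  So `cu` and `Du` are multiplicative, and
`cf_one` gives the first alternative.
*`θ = 0`*: `r_two` with `r1, r2 → ∞` gives `Du (x y) - Du x Du y = cu (x y) - cu x cu y` (`r^0 = 1`); `alg` with `h3 = r_three`.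
In its first alternative use `cf_one`, in the second `cf_two`.
-/

set_option autoImplicit false

namespace Pool.Agent.H11.PE

open Complex Filter Topology Pool.Agent.H11.PC Pool.Agent.H11.PB Pool.Agent.H78.PB

private theorem cas_small (C ε : ℝ) (hε : 0 < ε) : ∃ n0 : ℕ, ∀ m : ℕ, n0 ≤ m →
    C * (m : ℝ) ^ (-(1 / 2) : ℝ) < ε := by
  have h1 : Tendsto (fun n : ℕ => C * ((n : ℕ) : ℝ) ^ (-(1 / 2) : ℝ)) atTop (𝓝 0) := by
    have h2 : Tendsto (fun n : ℕ => ((n : ℕ) : ℝ) ^ (-(1 / 2) : ℝ)) atTop (𝓝 0) :=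
      (tendsto_rpow_neg_atTop (by norm_num : (0 : ℝ) < 1 / 2)).comp tendsto_natCast_atTop_atTop
    simpa using h2.const_mul C
  have h3 := h1.eventually (gt_mem_nhds hε)
  exact eventually_atTop.1 h3

private theorem cas_primes {M : ℕ} [NeZero M] (P : ℕ) (hP : P ≠ 0) (n0 : ℕ) (x y : (ZMod M)ˣ) :
    ∃ r1 r2 : ℕ, r1.Prime ∧ r2.Prime ∧ r1 ≠ r2 ∧ ¬ r1 ∣ P ∧ ¬ r2 ∣ P ∧ n0 ≤ r1 ∧ n0 ≤ r2 ∧
      (x : ZMod M) = (r1 : ZMod M) ∧ (y : ZMod M) = (r2 : ZMod M) := by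
  obtain ⟨r1, h1, h2, h3⟩ := Nat.forall_exists_prime_gt_and_eq_mod x.isUnit (max P n0)
  obtain ⟨r2, h4, h5, h6⟩ := Nat.forall_exists_prime_gt_and_eq_mod y.isUnit (max r1 (max P n0))
  have h7 : P < r1 := lt_of_le_of_lt (le_max_left _ _) h1
  have h8 : r1 < r2 := lt_of_le_of_lt (le_max_left _ _) h4
  refine ⟨r1, r2, h2, h5, h8.ne, fun h => ?_, fun h => ?_, ?_, ?_, h3.symm, h6.symm⟩
  · exact absurd (Nat.le_of_dvd (Nat.pos_of_ne_zero hP) h) (not_le.2 h7)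
  · exact absurd (Nat.le_of_dvd (Nat.pos_of_ne_zero hP) h) (not_le.2 (h7.trans h8))
  · exact (le_max_right _ _).trans h1.le
  · exact ((le_max_right _ _).trans (le_max_right _ _)).trans h4.le

private theorem cas_norm (r : ℕ) (hr : r.Prime) (θ : ℝ) : ‖(r : ℂ) ^ (2 * θ * I : ℂ)‖ = 1 := by
  rw [Complex.norm_natCast_cpow_of_pos hr.pos]
  have : (2 * (θ : ℂ) * I).re = 0 := by simp
  rw [this, Real.rpow_zero]

private theorem cas_zero {a : ℝ} (h : ∀ ε : ℝ, 0 < ε → a ≤ ε) : a ≤ 0 :=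
  le_of_forall_pos_le_add fun ε hε => by simpa using h ε hε

theorem cases {b : ℕ → ℂ} {θ : ℝ} {N c P : ℕ} [NeZero N] {cf : DirichletCharacter ℂ N → ℂ}
    {D : ZMod c → ℂ} (V : VD0 b θ N c P cf D) :
    ((∃ χ1 : DirichletCharacter ℂ N, cf χ1 = 1 ∧ ∀ χ, χ ≠ χ1 → cf χ = 0) ∧
      ∀ x y, Du N D (x * y) = Du N D x * Du N D y) ∨
    (θ = 0 ∧ ∃ (χ1 χ2 : DirichletCharacter ℂ N) (c1 c2 : ℂ), χ1 ≠ χ2 ∧ c1 ≠ 0 ∧ c2 ≠ 0 ∧
      c1 + c2 = 1 ∧ cf χ1 = c1 ∧ cf χ2 = c2 ∧ (∀ χ, χ ≠ χ1 → χ ≠ χ2 → cf χ = 0) ∧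
      ∀ x : (ZMod (N * c))ˣ, Du N D x =
        c2 * clv c χ1 (x : ZMod (N * c)) + c1 * clv c χ2 (x : ZMod (N * c))) := by
  classical
  haveI hNc : NeZero (N * c) := ⟨fun h => V.P0 (Nat.eq_zero_of_zero_dvd (h ▸ V.dvd))⟩
  have hcu1 : cu c cf 1 = 1 := by
    unfold cu
    rw [← V.sum]
    refine Finset.sum_congr rfl fun χ _ => ?_
    rw [Units.val_one, map_one, map_one, inv_one, mul_one]
  have hDu1 : Du N D 1 = 1 := by
    unfold Du
    rw [Units.val_one, map_one]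
    exact V.D1
  obtain ⟨C, hC0, hC⟩ := r_two V
  by_cases hθ : θ = 0
  · subst hθ
    have h2 : ∀ x y : (ZMod (N * c))ˣ, Du N D (x * y) - Du N D x * Du N D y =
        cu c cf (x * y) - cu c cf x * cu c cf y := by
      intro x y
      have h3 : ‖(Du N D (x * y) - Du N D x * Du N D y) -
          (cu c cf (x * y) - cu c cf x * cu c cf y)‖ ≤ 0 := by
        refine cas_zero fun ε hε => ?_
        obtain ⟨n0, hn0⟩ := cas_small C (ε / 2) (by positivity)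
        obtain ⟨r1, r2, p1, p2, hne, hd1, hd2, hn1, hn2, hx, hy⟩ := cas_primes P V.P0 n0 x y
        have h4 := hC r1 r2 p1 p2 hne hd1 hd2 x y hx hy
        have h5 : (2 * ((0 : ℝ) : ℂ) * I) = 0 := by simp
        rw [h5, Complex.cpow_zero, Complex.cpow_zero, one_mul, one_mul] at h4
        have h6 := hn0 r1 hn1
        have h7 := hn0 r2 hn2
        rw [mul_add] at h4
        linarith
      exact sub_eq_zero.1 (norm_le_zero_iff.1 h3)
    have h3 : (∀ x, cu c cf x = Du N D x) → ∀ x y z, cu c cf (x * y * z) =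
        -2 * cu c cf x * cu c cf y * cu c cf z + cu c cf x * cu c cf (y * z) +
          cu c cf y * cu c cf (x * z) + cu c cf z * cu c cf (x * y) :=
      fun hcD x y z => r_three V hcD x y z
    rcases alg (cu c cf) (Du N D) hcu1 hDu1 h2 h3 with ⟨hm, hD⟩ | ⟨f1, f2, c1, c2, hf, hc1, hc2, hs, h5, h6⟩
    · exact Or.inl ⟨cf_one c cf V.sum hm, hD⟩
    · obtain ⟨χ1, χ2, hne, e1, e2, k1, k2, k3⟩ := cf_two c cf f1 f2 c1 c2 hf hc1 hc2 h5
      refine Or.inr ⟨rfl, χ1, χ2, c1, c2, hne, hc1, hc2, hs, k1, k2, k3, fun x => ?_⟩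
      rw [h6 x, e1, e2]
  · left
    have hY : ∀ x y : (ZMod (N * c))ˣ, cu c cf (x * y) - cu c cf x * cu c cf y = 0 := by
      intro x y
      have h3 : ‖cu c cf (x * y) - cu c cf x * cu c cf y‖ ≤ 0 := by
        refine cas_zero fun ε hε => ?_
        obtain ⟨n0, hn0⟩ := cas_small C ε hε
        obtain ⟨_, r2, _, p2, _, _, hd2, _, hn2, _, hy⟩ := cas_primes P V.P0 n0 x y
        have h4 := avg θ hθ x (max P r2) ((r2 : ℂ) ^ (2 * θ * I : ℂ) *
          (Du N D (x * y) - Du N D x * Du N D y)) (cu c cf (x * y) - cu c cf x * cu c cf y) C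
          (C * (r2 : ℝ) ^ (-(1 / 2) : ℝ)) hC0 (fun r hr hPr hrx => by
            have hr1 : P < r := lt_of_le_of_lt (le_max_left _ _) hPr
            have hr2 : r2 < r := lt_of_le_of_lt (le_max_right _ _) hPr
            have h5 := hC r r2 hr p2 hr2.ne'
              (fun h => absurd (Nat.le_of_dvd (Nat.pos_of_ne_zero V.P0) h) (not_le.2 hr1)) hd2
              x y hrx.symm hy
            rw [mul_add, mul_assoc] at h5
            exact h5)
        exact h4.trans (hn0 r2 hn2).le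
      exact norm_le_zero_iff.1 h3
    have hX : ∀ x y : (ZMod (N * c))ˣ, Du N D (x * y) - Du N D x * Du N D y = 0 := by
      intro x y
      have h3 : ‖Du N D (x * y) - Du N D x * Du N D y‖ ≤ 0 := by
        refine cas_zero fun ε hε => ?_
        obtain ⟨n0, hn0⟩ := cas_small C (ε / 2) (by positivity)
        obtain ⟨r1, r2, p1, p2, hne, hd1, hd2, hn1, hn2, hx, hy⟩ := cas_primes P V.P0 n0 x y
        have h4 := hC r1 r2 p1 p2 hne hd1 hd2 x y hx hy
        rw [hY x y, sub_zero, norm_mul, norm_mul, cas_norm r1 p1, cas_norm r2 p2, one_mul, one_mul,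
          mul_add] at h4
        have h6 := hn0 r1 hn1
        have h7 := hn0 r2 hn2
        linarith
      exact norm_le_zero_iff.1 h3
    exact ⟨cf_one c cf V.sum fun x y => sub_eq_zero.1 (hY x y), fun x y => sub_eq_zero.1 (hX x y)⟩

end Pool.Agent.H11.PE
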