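import Mathlib
import Pool.Agent.H11.PE.Defs
import Pool.Agent.H11.PE.LAMC

/-!
# EULX (copy for PD0): the exact Euler factor

`B j = b(r^j) X^j`, `T k = ∑_{j ≥ k} B j` (absolutely convergent), `T 0 = FL b r X =: F0 ≠ 0` (`h.loc`), `B k = T k - T (k+1)`.
`hΛ k` says `T k - B (k-1)/(r-1) = F0 (ω/r)^k` for `k ≥ 1`, i.e. `r T k = T (k-1) + (r-1) F0 (ω/r)^k`.  By induction
`r^k T k = F0 (1 + (1 - 1/r) ∑_{i=1}^k ω^i)`, so
`r^k B k = r^k T k - r^k T (k+1) = F0 (1 - 1/r)(1 - ω/r) ∑_{i=0}^k ω^i`.  `k = 0`: `1 = B 0 = F0 (1 - 1/r)(1 - ω/r)`.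
-/

set_option autoImplicit false

namespace Pool.Agent.H11.PE

open Complex Filter Topology Pool.Agent.H11.PC

theorem local_exact {b : ℕ → ℂ} (h : PD0 b) (r : ℕ) (hr : r.Prime) (ω X : ℂ) (hω : ‖ω‖ = 1)
    (hX : ‖X‖ ≤ (r : ℝ) ^ (-(1 / 2) : ℝ)) (hΛ : ∀ k : ℕ, 1 ≤ k → Lam b r k X = (ω / r) ^ k) :
    ∀ k : ℕ, b (r ^ k) * X ^ k = (1 / (r : ℂ)) ^ k * ∑ i ∈ Finset.range (k + 1), ω ^ i := by
  have hr0 : (r : ℂ) ≠ 0 := Nat.cast_ne_zero.mpr hr.ne_zero
  have hr1 : (r : ℂ) - 1 ≠ 0 := by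
    rw [sub_ne_zero]
    exact_mod_cast hr.one_lt.ne'
  have hrpos : (0 : ℝ) < r := Nat.cast_pos.mpr hr.pos
  have hr1' : (1 : ℝ) < r := by exact_mod_cast hr.one_lt
  set B : ℕ → ℂ := fun j => b (r ^ j) * X ^ j with hB
  have hsum : Summable B := by
    obtain ⟨C, hC⟩ := h.ram (1 / 4) (by norm_num)
    have hq : (r : ℝ) ^ (-(1 / 4) : ℝ) < 1 :=
      Real.rpow_lt_one_of_one_lt_of_neg hr1' (by norm_num)
    refine Summable.of_norm_bounded (g := fun j => C * ((r : ℝ) ^ (-(1 / 4) : ℝ)) ^ j)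
      ((summable_geometric_of_lt_one (Real.rpow_nonneg hrpos.le _) hq).mul_left C) ?_
    intro j
    show ‖b (r ^ j) * X ^ j‖ ≤ C * ((r : ℝ) ^ (-(1 / 4) : ℝ)) ^ j
    rw [norm_mul, norm_pow]
    have h1 := hC (r ^ j) (Nat.one_le_pow _ _ hr.pos)
    have h2 : ‖X‖ ^ j ≤ ((r : ℝ) ^ (-(1 / 2) : ℝ)) ^ j := pow_le_pow_left₀ (norm_nonneg _) hX j
    calc ‖b (r ^ j)‖ * ‖X‖ ^ j
        ≤ (C * (((r ^ j : ℕ) : ℝ)) ^ (1 / 4 : ℝ)) * ((r : ℝ) ^ (-(1 / 2) : ℝ)) ^ j :=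
          mul_le_mul h1 h2 (pow_nonneg (norm_nonneg _) _) (le_trans (norm_nonneg _) h1)
      _ = C * ((r : ℝ) ^ (-(1 / 4) : ℝ)) ^ j := by
          rw [mul_assoc]
          congr 1
          rw [Nat.cast_pow, ← Real.rpow_natCast (r : ℝ) j,
            ← Real.rpow_natCast ((r : ℝ) ^ (-(1 / 2) : ℝ)) j,
            ← Real.rpow_natCast ((r : ℝ) ^ (-(1 / 4) : ℝ)) j, ← Real.rpow_mul hrpos.le,
            ← Real.rpow_mul hrpos.le, ← Real.rpow_mul hrpos.le, ← Real.rpow_add hrpos]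
          congr 1
          ring
  set T : ℕ → ℂ := fun k => ∑' j : ℕ, B (j + k) with hT
  have hTs : ∀ k, T k = B k + T (k + 1) := by
    intro k
    have hs : Summable (fun j => B (j + k)) := (summable_nat_add_iff k).mpr hsum
    show ∑' j : ℕ, B (j + k) = B k + ∑' j : ℕ, B (j + (k + 1))
    rw [hs.tsum_eq_zero_add, zero_add]
    congr 1
    exact tsum_congr fun j => by rw [add_right_comm, add_assoc]
  have hT0 : T 0 = FL b r X := rfl
  have hF : FL b r X ≠ 0 := h.loc r hr X hX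
  have hrel : ∀ k, T (k + 1) - 1 / ((r : ℂ) - 1) * B k = FL b r X * (ω / r) ^ (k + 1) := by
    intro k
    have h1 := hΛ (k + 1) (Nat.le_add_left 1 k)
    unfold Lam at h1
    rw [div_eq_iff hF, Nat.add_sub_cancel] at h1
    have h2 : T (k + 1) = ∑' j : ℕ, b (r ^ (j + (k + 1))) * X ^ (j + (k + 1)) := rfl
    rw [← h2] at h1
    show T (k + 1) - 1 / ((r : ℂ) - 1) * (b (r ^ k) * X ^ k) = FL b r X * (ω / r) ^ (k + 1)
    rw [mul_comm (FL b r X), ← h1]
    ring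
  have h3 : ((r : ℂ) - 1) * (1 / ((r : ℂ) - 1)) = 1 := mul_one_div_cancel hr1
  have hstep : ∀ k, (r : ℂ) * T (k + 1) = T k + ((r : ℂ) - 1) * FL b r X * (ω / r) ^ (k + 1) := by
    intro k
    linear_combination ((r : ℂ) - 1) * hrel k - hTs k + B k * h3
  have hind : ∀ k, (r : ℂ) ^ k * T k =
      FL b r X * (1 / r + (1 - 1 / r) * ∑ i ∈ Finset.range (k + 1), ω ^ i) := by
    intro k
    induction k with
    | zero =>
      rw [pow_zero, one_mul, hT0, Finset.sum_range_one, pow_zero]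
      ring
    | succ k ih =>
      rw [Finset.sum_range_succ]
      have e1 : (r : ℂ) ^ (k + 1) * T (k + 1) = (r : ℂ) ^ k * ((r : ℂ) * T (k + 1)) := by
        rw [pow_succ]; ring
      have e2 : (r : ℂ) ^ k * (ω / r) ^ (k + 1) = ω ^ (k + 1) / r := by
        rw [div_pow, pow_succ (r : ℂ) k]
        field_simp
      rw [e1, hstep k, mul_add, ih]
      have e3 : (r : ℂ) * (1 / r) = 1 := mul_one_div_cancel hr0
      have e4 : (r : ℂ) ^ k * (((r : ℂ) - 1) * FL b r X * (ω / r) ^ (k + 1)) =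
          FL b r X * ((1 - 1 / r) * ω ^ (k + 1)) := by
        calc (r : ℂ) ^ k * (((r : ℂ) - 1) * FL b r X * (ω / r) ^ (k + 1))
            = ((r : ℂ) - 1) * FL b r X * ((r : ℂ) ^ k * (ω / r) ^ (k + 1)) := by ring
          _ = ((r : ℂ) - 1) * FL b r X * (ω ^ (k + 1) / r) := by rw [e2]
          _ = FL b r X * ((1 - 1 / r) * ω ^ (k + 1)) := by
              field_simp
      rw [e4]
      ring
  have hG : ∀ k, ∑ i ∈ Finset.range (k + 1 + 1), ω ^ i =
      1 + ω * ∑ i ∈ Finset.range (k + 1), ω ^ i := by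
    intro k
    rw [Finset.sum_range_succ', pow_zero, add_comm, Finset.mul_sum]
    congr 1
    exact Finset.sum_congr rfl fun i _ => by rw [pow_succ]; ring
  have hmain : ∀ k, (r : ℂ) ^ k * B k =
      FL b r X * (1 - 1 / r) * (1 - ω / r) * ∑ i ∈ Finset.range (k + 1), ω ^ i := by
    intro k
    have e1 := hind k
    have e2 := hind (k + 1)
    have e3 := hTs k
    rw [hG k] at e2
    have e4 : (r : ℂ) ^ k * T (k + 1) = 1 / r * (FL b r X * (1 / r + (1 - 1 / r) *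
        (1 + ω * ∑ i ∈ Finset.range (k + 1), ω ^ i))) := by
      rw [← e2, pow_succ]
      field_simp
    linear_combination e1 - e4 - (r : ℂ) ^ k * e3
  have hB0 : B 0 = 1 := by
    show b (r ^ 0) * X ^ 0 = 1
    rw [pow_zero, pow_zero, h.one, mul_one]
  have hone : FL b r X * (1 - 1 / r) * (1 - ω / r) = 1 := by
    have e := hmain 0
    rw [hB0, Finset.sum_range_one, pow_zero, pow_zero, mul_one, mul_one] at e
    exact e.symm
  intro k
  have e := hmain k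
  rw [hone, one_mul] at e
  show B k = (1 / (r : ℂ)) ^ k * ∑ i ∈ Finset.range (k + 1), ω ^ i
  rw [← e, ← mul_assoc, ← mul_pow, one_div, inv_mul_cancel₀ hr0, one_pow, one_mul]

end Pool.Agent.H11.PE
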