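import Mathlib
import Pool.Agent.H11.PE.Defs
import Pool.Agent.H78.PB.Defs
import Pool.Agent.H78.PB.CHR
import Pool.Agent.H11.PE.EULX

/-!
# EXA (copy for PD0): the exact Euler factors in the first case

`Du` is multiplicative with `Du 1 = 1`: `mul_char` gives `ψ2` modulo `N c` with `ψ2 = Du` on the units; `ψ1 = clv c χ1`.  Let
`r ∤ P` be a prime, `x` its class (a unit modulo `N c`, as `N c ∣ P`).  `V.val [(r,k)]` (`k ≥ 1`): `∑ cf χ Fac b θ χ r k =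
Fac b θ χ1 r k = (χ1 r)⁻¹^k Lam b r k X`, `X = χ1(r) r^(-(1-θI))`, and it is `(r^k)^(-1+2θI) D(r^k) =
(r^(-1+2θI) ψ2(r))^k` (`natCast_mul_natCast_cpow`, `D (r^k) = Du (x^k) = (Du x)^k`).  So `Lam b r k X = (ω/r)^k` with
`ω = χ1(r) ψ2(r) r^(2θI)`, `‖ω‖ = 1`; `‖X‖ = 1/r ≤ r^(-1/2)`.  `local_exact V.pd r hr ω X`: `b(r^k) X^k = (1/r)^k ∑_{i ≤ k} ω^i`.
Multiply by `r^k (χ1(r)⁻¹ r^(-θI))^k` (`X = χ1(r) r^(θI) / r`): `b(r^k) = ∑_{i ≤ k} (χ1(r)⁻¹ r^(-θI))^(k-i) (ψ2(r) r^(θI))^i`,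
and reflect the sum (`Finset.sum_range_reflect` or `Finset.sum_flip`); `χ1(r)⁻¹ = ψ1(r)` (`clv_apply`).
-/

set_option autoImplicit false

namespace Pool.Agent.H11.PE

open Complex Filter Topology Pool.Agent.H11.PC Pool.Agent.H11.PB Pool.Agent.H78.PB

theorem exact_A {b : ℕ → ℂ} {θ : ℝ} {N c P : ℕ} [NeZero N] {cf : DirichletCharacter ℂ N → ℂ}
    {D : ZMod c → ℂ} (V : VD0 b θ N c P cf D) (χ1 : DirichletCharacter ℂ N) (h1 : cf χ1 = 1)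
    (h0 : ∀ χ, χ ≠ χ1 → cf χ = 0) (hD : ∀ x y, Du N D (x * y) = Du N D x * Du N D y) :
    ∃ ψ1 ψ2 : DirichletCharacter ℂ (N * c), ∀ r : ℕ, r.Prime → ¬ r ∣ P → ∀ k : ℕ,
      b (r ^ k) = ∑ i ∈ Finset.range (k + 1),
        (ψ1 (r : ZMod (N * c)) * (r : ℂ) ^ (-(θ * I) : ℂ)) ^ i *
          (ψ2 (r : ZMod (N * c)) * (r : ℂ) ^ (θ * I : ℂ)) ^ (k - i) := by
  have hNc : N * c ≠ 0 := fun h => V.P0 (Nat.eq_zero_of_zero_dvd (h ▸ V.dvd))
  have hNZ : NeZero (N * c) := ⟨hNc⟩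
  have hDu1 : Du N D 1 = 1 := by
    unfold Du
    rw [Units.val_one, map_one, V.D1]
  obtain ⟨ψ2, hψ2⟩ := mul_char (N * c) (Du N D) hDu1 hD
  refine ⟨clv c χ1, ψ2, ?_⟩
  intro r hr hrP k
  have hcop : Nat.Coprime r (N * c) := by
    rw [Nat.Prime.coprime_iff_not_dvd hr]
    exact fun h => hrP (h.trans V.dvd)
  have hr0 : (r : ℂ) ≠ 0 := Nat.cast_ne_zero.mpr hr.ne_zero
  obtain ⟨y, hy⟩ : ∃ y : (ZMod (N * c))ˣ, (y : ZMod (N * c)) = (r : ZMod (N * c)) :=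
    ⟨ZMod.unitOfCoprime r hcop, ZMod.coe_unitOfCoprime r hcop⟩
  have hcast : ZMod.castHom (dvd_mul_right N c) (ZMod N) (y : ZMod (N * c)) = (r : ZMod N) := by
    rw [hy, map_natCast]
  have hDpow : ∀ j : ℕ, Du N D (y ^ j) = Du N D y ^ j := by
    intro j
    induction j with
    | zero => rw [pow_zero, pow_zero, hDu1]
    | succ j ih => rw [pow_succ, hD, ih, pow_succ]
  have hDr : ∀ j : ℕ, D ((r ^ j : ℕ) : ZMod c) = ψ2 (y : ZMod (N * c)) ^ j := by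
    intro j
    rw [hψ2 y, ← hDpow j]
    unfold Du
    rw [Units.val_pow_eq_pow_val, hy, map_pow, map_natCast]
    push_cast
    rfl
  have hfy : clv c χ1 (y : ZMod (N * c)) = (χ1 (r : ZMod N))⁻¹ := by
    rw [clv_apply, hcast]
  have hn1 : ‖ψ2 (y : ZMod (N * c))‖ = 1 := DirichletCharacter.unit_norm_eq_one _ y
  have hn2 : ‖clv c χ1 (y : ZMod (N * c))‖ = 1 := DirichletCharacter.unit_norm_eq_one _ y
  have hn3 : ‖χ1 (r : ZMod N)‖ = 1 := by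
    rw [hfy, norm_inv, inv_eq_one] at hn2
    exact hn2
  have hne : χ1 (r : ZMod N) ≠ 0 := by
    rw [← norm_ne_zero_iff, hn3]
    exact one_ne_zero
  obtain ⟨ζ, hζ⟩ : ∃ ζ : ℂ, ζ = (r : ℂ) ^ (θ * I : ℂ) := ⟨_, rfl⟩
  have hζn : ‖ζ‖ = 1 := by
    rw [hζ, norm_natCast_cpow_of_pos hr.pos]
    simp
  have hζ0 : ζ ≠ 0 := by
    rw [← norm_ne_zero_iff, hζn]
    exact one_ne_zero
  have hζi : (r : ℂ) ^ (-(θ * I) : ℂ) = ζ⁻¹ := by rw [cpow_neg, ← hζ]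
  have hX : (r : ℂ) ^ (-(1 - θ * I : ℂ)) = ζ / r := by
    rw [show (-(1 - θ * I : ℂ)) = θ * I + -1 by ring, cpow_add _ _ hr0, cpow_neg_one, ← hζ,
      div_eq_mul_inv]
  have hY : (r : ℂ) ^ (-1 + 2 * θ * I : ℂ) = ζ ^ 2 / r := by
    rw [show (-1 + 2 * θ * I : ℂ) = θ * I + θ * I + -1 by ring, cpow_add _ _ hr0,
      cpow_add _ _ hr0, cpow_neg_one, ← hζ]
    ring
  have hpow : ∀ (j : ℕ) (z : ℂ), ((r ^ j : ℕ) : ℂ) ^ z = ((r : ℂ) ^ z) ^ j := by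
    intro j z
    induction j with
    | zero => simp
    | succ j ih => rw [pow_succ r, Nat.cast_mul, natCast_mul_natCast_cpow, ih, pow_succ]
  obtain ⟨X, hXd⟩ : ∃ X : ℂ, X = χ1 (r : ZMod N) * (ζ / r) := ⟨_, rfl⟩
  obtain ⟨ω, hω⟩ : ∃ ω : ℂ, ω = χ1 (r : ZMod N) * ψ2 (y : ZMod (N * c)) * ζ ^ 2 := ⟨_, rfl⟩
  have hLam : ∀ j : ℕ, 1 ≤ j → Lam b r j X = (ω / r) ^ j := by
    intro j hj
    have h2 := V.val [(r, j)] (by
      intro z hz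
      rw [List.mem_singleton] at hz
      subst hz
      exact ⟨hr, hrP, hj⟩) (by simp)
    simp only [List.map_cons, List.map_nil, List.prod_cons, List.prod_nil, mul_one] at h2
    rw [Finset.sum_eq_single χ1 (fun χ _ h => by rw [h0 χ h, zero_mul])
      (fun h => absurd (Finset.mem_univ _) h), h1, one_mul, hpow, hY, hDr] at h2
    unfold Fac at h2
    rw [hX, ← hXd] at h2
    have h3 : χ1 (r : ZMod N) ^ j * ((χ1 (r : ZMod N))⁻¹ ^ j * Lam b r j X) = Lam b r j X := by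
      rw [← mul_assoc, ← mul_pow, mul_inv_cancel₀ hne, one_pow, one_mul]
    rw [← h3, h2, hω, ← mul_pow, ← mul_pow]
    congr 1
    ring
  have hexact := local_exact V.pd r hr ω X (by
      rw [hω, norm_mul, norm_mul, hn3, hn1, norm_pow, hζn]
      norm_num) (by
      rw [hXd, norm_mul, hn3, one_mul, norm_div, hζn, Complex.norm_natCast, one_div,
        ← Real.rpow_neg_one]
      exact Real.rpow_le_rpow_of_exponent_le (by exact_mod_cast hr.one_lt.le) (by norm_num))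
    hLam k
  rw [← hy, hfy, hζi, ← hζ]
  have h9 : b (r ^ k) * (χ1 (r : ZMod N) * ζ) ^ k = ∑ i ∈ Finset.range (k + 1), ω ^ i := by
    have h10 : (1 / (r : ℂ)) ^ k ≠ 0 := pow_ne_zero _ (one_div_ne_zero hr0)
    refine mul_left_cancel₀ h10 ?_
    rw [← hexact, hXd, mul_div_assoc', div_pow, div_pow, one_pow]
    ring
  have h11 : (χ1 (r : ZMod N) * ζ) ^ k ≠ 0 := pow_ne_zero _ (mul_ne_zero hne hζ0)
  refine mul_right_cancel₀ h11 ?_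
  rw [h9, ← Finset.sum_range_reflect, Finset.sum_mul]
  refine Finset.sum_congr rfl fun i hi => ?_
  have hik : i ≤ k := Nat.lt_succ_iff.1 (Finset.mem_range.1 hi)
  rw [show k + 1 - 1 - i = k - i by omega]
  have h12 : (χ1 (r : ZMod N) * ζ) ^ k =
      (χ1 (r : ZMod N) * ζ) ^ i * (χ1 (r : ZMod N) * ζ) ^ (k - i) := by
    rw [← pow_add, Nat.add_sub_cancel' hik]
  have h13 : ((χ1 (r : ZMod N))⁻¹ * ζ⁻¹) ^ i * (χ1 (r : ZMod N) * ζ) ^ i = 1 := by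
    rw [← mul_pow, show (χ1 (r : ZMod N))⁻¹ * ζ⁻¹ * (χ1 (r : ZMod N) * ζ) = 1 by field_simp,
      one_pow]
  have h14 : (ψ2 (y : ZMod (N * c)) * ζ) ^ (k - i) * (χ1 (r : ZMod N) * ζ) ^ (k - i) =
      ω ^ (k - i) := by
    rw [← mul_pow, hω]
    congr 1
    ring
  rw [h12]
  linear_combination (-(ω ^ (k - i))) * h13 -
    (((χ1 (r : ZMod N))⁻¹ * ζ⁻¹) ^ i * (χ1 (r : ZMod N) * ζ) ^ i) * h14

end Pool.Agent.H11.PE
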