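import Mathlib
import Pool.Agent.H11.PE.Defs
import Pool.Agent.H11.PC.Defs
import Pool.Agent.H11.PC.CHI

/-!
# KAPB (copy for PD0): the factor `κ_χ(g, s)` is bounded

`h.ram (1/4)`: for `Re s ≥ 1` and `Smo N d` the term has norm `≤ C d^(1/4) d^(-1) φ(N)` (`GS_bound`), and
`∑_{Smo N d} d^(-3/4) < ∞` (`EulerProduct.summable_and_hasSum_factoredNumbers_prod_filter_prime_geometric`, or
`Nat.factoredNumbers`; `Smo N d` means `d ∈ Nat.factoredNumbers N.primeFactors`).  `kap_congr` is immediate.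
-/

set_option autoImplicit false

namespace Pool.Agent.H11.PE

open Complex Filter Topology Pool.Agent.H11.PC
private theorem kapbx_smo (N d : ℕ) (hN : 1 ≤ N) :
    Smo N d ↔ d ∈ Nat.factoredNumbers N.primeFactors := by
  unfold Smo
  rw [Nat.mem_factoredNumbers]
  refine and_congr_right fun hd => ?_
  constructor
  · intro h p hp
    rw [Nat.mem_primeFactorsList hd] at hp
    exact Nat.mem_primeFactors.2 ⟨hp.1, h p hp.1 hp.2, by omega⟩
  · intro h p hp hpd
    exact (Nat.mem_primeFactors.1 (h p ((Nat.mem_primeFactorsList hd).2 ⟨hp, hpd⟩))).2.1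

open Classical in
theorem smo_summable (N : ℕ) (hN : 1 ≤ N) (σ : ℝ) (hσ : 0 < σ) :
    Summable (fun d : ℕ => if Smo N d then (d : ℝ) ^ (-σ) else 0) := by
  let f : ℕ →* ℝ :=
    { toFun := fun n => (n : ℝ) ^ (-σ)
      map_one' := by simp
      map_mul' := fun m n => by
        push_cast
        exact Real.mul_rpow (Nat.cast_nonneg m) (Nat.cast_nonneg n) }
  have hf : ∀ n : ℕ, f n = (n : ℝ) ^ (-σ) := fun n => rfl
  have h := (EulerProduct.summable_and_hasSum_factoredNumbers_prod_filter_prime_geometric (f := f)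
    (fun {p} hp => by
      rw [hf, Real.norm_of_nonneg (Real.rpow_nonneg (Nat.cast_nonneg p) _)]
      exact Real.rpow_lt_one_of_one_lt_of_neg (by exact_mod_cast hp.one_lt) (by linarith))
    N.primeFactors).1
  have h2 : Summable (fun m : Nat.factoredNumbers N.primeFactors => ((m : ℕ) : ℝ) ^ (-σ)) := by
    refine h.congr fun m => ?_
    rw [hf, Real.norm_of_nonneg (Real.rpow_nonneg (Nat.cast_nonneg _) _)]
  have h3 := (summable_subtype_iff_indicator (s := Nat.factoredNumbers N.primeFactors)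
    (f := fun m : ℕ => (m : ℝ) ^ (-σ))).1 h2
  refine h3.congr fun d => ?_
  rw [Set.indicator_apply]
  by_cases hd : Smo N d
  · rw [if_pos hd, if_pos ((kapbx_smo N d hN).1 hd)]
  · rw [if_neg hd, if_neg (fun h => hd ((kapbx_smo N d hN).2 h))]

theorem kap_bound {b : ℕ → ℂ} (h : PD0 b) (N : ℕ) [NeZero N] : ∃ C : ℝ, 0 ≤ C ∧
    ∀ (χ : DirichletCharacter ℂ N) (g : ℕ → ℂ), (∀ n, ‖g n‖ ≤ 1) → ∀ s : ℂ, 1 ≤ s.re →
      ‖kap b N g χ s‖ ≤ C := by
  classical
  obtain ⟨C, hC⟩ := h.ram (1 / 4) (by norm_num)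
  have hN : 1 ≤ N := Nat.pos_of_ne_zero (NeZero.ne N)
  have hC0 : 0 ≤ C := by
    have := (norm_nonneg _).trans (hC 1 le_rfl)
    simpa using this
  have ht : (0 : ℝ) < (Nat.totient N : ℝ) := by
    exact_mod_cast Nat.totient_pos.2 hN
  have hsum := smo_summable N hN (3 / 4) (by norm_num)
  refine ⟨C * ∑' d : ℕ, (if Smo N d then (d : ℝ) ^ (-(3 / 4) : ℝ) else 0), ?_, ?_⟩
  · refine mul_nonneg hC0 (tsum_nonneg fun d => ?_)
    split_ifs
    · exact Real.rpow_nonneg (Nat.cast_nonneg _) _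
    · exact le_rfl
  · intro χ g hg s hs
    unfold kap
    have hb := tsum_of_norm_bounded (hsum.mul_left (C * (Nat.totient N : ℝ))).hasSum
      (f := fun d : ℕ => if Smo N d then b d * g d * (d : ℂ) ^ (-s) * GS N χ d else 0) (by
        intro d
        by_cases hd : Smo N d
        · rw [if_pos hd, if_pos hd, norm_mul, norm_mul, norm_mul]
          have hd1 : 1 ≤ d := Nat.pos_of_ne_zero hd.1
          have hd0 : (0 : ℝ) < d := by exact_mod_cast hd1
          have hdR : (1 : ℝ) ≤ d := by exact_mod_cast hd1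
          have e1 : ‖(d : ℂ) ^ (-s)‖ ≤ (d : ℝ) ^ (-1 : ℝ) := by
            rw [Complex.norm_natCast_cpow_of_pos hd1]
            exact Real.rpow_le_rpow_of_exponent_le hdR (by rw [neg_re]; linarith)
          have e2 : ‖b d‖ * ‖g d‖ ≤ C * (d : ℝ) ^ (1 / 4 : ℝ) * 1 :=
            mul_le_mul (hC d hd1) (hg d) (norm_nonneg _)
              (mul_nonneg hC0 (Real.rpow_nonneg hd0.le _))
          calc ‖b d‖ * ‖g d‖ * ‖(d : ℂ) ^ (-s)‖ * ‖GS N χ d‖
              ≤ C * (d : ℝ) ^ (1 / 4 : ℝ) * 1 * (d : ℝ) ^ (-1 : ℝ) * (Nat.totient N : ℝ) := by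
                refine mul_le_mul (mul_le_mul e2 e1 (norm_nonneg _) ?_) (GS_bound N χ d)
                  (norm_nonneg _) ?_
                · exact mul_nonneg (mul_nonneg hC0 (Real.rpow_nonneg hd0.le _)) zero_le_one
                · exact mul_nonneg (mul_nonneg (mul_nonneg hC0 (Real.rpow_nonneg hd0.le _))
                    zero_le_one) (Real.rpow_nonneg hd0.le _)
            _ = C * (Nat.totient N : ℝ) * ((d : ℝ) ^ (1 / 4 : ℝ) * (d : ℝ) ^ (-1 : ℝ)) := by ring
            _ = C * (Nat.totient N : ℝ) * (d : ℝ) ^ (-(3 / 4) : ℝ) := by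
                rw [← Real.rpow_add hd0]
                norm_num
        · rw [if_neg hd, if_neg hd, norm_zero, mul_zero])
    rw [norm_mul, norm_div, norm_one, Complex.norm_natCast]
    rw [tsum_mul_left] at hb
    calc 1 / (Nat.totient N : ℝ) *
          ‖∑' d : ℕ, if Smo N d then b d * g d * (d : ℂ) ^ (-s) * GS N χ d else 0‖
        ≤ 1 / (Nat.totient N : ℝ) * (C * (Nat.totient N : ℝ) *
          ∑' d : ℕ, (if Smo N d then (d : ℝ) ^ (-(3 / 4) : ℝ) else 0)) :=
          mul_le_mul_of_nonneg_left hb (by positivity)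
      _ = _ := by
          field_simp

theorem kap_congr (b : ℕ → ℂ) (N : ℕ) [NeZero N] (g g' : ℕ → ℂ) (hg : ∀ d, Smo N d → g d = g' d)
    (χ : DirichletCharacter ℂ N) (s : ℂ) : kap b N g χ s = kap b N g' χ s := by
  classical
  unfold kap
  congr 1
  refine tsum_congr fun d => ?_
  by_cases hd : Smo N d
  · rw [if_pos hd, if_pos hd, hg d hd]
  · rw [if_neg hd, if_neg hd]

end Pool.Agent.H11.PE
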