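import Mathlib
import Pool.Agent.H11.PE.Defs
import Pool.Agent.H11.PC.Defs
import Pool.Agent.H11.PC.CMG
import Pool.Agent.H11.PE.SUMM
import Pool.Agent.H11.PC.SMD
import Pool.Agent.H11.PC.CHI
import Pool.Agent.H11.PE.KAPB

/-!
# TWN (copy for PD0): additive twist with denominator `N` in terms of characters

Apply `smooth_sum` to `f n = term of the L-series at n`.  For `Smo N d` and `m` coprime to `N`, `m ≠ 0`: `d`, `m` are coprime, so
`b(dm) = b(d) b(m)`, `g(dm) = g(d) g(m)`, `(dm)^(-s) = d^(-s) m^(-s)`, and `m x` is a unit modulo `N`: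
`eN(d m x) = φ(N)⁻¹ ∑_χ χ(m x) GS N χ d` (`fourier_eN`), `χ(m x) = χ(m) χ(x)`; `χ(m) = 0` if `m` is not coprime to `N`, so the
condition on `m` can be dropped afterwards.  So the double sum is
`∑_χ χ(x) (φ(N)⁻¹ ∑_{Smo N d} b(d) g(d) d^(-s) GS N χ d) (∑_m b(m) g(m) χ(m) m^(-s))`.
(Summability: `smo_summable`, `h.ram (1/4)`, `pd_summable`.)
`base_id`: `g = 1`, `x = a0`, `eN_coe`.
-/

set_option autoImplicit false

namespace Pool.Agent.H11.PE

open Complex Filter Topology Pool.Agent.H11.PC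

private theorem twn_key {b : ℕ → ℂ} (h : PD0 b) (N : ℕ) [NeZero N] (g : ℕ → ℂ) (hg : CM g)
    (x : (ZMod N)ˣ) (s : ℂ) (d m : ℕ) (hd : Smo N d) (hm : Nat.Coprime m N) :
    LSeries.term (fun n => b n * (g n * eN N ((n : ZMod N) * (x : ZMod N)))) s (d * m) =
      ∑ χ : DirichletCharacter ℂ N,
        (χ (x : ZMod N) * (1 / (Nat.totient N : ℂ)) * (b d * g d * (d : ℂ) ^ (-s) * GS N χ d)) *
          LSeries.term (fun n => b n * (g n * χ (n : ZMod N))) s m := by
  rcases Nat.eq_zero_or_pos m with rfl | hmpos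
  · simp
  have hm0 : m ≠ 0 := hmpos.ne'
  have hd0 : d ≠ 0 := hd.1
  have hcop : Nat.Coprime d m := by
    refine Nat.Coprime.symm (Nat.coprime_of_dvd ?_)
    intro p hp hpm hpd
    have hpN : p ∣ N := hd.2 p hp hpd
    have := Nat.dvd_gcd hpm hpN
    rw [hm] at this
    exact hp.one_lt.ne' (Nat.dvd_one.1 this)
  rw [LSeries.term_of_ne_zero (mul_ne_zero hd0 hm0)]
  set u : (ZMod N)ˣ := ZMod.unitOfCoprime m hm with hu
  have hum : (u : ZMod N) = (m : ZMod N) := ZMod.coe_unitOfCoprime m hm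
  have harg : ((d * m : ℕ) : ZMod N) * (x : ZMod N) = ((u * x : (ZMod N)ˣ) : ZMod N) * (d : ZMod N) := by
    rw [Units.val_mul, hum]; push_cast; ring
  rw [harg, fourier_eN N d (u * x), h.mul d m hcop, hg.mul d m]
  have hpow : ((d * m : ℕ) : ℂ) ^ s = (d : ℂ) ^ s * (m : ℂ) ^ s := by
    push_cast
    exact Complex.natCast_mul_natCast_cpow d m s
  rw [hpow, Finset.mul_sum, Finset.mul_sum, Finset.mul_sum, Finset.sum_div]
  refine Finset.sum_congr rfl (fun χ _ => ?_)
  rw [LSeries.term_of_ne_zero hm0, Complex.cpow_neg]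
  have hdc : (d : ℂ) ^ s ≠ 0 := by
    rw [Ne, Complex.cpow_eq_zero_iff]; push Not; intro h0; exact absurd (Nat.cast_eq_zero.1 h0) hd0
  have hmc : (m : ℂ) ^ s ≠ 0 := by
    rw [Ne, Complex.cpow_eq_zero_iff]; push Not; intro h0; exact absurd (Nat.cast_eq_zero.1 h0) hm0
  rw [Units.val_mul, map_mul, hum]
  field_simp

private theorem twn_noncop {b : ℕ → ℂ} (N : ℕ) [NeZero N] (g : ℕ → ℂ) (χ : DirichletCharacter ℂ N)
    (s : ℂ) (m : ℕ) (hm : ¬ Nat.Coprime m N) :
    LSeries.term (fun n => b n * (g n * χ (n : ZMod N))) s m = 0 := by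
  rcases Nat.eq_zero_or_pos m with rfl | hmpos
  · simp
  rw [LSeries.term_of_ne_zero hmpos.ne']
  have : χ (m : ZMod N) = 0 := by
    apply MulChar.map_nonunit
    rw [ZMod.isUnit_iff_coprime]
    exact hm
  rw [this]; simp

open Classical in
private theorem twn_csum {b : ℕ → ℂ} (h : PD0 b) (N : ℕ) [NeZero N] (g : ℕ → ℂ) (hg : CM g)
    (χ : DirichletCharacter ℂ N) (s : ℂ) (hs : 1 < s.re) :
    Summable (fun d : ℕ => if Smo N d then b d * g d * (d : ℂ) ^ (-s) * GS N χ d else 0) := by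
  obtain ⟨C, hC⟩ := h.ram (1 / 4) (by norm_num)
  have hN : 1 ≤ N := Nat.one_le_iff_ne_zero.2 (NeZero.ne N)
  have hsm := smo_summable N hN (3 / 4) (by norm_num)
  refine Summable.of_norm_bounded (hsm.mul_left (C * Nat.totient N)) ?_
  intro d
  by_cases hd : Smo N d
  · simp only [hd, if_true]
    have hd1 : 1 ≤ d := Nat.one_le_iff_ne_zero.2 hd.1
    have hdpos : (0 : ℝ) < d := by exact_mod_cast hd1
    have h1 := hC d hd1
    have h2 := hg.bd d
    have h3 : ‖(d : ℂ) ^ (-s)‖ ≤ (d : ℝ) ^ (-1 : ℝ) := by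
      rw [Complex.norm_natCast_cpow_of_pos (by omega)]
      apply Real.rpow_le_rpow_of_exponent_le (by exact_mod_cast hd1)
      simp only [Complex.neg_re]; linarith
    have h4 := GS_bound N χ d
    have hC0 : 0 ≤ C * (d : ℝ) ^ (1 / 4 : ℝ) := le_trans (norm_nonneg _) h1
    calc ‖b d * g d * (d : ℂ) ^ (-s) * GS N χ d‖
        = ‖b d‖ * ‖g d‖ * ‖(d : ℂ) ^ (-s)‖ * ‖GS N χ d‖ := by simp only [norm_mul]
      _ ≤ (C * (d : ℝ) ^ (1 / 4 : ℝ)) * 1 * (d : ℝ) ^ (-1 : ℝ) * Nat.totient N := by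
          gcongr
      _ = C * Nat.totient N * ((d : ℝ) ^ (1 / 4 : ℝ) * (d : ℝ) ^ (-1 : ℝ)) := by ring
      _ = C * Nat.totient N * (d : ℝ) ^ (-(3 / 4) : ℝ) := by
          rw [← Real.rpow_add hdpos]; norm_num
  · simp only [hd, if_false, norm_zero, mul_zero, le_refl]

theorem twist_N {b : ℕ → ℂ} (h : PD0 b) (N : ℕ) [NeZero N] (g : ℕ → ℂ) (hg : CM g)
    (x : (ZMod N)ˣ) (s : ℂ) (hs : 1 < s.re) :
    LSeries (fun n => b n * (g n * eN N ((n : ZMod N) * (x : ZMod N)))) s =
      ∑ χ : DirichletCharacter ℂ N, χ (x : ZMod N) * kap b N g χ s *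
        PC.LT b (fun n => g n * χ (n : ZMod N)) s := by
  classical
  have hN : 1 ≤ N := Nat.one_le_iff_ne_zero.2 (NeZero.ne N)
  set F : ℕ → ℂ := fun n => b n * (g n * eN N ((n : ZMod N) * (x : ZMod N))) with hF
  have hFs : LSeriesSummable F s := by
    refine pd_summable h _ (fun n => ?_) s hs
    rw [norm_mul, eN_norm, mul_one]; exact hg.bd n
  have h1 : LSeries F s =
      ∑' d : ℕ, ∑' m : ℕ, if Smo N d ∧ Nat.Coprime m N then LSeries.term F s (d * m) else 0 := by
    unfold LSeries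
    rw [smooth_sum N hN (LSeries.term F s) hFs.norm (LSeries.term_zero _ _)]
  have hLs : ∀ χ : DirichletCharacter ℂ N,
      Summable (LSeries.term (fun n => b n * (g n * χ (n : ZMod N))) s) := by
    intro χ
    refine pd_summable h _ (fun n => ?_) s hs
    rw [norm_mul]
    exact mul_le_one₀ (hg.bd n) (norm_nonneg _) (DirichletCharacter.norm_le_one χ _)
  have h2 : ∀ d : ℕ,
      (∑' m : ℕ, if Smo N d ∧ Nat.Coprime m N then LSeries.term F s (d * m) else 0) =
      ∑ χ : DirichletCharacter ℂ N, (χ (x : ZMod N) * (1 / (Nat.totient N : ℂ)) *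
        PC.LT b (fun n => g n * χ (n : ZMod N)) s) *
        (if Smo N d then b d * g d * (d : ℂ) ^ (-s) * GS N χ d else 0) := by
    intro d
    by_cases hd : Smo N d
    · have h3 : ∀ m : ℕ, (if Smo N d ∧ Nat.Coprime m N then LSeries.term F s (d * m) else 0) =
          ∑ χ : DirichletCharacter ℂ N,
            (χ (x : ZMod N) * (1 / (Nat.totient N : ℂ)) *
              (b d * g d * (d : ℂ) ^ (-s) * GS N χ d)) *
              LSeries.term (fun n => b n * (g n * χ (n : ZMod N))) s m := by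
        intro m
        by_cases hm : Nat.Coprime m N
        · rw [if_pos ⟨hd, hm⟩]
          exact twn_key h N g hg x s d m hd hm
        · rw [if_neg (fun hh => hm hh.2)]
          symm
          refine Finset.sum_eq_zero (fun χ _ => ?_)
          rw [twn_noncop N g χ s m hm, mul_zero]
      simp_rw [h3]
      rw [Summable.tsum_finsetSum (fun χ _ => (hLs χ).mul_left _)]
      refine Finset.sum_congr rfl (fun χ _ => ?_)
      rw [tsum_mul_left, if_pos hd]
      unfold PC.LT LSeries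
      ring
    · have h3 : ∀ m : ℕ, (if Smo N d ∧ Nat.Coprime m N then LSeries.term F s (d * m) else 0) =
          0 := fun m => if_neg (fun hh => hd hh.1)
      simp_rw [h3, tsum_zero, if_neg hd, mul_zero, Finset.sum_const_zero]
  rw [h1]
  simp_rw [h2]
  rw [Summable.tsum_finsetSum (fun χ _ => (twn_csum h N g hg χ s hs).mul_left _)]
  refine Finset.sum_congr rfl (fun χ _ => ?_)
  rw [tsum_mul_left]
  unfold kap
  have h5 : (∑' d : ℕ, (if Smo N d then b d * g d * (d : ℂ) ^ (-s) * GS N χ d else 0)) =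
      ∑' d : ℕ, (@ite ℂ (Smo N d) (Classical.propDecidable _)
        (b d * g d * (d : ℂ) ^ (-s) * GS N χ d) 0) := by
    refine tsum_congr (fun d => ?_)
    congr
  rw [h5]
  ring

theorem base_id {b : ℕ → ℂ} (h : PD0 b) (N : ℕ) [NeZero N] (a0 : ℕ) (ha : Nat.Coprime a0 N)
    (s : ℂ) (hs : 1 < s.re) :
    Es b ((a0 : ℝ) / (N : ℝ)) s =
      ∑ χ : DirichletCharacter ℂ N, gam b N χ s * χ (a0 : ZMod N) := by
  have h1 := twist_N h N (fun _ => 1) cm_one (ZMod.unitOfCoprime a0 ha) s hs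
  have h2 : Es b ((a0 : ℝ) / (N : ℝ)) s =
      LSeries (fun n => b n * (1 * eN N ((n : ZMod N) *
        ((ZMod.unitOfCoprime a0 ha : (ZMod N)ˣ) : ZMod N)))) s := by
    unfold Es
    refine congrArg (fun f => LSeries f s) ?_
    funext n
    rw [one_mul, ZMod.coe_unitOfCoprime]
    have h3 : (n : ZMod N) * (a0 : ZMod N) = ((n * a0 : ℕ) : ZMod N) := by push_cast; ring
    rw [h3, eN_coe]
    congr 2
    push_cast
    ring
  rw [h2, h1]
  refine Finset.sum_congr rfl (fun χ _ => ?_)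
  unfold gam
  rw [ZMod.coe_unitOfCoprime]
  simp only [one_mul]
  ring

end Pool.Agent.H11.PE
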