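import Mathlib
import Pool.Agent.H11.PE.Defs
import Pool.Agent.H78.PB.Defs
import Pool.Agent.H11.PE.TWN
import Pool.Agent.H11.PE.KAPB

/-!
# GLI (copy for PD0): the limits of `om * gam b L χ` along the ultrafilter

`om(α) gam b L χ s = kap b L 1 χ s * (om(α) PC.LT b χ s)` (definition of `gam`), `s = 1 - θI + α`, `Re s = 1 + α > 1` for
`α > 0` (eventually along `U`, as `U ≤ 𝓝[>] 0`).  `kap_bound` and `hb`: the norm is eventually `≤ C' C`, so the limit
exists (`IsCompact.ultrafilter_le_nhds`; the private lemma `vec_lim` of `H11/PC/VEC.lean`, copy it).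
`PLG`: for `x` prime to `L` `base_id h L x hx s` gives `Es b (x/L) s = ∑_χ gam b L χ s * χ x` (check its exact form);
multiply by `om α` and take the limit (`tendsto_finsetSum`, `Tendsto.mul_const`).
-/

set_option autoImplicit false

namespace Pool.Agent.H11.PE

open Complex Filter Topology Pool.Agent.H11.PC Pool.Agent.H11.PB Pool.Agent.H78.PB

private theorem gli_lim (U : Ultrafilter ℝ) (f : ℝ → ℂ) (C : ℝ)
    (hf : ∀ᶠ α in (U : Filter ℝ), ‖f α‖ ≤ C) : ∃ x : ℂ, Tendsto f U (𝓝 x) := by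
  have h1 : (U.map f : Filter ℂ) ≤ 𝓟 (Metric.closedBall 0 C) := by
    rw [Ultrafilter.coe_map, le_principal_iff, mem_map]
    filter_upwards [hf] with α h
    show f α ∈ Metric.closedBall 0 C
    rwa [mem_closedBall_zero_iff]
  obtain ⟨x, -, hx⟩ := (isCompact_closedBall (0 : ℂ) C).ultrafilter_le_nhds (U.map f) h1
  exact ⟨x, by rwa [Ultrafilter.coe_map] at hx⟩

theorem gam_lim {b : ℕ → ℂ} (h : PD0 b) {U : Ultrafilter ℝ} (hU : (U : Filter ℝ) ≤ 𝓝[>] 0)
    (om : ℝ → ℝ) (θ : ℝ) (L : ℕ) [NeZero L]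
    (hb : ∀ χ : DirichletCharacter ℂ L, ∃ C : ℝ, ∀ᶠ α in (U : Filter ℝ),
      ‖(om α : ℂ) * PC.LT b (fun n => χ (n : ZMod L)) (1 - θ * I + α)‖ ≤ C) :
    ∃ γ : DirichletCharacter ℂ L → ℂ,
      (∀ χ, Tendsto (fun α : ℝ => (om α : ℂ) * gam b L χ (1 - θ * I + α)) U (𝓝 (γ χ))) ∧
      PLG b θ U om L L γ := by
  have hpos : ∀ᶠ α in (U : Filter ℝ), (0 : ℝ) < α := hU self_mem_nhdsWithin
  obtain ⟨K, hK0, hK⟩ := kap_bound h L
  have hex : ∀ χ : DirichletCharacter ℂ L, ∃ x : ℂ,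
      Tendsto (fun α : ℝ => (om α : ℂ) * gam b L χ (1 - θ * I + α)) U (𝓝 x) := by
    intro χ
    obtain ⟨C, hC⟩ := hb χ
    refine gli_lim U _ (K * C) ?_
    filter_upwards [hC, hpos] with α h1 h2
    have e1 : (om α : ℂ) * gam b L χ (1 - θ * I + α) = kap b L (fun _ => 1) χ (1 - θ * I + α) *
        ((om α : ℂ) * PC.LT b (fun n => χ (n : ZMod L)) (1 - θ * I + α)) := by
      unfold gam
      ring
    rw [e1, norm_mul]
    refine mul_le_mul (hK χ _ (fun _ => by rw [norm_one]) _ ?_) h1 (norm_nonneg _) hK0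
    have : (1 - θ * I + α : ℂ).re = 1 + α := by simp
    rw [this]
    linarith
  choose γ hγ using hex
  refine ⟨γ, hγ, fun x hx => ?_⟩
  refine (tendsto_finsetSum Finset.univ fun (χ : DirichletCharacter ℂ L) _ =>
    (hγ χ).mul_const (χ (x : ZMod L))).congr' ?_
  filter_upwards [hpos] with α hα
  rw [base_id h L x hx _ (by
    have : (1 - θ * I + α : ℂ).re = 1 + α := by simp
    rw [this]
    linarith), Finset.mul_sum]
  exact Finset.sum_congr rfl fun χ _ => by ring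

end Pool.Agent.H11.PE
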