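import Mathlib
import Pool.Agent.H11.PE.Defs
import Pool.Agent.H11.PC.Defs
import Pool.Agent.H11.PC.CMG
import Pool.Agent.H11.PE.SUMM

/-!
# VSP (copy for PD0): splitting according to the power of `r` dividing `n`

Every `n ≥ 1` is uniquely `r^j n'` with `r ∤ n'` (`Nat.exists_eq_pow_mul_and_not_dvd`), `b(r^j n') = b(r^j) b(n')`; for
`ind r n' = 0` (in particular `n' = 0`) the term vanishes.  So the absolutely convergent L-series is the sum over `(j, n')`
(`Summable.tsum_prod` or `HasSum.prod_fiberwise` with the injection on `{n' : ¬ r ∣ n'}`).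
`prime_split`: `f = g`, `g (r^j n) = g(r)^j g(n)`, so the sum over `j` is
`∑ b(r^j) (g(r) r^(-s))^j * PC.LT b (g ind) s`.
-/

set_option autoImplicit false

namespace Pool.Agent.H11.PE

open Complex Filter Topology Pool.Agent.H11.PC

theorem vsp_cpow (r j n : ℕ) (s : ℂ) :
    ((r ^ j * n : ℕ) : ℂ) ^ s = ((r : ℂ) ^ s) ^ j * (n : ℂ) ^ s := by
  rw [Nat.cast_mul, Complex.natCast_mul_natCast_cpow, Nat.cast_pow,
    ← Complex.natCast_cpow_natCast_mul, Complex.cpow_nat_mul]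

theorem vsp_term {b : ℕ → ℂ} (h : PD0 b) (f : ℕ → ℂ) (r : ℕ) (hr : r.Prime) (s : ℂ) (j n : ℕ) :
    (if r ∣ n then 0 else LSeries.term (fun n => b n * f n) s (r ^ j * n) : ℂ) =
      b (r ^ j) * ((r : ℂ) ^ (-s)) ^ j *
        LSeries.term (fun n => b n * (ind r n * f (r ^ j * n))) s n := by
  by_cases hn : r ∣ n
  · rw [if_pos hn]
    unfold LSeries.term
    by_cases h0 : n = 0
    · rw [if_pos h0, mul_zero]
    · rw [if_neg h0]
      unfold ind
      beta_reduce
      rw [if_pos hn]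
      ring
  · rw [if_neg hn]
    have h0 : n ≠ 0 := by
      intro h1
      exact hn (h1 ▸ dvd_zero r)
    have h1 : r ^ j * n ≠ 0 := mul_ne_zero (pow_ne_zero _ hr.ne_zero) h0
    have h2 : Nat.Coprime (r ^ j) n :=
      Nat.Coprime.pow_left j ((Nat.Prime.coprime_iff_not_dvd hr).2 hn)
    have h3 : ((r : ℂ) ^ s) ≠ 0 := by
      rw [Ne, Complex.cpow_eq_zero_iff]
      intro h4
      exact hr.ne_zero (Nat.cast_eq_zero.1 h4.1)
    unfold LSeries.term
    rw [if_neg h0, if_neg h1]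
    unfold ind
    beta_reduce
    rw [if_neg hn, vsp_cpow, h.mul _ _ h2, Complex.cpow_neg, inv_pow]
    field_simp

theorem vsp_inj (r : ℕ) (hr : r.Prime) :
    Function.Injective (fun x : {x : ℕ × ℕ // ¬ r ∣ x.2} => r ^ (x : ℕ × ℕ).1 * (x : ℕ × ℕ).2) := by
  rintro ⟨⟨j, n⟩, hn⟩ ⟨⟨j', n'⟩, hn'⟩ h
  change ¬ r ∣ n at hn
  change ¬ r ∣ n' at hn'
  change r ^ j * n = r ^ j' * n' at h
  have hr0 : ∀ i, 0 < r ^ i := fun i => pow_pos hr.pos i
  have key : ∀ (i i' m m' : ℕ), ¬ r ∣ m → r ^ i * m = r ^ i' * m' → i' ≤ i := by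
    intro i i' m m' hm he
    by_contra hlt
    rw [not_le] at hlt
    obtain ⟨k, hk⟩ := Nat.exists_eq_add_of_lt hlt
    rw [hk, show i + k + 1 = i + (k + 1) by ring, pow_add, mul_assoc] at he
    have h2 := Nat.eq_of_mul_eq_mul_left (hr0 i) he
    apply hm
    exact ⟨r ^ k * m', by rw [h2, pow_succ]; ring⟩
  have h1 : j = j' := le_antisymm (key j' j n' n hn' h.symm) (key j j' n n' hn h)
  subst h1
  have h2 : n = n' := Nat.eq_of_mul_eq_mul_left (hr0 j) h
  subst h2
  rfl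

theorem vsplit {b : ℕ → ℂ} (h : PD0 b) (f : ℕ → ℂ) (hf : ∀ n, ‖f n‖ ≤ 1) (r : ℕ) (hr : r.Prime)
    (s : ℂ) (hs : 1 < s.re) :
    HasSum (fun j : ℕ => b (r ^ j) * ((r : ℂ) ^ (-s)) ^ j *
      LSeries (fun n => b n * (ind r n * f (r ^ j * n))) s) (LSeries (fun n => b n * f n) s) := by
  have hT : HasSum (LSeries.term (fun n => b n * f n) s) (LSeries (fun n => b n * f n) s) :=
    (pd_summable h f hf s hs).hasSum
  have hF : HasSum (fun x : ℕ × ℕ =>
      (if r ∣ x.2 then 0 else LSeries.term (fun n => b n * f n) s (r ^ x.1 * x.2) : ℂ))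
      (LSeries (fun n => b n * f n) s) := by
    have h1 : (fun x : ℕ × ℕ =>
        (if r ∣ x.2 then 0 else LSeries.term (fun n => b n * f n) s (r ^ x.1 * x.2) : ℂ)) =
        {x : ℕ × ℕ | ¬ r ∣ x.2}.indicator
          (fun x : ℕ × ℕ => LSeries.term (fun n => b n * f n) s (r ^ x.1 * x.2)) := by
      funext x
      by_cases hx : r ∣ x.2
      · rw [if_pos hx, Set.indicator_of_notMem (fun h2 : ¬ r ∣ x.2 => h2 hx)]
      · rw [if_neg hx, Set.indicator_of_mem (show x ∈ {x : ℕ × ℕ | ¬ r ∣ x.2} from hx)]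
    rw [h1, ← hasSum_subtype_iff_indicator]
    refine ((vsp_inj r hr).hasSum_iff (f := LSeries.term (fun n => b n * f n) s) ?_).2 hT
    intro n hn
    by_cases h0 : n = 0
    · rw [h0, LSeries.term_zero]
    · exfalso
      apply hn
      obtain ⟨j, m, hm, hjm⟩ := Nat.exists_eq_pow_mul_and_not_dvd h0 r hr.ne_one
      exact ⟨⟨(j, m), hm⟩, hjm.symm⟩
  refine hF.prod_fiberwise fun j => ?_
  have hf' : ∀ n, ‖ind r n * f (r ^ j * n)‖ ≤ 1 := by
    intro n
    rw [norm_mul]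
    have h1 : ‖ind r n‖ ≤ 1 := by
      unfold ind
      split_ifs
      · rw [norm_zero]
        exact zero_le_one
      · rw [norm_one]
    calc ‖ind r n‖ * ‖f (r ^ j * n)‖ ≤ 1 * 1 :=
          mul_le_mul h1 (hf _) (norm_nonneg _) zero_le_one
      _ = 1 := one_mul 1
  have h2 := (pd_summable h (fun n => ind r n * f (r ^ j * n)) hf' s hs).hasSum.mul_left
    (b (r ^ j) * ((r : ℂ) ^ (-s)) ^ j)
  refine h2.congr_fun ?_
  intro n
  exact (vsp_term h f r hr s j n)

theorem prime_split {b : ℕ → ℂ} (h : PD0 b) (g : ℕ → ℂ) (hg : CM g) (r : ℕ) (hr : r.Prime)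
    (s : ℂ) (hs : 1 < s.re) :
    PC.LT b g s = FL b r (g r * (r : ℂ) ^ (-s)) * PC.LT b (fun n => ind r n * g n) s := by
  have h1 := vsplit h g hg.bd r hr s hs
  have h2 : ∀ j : ℕ, b (r ^ j) * ((r : ℂ) ^ (-s)) ^ j *
      LSeries (fun n => b n * (ind r n * g (r ^ j * n))) s =
      b (r ^ j) * (g r * (r : ℂ) ^ (-s)) ^ j * PC.LT b (fun n => ind r n * g n) s := by
    intro j
    have h3 : LSeries (fun n => b n * (ind r n * g (r ^ j * n))) s =
        g r ^ j * PC.LT b (fun n => ind r n * g n) s := by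
      unfold PC.LT LSeries
      rw [← tsum_mul_left]
      apply tsum_congr
      intro n
      unfold LSeries.term
      by_cases h0 : n = 0
      · rw [if_pos h0, if_pos h0, mul_zero]
      · rw [if_neg h0, if_neg h0]
        beta_reduce
        rw [hg.mul, hg.pow]
        ring
    rw [h3, mul_pow]
    ring
  unfold PC.LT FL
  rw [← h1.tsum_eq, tsum_congr h2, tsum_mul_right]
  rfl

end Pool.Agent.H11.PE
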