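import Mathlib
import Pool.Agent.H11.PE.Defs
import Pool.Agent.H78.PB.Defs
import Pool.Agent.H11.PE.GLI
import Pool.Agent.H11.PE.LMW
import Pool.Agent.H11.PE.LAMC

/-!
# STP (copy for PD0): from the cusps with denominator `L` to those with denominator `L r^k`

Let `x` be prime to `L r^k`; `r ∤ L`, `r ∤ x` (`1 ≤ k`).  `gam_lim` gives `γ : DirichletCharacter ℂ L → ℂ` with
`PLG L L γ`; with `hG` and `tendsto_nhds_unique`: `∑_{χ'} γ χ' χ'(y) = ∑_χ G χ χ(y)` for all `y` prime to `L`.  With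
`cl χ = DirichletCharacter.changeLevel hNL χ` (`cl χ (y) = χ (y)` for `y` prime to `L`:
`DirichletCharacter.changeLevel_eq_cast_of_dvd`, `ZMod.cast_natCast`) and `G' χ' = ∑_{χ, cl χ = χ'} G χ`
(`Finset.sum_fiberwise`): `∑_{χ'} (γ χ' - G' χ') χ'(y) = 0` for all units `y` modulo `L`, so `γ = G'` by orthogonality
(private lemma `vec_orth` of `H11/PC/VEC.lean`, apply it to `χ'⁻¹`, or copy the argument).
`main_limW h L x hx om θ U hU r hr hrL hrx hgood k hk` together with `Lam_tendsto h r hr k hk (χ' r) (norm_le_one) θ`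
(`.mono_left hU`) gives: `om * Es b (x/(L r^k)) → ∑_{χ'} γ χ' χ'(x) (χ' r)⁻¹^k Lam b r k (χ'(r) r^(-(1-θI)))`
(compare the end of `vec_main` in `VEC.lean`), and this sum is, with `γ = G'` and `χ' = cl χ`,
`∑_χ G χ χ(x) (χ r)⁻¹^k Lam b r k (χ(r) r^(-(1-θI))) = ∑_χ (G χ * Fac b θ χ r k) χ(x)`.  `((L * r^k : ℕ) : ℝ) = L * r^k`.
-/

set_option autoImplicit false

namespace Pool.Agent.H11.PE

open Complex Filter Topology Pool.Agent.H11.PC Pool.Agent.H11.PB Pool.Agent.H78.PB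

/-- orthogonality -/
private theorem stp_orth (N : ℕ) [NeZero N] (g : DirichletCharacter ℂ N → ℂ)
    (hg : ∀ x : (ZMod N)ˣ, ∑ χ : DirichletCharacter ℂ N, g χ * χ (x : ZMod N) = 0)
    (χ' : DirichletCharacter ℂ N) : g χ' = 0 := by
  classical
  have h1 : ∀ x : ZMod N, ∑ χ : DirichletCharacter ℂ N, g χ * (χ * χ'⁻¹) x = 0 := by
    intro x
    by_cases hx : IsUnit x
    · have h2 := hg hx.unit
      rw [IsUnit.unit_spec] at h2
      have h4 : ∑ χ : DirichletCharacter ℂ N, g χ * (χ * χ'⁻¹) x =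
          (χ' x)⁻¹ * ∑ χ : DirichletCharacter ℂ N, g χ * χ x := by
        rw [Finset.mul_sum]
        refine Finset.sum_congr rfl fun χ _ => ?_
        rw [MulChar.mul_apply, MulChar.inv_apply_eq_inv']
        ring
      rw [h4, h2, mul_zero]
    · refine Finset.sum_eq_zero fun χ _ => ?_
      rw [MulChar.map_nonunit _ hx, mul_zero]
  have h5 : ∑ x : ZMod N, ∑ χ : DirichletCharacter ℂ N, g χ * (χ * χ'⁻¹) x = 0 :=
    Finset.sum_eq_zero fun x _ => h1 x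
  rw [Finset.sum_comm, Finset.sum_eq_single χ'] at h5
  · rw [← Finset.mul_sum, mul_inv_cancel, MulChar.sum_one_eq_card_units] at h5
    rcases mul_eq_zero.1 h5 with h6 | h6
    · exact h6
    · exfalso
      have : Fintype.card (ZMod N)ˣ ≠ 0 := Fintype.card_ne_zero
      exact this (by exact_mod_cast h6)
  · intro χ _ hne
    rw [← Finset.mul_sum, MulChar.sum_eq_zero_of_ne_one, mul_zero]
    intro h6
    exact hne (mul_inv_eq_one.1 h6)
  · intro h6
    exact absurd (Finset.mem_univ _) h6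

theorem step {b : ℕ → ℂ} (h : PD0 b) {U : Ultrafilter ℝ} (hU : (U : Filter ℝ) ≤ 𝓝[>] 0)
    (om : ℝ → ℝ) (θ : ℝ) (N L : ℕ) [NeZero N] [NeZero L] (hNL : N ∣ L)
    (hb : ∀ χ : DirichletCharacter ℂ L, ∃ C : ℝ, ∀ᶠ α in (U : Filter ℝ),
      ‖(om α : ℂ) * PC.LT b (fun n => χ (n : ZMod L)) (1 - θ * I + α)‖ ≤ C)
    (G : DirichletCharacter ℂ N → ℂ) (hG : PLG b θ U om N L G) (r : ℕ) (hr : r.Prime)
    (hrL : ¬ r ∣ L) (hgood : GoodW b L θ U om r) (k : ℕ) (hk : 1 ≤ k) :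
    PLG b θ U om N (L * r ^ k) (fun χ => G χ * Fac b θ χ r k) := by
  classical
  intro x hx
  have hxL : Nat.Coprime x L := Nat.Coprime.coprime_mul_right_right hx
  have hxr : ¬ r ∣ x := by
    intro hd
    have h1 : Nat.Coprime x (r ^ k) := Nat.Coprime.coprime_mul_left_right hx
    have h2 : r ∣ Nat.gcd x (r ^ k) := Nat.dvd_gcd hd (dvd_pow_self r (by omega))
    rw [h1] at h2
    exact hr.one_lt.ne' (Nat.dvd_one.1 h2)
  have hrL' : Nat.Coprime r L := (Nat.Prime.coprime_iff_not_dvd hr).2 hrL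
  obtain ⟨γ, hγ, hγP⟩ := gam_lim h hU om θ L hb
  obtain ⟨cl, hcl⟩ : ∃ cl : DirichletCharacter ℂ N → DirichletCharacter ℂ L,
    cl = fun χ => DirichletCharacter.changeLevel hNL χ := ⟨_, rfl⟩
  have hclv : ∀ (χ : DirichletCharacter ℂ N) (y : ℕ), Nat.Coprime y L →
      cl χ (y : ZMod L) = χ (y : ZMod N) := by
    intro χ y hy
    rw [hcl, ← ZMod.coe_unitOfCoprime y hy]
    show DirichletCharacter.changeLevel hNL χ (ZMod.unitOfCoprime y hy : ZMod L) = _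
    rw [DirichletCharacter.changeLevel_eq_cast_of_dvd, ZMod.coe_unitOfCoprime,
      ZMod.cast_natCast hNL]
  obtain ⟨G', hG'⟩ : ∃ G' : DirichletCharacter ℂ L → ℂ, G' = fun χ' =>
    ∑ χ ∈ Finset.univ.filter (fun χ : DirichletCharacter ℂ N => cl χ = χ'), G χ := ⟨_, rfl⟩
  have hfib : ∀ F : DirichletCharacter ℂ L → ℂ, ∑ χ' : DirichletCharacter ℂ L, G' χ' * F χ' =
      ∑ χ : DirichletCharacter ℂ N, G χ * F (cl χ) := by
    intro F
    rw [← Finset.sum_fiberwise (s := Finset.univ) (g := cl) (f := fun χ => G χ * F (cl χ))]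
    refine Finset.sum_congr rfl fun χ' _ => ?_
    rw [hG', Finset.sum_mul]
    refine Finset.sum_congr rfl fun χ hχ => ?_
    rw [(Finset.mem_filter.1 hχ).2]
  have hγG : ∀ χ', γ χ' = G' χ' := by
    intro χ'
    refine sub_eq_zero.1 (stp_orth L (fun χ' => γ χ' - G' χ') (fun y => ?_) χ')
    obtain ⟨n, hn⟩ : ∃ n : ℕ, (n : ZMod L) = (y : ZMod L) := ⟨(y : ZMod L).val, ZMod.natCast_zmod_val _⟩
    have hnL : Nat.Coprime n L := by
      rw [← ZMod.isUnit_iff_coprime, hn]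
      exact y.isUnit
    have h1 := tendsto_nhds_unique (hγP n hnL) (hG n hnL)
    simp only [sub_mul]
    rw [Finset.sum_sub_distrib, hfib (fun χ' => χ' (y : ZMod L)), ← hn, h1, sub_eq_zero]
    refine Finset.sum_congr rfl fun χ _ => ?_
    rw [hclv χ n hnL]
  have hpos : ∀ᶠ α in (U : Filter ℝ), (0 : ℝ) < α := hU self_mem_nhdsWithin
  have h2 := main_limW h L x hxL om θ U hU r hr hrL hxr hgood k hk
  have hLam : ∀ χ' : DirichletCharacter ℂ L, Tendsto (fun α : ℝ => χ' (x : ZMod L) *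
        (χ' (r : ZMod L))⁻¹ ^ k * Lam b r k (χ' (r : ZMod L) * (r : ℂ) ^ (-(1 - θ * I + α : ℂ)))) U
      (𝓝 (χ' (x : ZMod L) * (χ' (r : ZMod L))⁻¹ ^ k *
        Lam b r k (χ' (r : ZMod L) * (r : ℂ) ^ (-(1 - θ * I : ℂ))))) := fun χ' =>
    ((Lam_tendsto h r hr k hk _ (χ'.norm_le_one _) θ).mono_left hU).const_mul _
  have h3 := tendsto_finsetSum Finset.univ fun (χ' : DirichletCharacter ℂ L) _ =>
    (hγ χ').mul (hLam χ')
  have h4 := h2.add h3
  rw [zero_add] at h4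
  have h5 : ∑ χ' : DirichletCharacter ℂ L, γ χ' * (χ' (x : ZMod L) * (χ' (r : ZMod L))⁻¹ ^ k *
        Lam b r k (χ' (r : ZMod L) * (r : ℂ) ^ (-(1 - θ * I : ℂ)))) =
      ∑ χ : DirichletCharacter ℂ N, G χ * Fac b θ χ r k * χ (x : ZMod N) := by
    simp only [hγG]
    rw [hfib (fun χ' => χ' (x : ZMod L) * (χ' (r : ZMod L))⁻¹ ^ k *
        Lam b r k (χ' (r : ZMod L) * (r : ℂ) ^ (-(1 - θ * I : ℂ))))]
    refine Finset.sum_congr rfl fun χ _ => ?_
    rw [hclv χ x hxL, hclv χ r hrL', Fac]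
    ring
  rw [← h5]
  refine h4.congr fun α => ?_
  have e1 : ((L * r ^ k : ℕ) : ℝ) = (L : ℝ) * (r : ℝ) ^ k := by push_cast; ring
  rw [e1, mul_sub, Finset.mul_sum]
  have e2 : ∀ χ' : DirichletCharacter ℂ L, (om α : ℂ) * gam b L χ' (1 - θ * I + α) *
      (χ' (x : ZMod L) * (χ' (r : ZMod L))⁻¹ ^ k *
        Lam b r k (χ' (r : ZMod L) * (r : ℂ) ^ (-(1 - θ * I + α : ℂ)))) =
      (om α : ℂ) * (gam b L χ' (1 - θ * I + α) * χ' (x : ZMod L) * (χ' (r : ZMod L))⁻¹ ^ k *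
        Lam b r k (χ' (r : ZMod L) * (r : ℂ) ^ (-(1 - θ * I + α : ℂ)))) := fun χ' => by ring
  rw [Finset.sum_congr rfl fun χ' _ => e2 χ', sub_add_cancel]

end Pool.Agent.H11.PE
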