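import Mathlib
import Pool.Agent.H11.PE.Defs
import Pool.Agent.H78.PB.Defs
import Pool.Agent.H11.PE.GLI
import Pool.Agent.H11.PE.STP

/-!
# VAL (copy for PD0): the values at `m = ∏ r^k`

`γ` from `gam_lim Q.pd Q.le om θ N (Q.bdd N)` with `PLG N N γ`.  For a list `l` as in `VD0.val` put `m l = (l.map (x.1^x.2)).prod`.
Induction on `l`: `PLG b θ U om N (N * m l) (fun χ => γ χ * (l.map (Fac b θ χ x.1 x.2)).prod)`: for `(r, k) :: l` use
`step` with `L = N * m l` (`r ∤ N * m l`: `r` is prime, `r ∤ P`, and `r` is different from the primes of `l`: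
`Prime.dvd_list_prod_iff` / `Nat.Prime.dvd_of_dvd_pow`; `N * m l * r^k = N * (r^k * m l)`; `Q.good r hr _ L _`, as
`r ∤ M0`), and `Q.bdd L`.
At `x = u0`, which is prime to `N * m l` (`Q.cop`; the primes of `l` do not divide `u0`): the limit of
`om * Es b (u0/(N m)) ` is `∑ γ χ (∏ Fac) χ(u0)`, and it is `w m^(-1+2θI) D(m)` by `Q.val m` (`m` prime to `c`).
`cf χ = γ χ * χ(u0) / w`.  `VD0.sum`: the case `l = []` (`m = 1`, `(1 : ℂ)^z = 1`, `D 1 = 1`).
-/

set_option autoImplicit false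

namespace Pool.Agent.H11.PE

open Complex Filter Topology Pool.Agent.H11.PC Pool.Agent.H11.PB Pool.Agent.H78.PB

private theorem val_bound {b : ℕ → ℂ} {θ : ℝ} {U : Ultrafilter ℝ} {om : ℝ → ℝ} {M0 N u0 c : ℕ}
    [NeZero N] {w : ℂ} {D : ZMod c → ℂ} (Q : QD0 b θ U om M0 N u0 c w D)
    (γ : DirichletCharacter ℂ N → ℂ) (hγ : PLG b θ U om N N γ) (l : List (ℕ × ℕ))
    (hl : ∀ x ∈ l, x.1.Prime ∧ ¬ x.1 ∣ M0 * (N * (u0 * c)) ∧ 1 ≤ x.2)
    (hn : (l.map Prod.fst).Nodup) :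
    PLG b θ U om N (N * (l.map (fun x => x.1 ^ x.2)).prod)
      (fun χ => γ χ * (l.map (fun x => Fac b θ χ x.1 x.2)).prod) := by
  induction l with
  | nil => simpa using hγ
  | cons a l ih =>
    rw [List.map_cons, List.nodup_cons] at hn
    have hl' : ∀ x ∈ l, x.1.Prime ∧ ¬ x.1 ∣ M0 * (N * (u0 * c)) ∧ 1 ≤ x.2 := fun x hx =>
      hl x (List.mem_cons_of_mem _ hx)
    have ih' := ih hl' hn.2
    obtain ⟨ha1, ha2, ha3⟩ := hl a List.mem_cons_self
    obtain ⟨m, hm⟩ : ∃ m : ℕ, m = (l.map (fun x => x.1 ^ x.2)).prod := ⟨_, rfl⟩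
    have hm0 : m ≠ 0 := by
      rw [hm]
      refine List.prod_ne_zero fun h0 => ?_
      obtain ⟨x, hx, hx0⟩ := List.mem_map.1 h0
      exact pow_ne_zero _ (hl' x hx).1.ne_zero hx0
    have hNm : NeZero (N * m) := ⟨mul_ne_zero (NeZero.ne N) hm0⟩
    have hrm : ¬ a.1 ∣ N * m := by
      intro hd
      rcases (Nat.Prime.dvd_mul ha1).1 hd with h1 | h1
      · exact ha2 ((h1.mul_right _).mul_left _)
      · rw [hm, (Nat.prime_iff.1 ha1).dvd_prod_iff] at h1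
        obtain ⟨y, hy, hdy⟩ := h1
        obtain ⟨x, hx, rfl⟩ := List.mem_map.1 hy
        have h2 := (Nat.prime_dvd_prime_iff_eq ha1 (hl' x hx).1).1 (ha1.dvd_of_dvd_pow hdy)
        exact hn.1 (h2 ▸ List.mem_map_of_mem hx)
    have hrM : ¬ a.1 ∣ M0 := fun hd => ha2 (hd.mul_right _)
    rw [← hm] at ih'
    have h3 := step Q.pd Q.le om θ N (N * m) (dvd_mul_right N m) (Q.bdd (N * m)) _ ih' a.1 ha1 hrm
      (Q.good a.1 ha1 hrM (N * m) hrm) a.2 ha3
    rw [List.map_cons, List.prod_cons, ← hm, mul_comm (a.1 ^ a.2) m, ← mul_assoc]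
    have h4 : (fun χ : DirichletCharacter ℂ N => γ χ *
        ((a :: l).map (fun x => Fac b θ χ x.1 x.2)).prod) = fun χ => γ χ *
        (l.map (fun x => Fac b θ χ x.1 x.2)).prod * Fac b θ χ a.1 a.2 := by
      funext χ
      rw [List.map_cons, List.prod_cons]
      ring
    rw [h4]
    exact h3

theorem qd_vd {b : ℕ → ℂ} {θ : ℝ} {U : Ultrafilter ℝ} {om : ℝ → ℝ} {M0 N u0 c : ℕ} [NeZero N] {w : ℂ}
    {D : ZMod c → ℂ} (Q : QD0 b θ U om M0 N u0 c w D) :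
    ∃ cf : DirichletCharacter ℂ N → ℂ, VD0 b θ N c (M0 * (N * (u0 * c))) cf D := by
  obtain ⟨γ, -, hγ⟩ := gam_lim Q.pd Q.le om θ N (Q.bdd N)
  have hP0 : M0 * (N * (u0 * c)) ≠ 0 := by
    have h1 := Q.M0pos
    have h2 := Q.Npos
    have h3 := Q.upos
    have h4 := Q.cpos
    positivity
  have hval : ∀ l : List (ℕ × ℕ), (∀ x ∈ l, x.1.Prime ∧ ¬ x.1 ∣ M0 * (N * (u0 * c)) ∧ 1 ≤ x.2) →
      (l.map Prod.fst).Nodup →
      ∑ χ : DirichletCharacter ℂ N, (γ χ * χ (u0 : ZMod N) / w) *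
        (l.map (fun x => Fac b θ χ x.1 x.2)).prod =
      (((l.map (fun x => x.1 ^ x.2)).prod : ℕ) : ℂ) ^ (-1 + 2 * θ * I : ℂ) *
        D (((l.map (fun x => x.1 ^ x.2)).prod : ℕ) : ZMod c) := by
    intro l hl hn
    have h1 := val_bound Q γ hγ l hl hn
    obtain ⟨m, hm⟩ : ∃ m : ℕ, m = (l.map (fun x => x.1 ^ x.2)).prod := ⟨_, rfl⟩
    rw [← hm] at h1 ⊢
    have hcop : ∀ y : ℕ, y ∣ M0 * (N * (u0 * c)) → Nat.Coprime m y := by
      intro y hy
      rw [hm]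
      refine Nat.Coprime.symm ?_
      rw [Nat.coprime_list_prod_right_iff]
      intro z hz
      obtain ⟨x, hx, rfl⟩ := List.mem_map.1 hz
      refine Nat.Coprime.pow_right _ ?_
      exact ((Nat.Prime.coprime_iff_not_dvd (hl x hx).1).2 fun hd =>
        (hl x hx).2.1 (hd.trans hy)).symm
    have hm1 : 1 ≤ m := by
      rw [Nat.one_le_iff_ne_zero, hm]
      refine List.prod_ne_zero fun h0 => ?_
      obtain ⟨x, hx, hx0⟩ := List.mem_map.1 h0
      exact pow_ne_zero _ (hl x hx).1.ne_zero hx0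
    have hmc : Nat.Coprime m c :=
      hcop c (((dvd_mul_left c u0).mul_left N).mul_left M0)
    have hmu : Nat.Coprime m u0 :=
      hcop u0 (((dvd_mul_right u0 c).mul_left N).mul_left M0)
    have h2 := h1 u0 (Nat.Coprime.mul_right Q.cop hmu.symm)
    have h3 := Q.val m hm1 hmc
    have e1 : ((u0 : ℝ) / ((N * m : ℕ) : ℝ)) = (u0 : ℝ) / ((N : ℝ) * m) := by push_cast; ring
    rw [e1] at h2
    have h4 := tendsto_nhds_unique h2 h3
    have e2 : ∑ χ : DirichletCharacter ℂ N, (γ χ * χ (u0 : ZMod N) / w) *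
        (l.map (fun x => Fac b θ χ x.1 x.2)).prod =
      (∑ χ : DirichletCharacter ℂ N, γ χ * (l.map (fun x => Fac b θ χ x.1 x.2)).prod *
        χ (u0 : ZMod N)) / w := by
      rw [Finset.sum_div]
      exact Finset.sum_congr rfl fun χ _ => by ring
    rw [e2, h4, div_eq_iff Q.w_ne]
    ring
  refine ⟨fun χ => γ χ * χ (u0 : ZMod N) / w, Q.pd, hP0, ?_, ?_, Q.D1, hval⟩
  · refine Dvd.dvd.mul_left (mul_dvd_mul_left N (dvd_mul_left c u0)) _
  · have h1 := hval [] (by simp) (by simp)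
    simpa [Q.D1] using h1

end Pool.Agent.H11.PE
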