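import Mathlib
import Pool.Agent.H11.PE.Defs
import Pool.Agent.H11.PB.Defs
import Pool.Agent.H11.PC.CHI
import Pool.Agent.H11.PE.SUMM

/-!
# NZ (copy for PD0): a cusp with a nonzero limit

PROOF.  `B.ne`: `χ` primitive modulo `c`, `om PC.LT b χ (1 + θI + α)` does not tend to `0`.  Fourier inversion on `ZMod c`
(`ZMod.dft`, `ZMod.invDFT_apply` or `ZMod.dft_dft`; `DirichletCharacter.fourierTransform_eq_inv_mul_gaussSum` for primitive `χ`):
`χ(n) = ∑_{x : ZMod c} C(x) e(-n x/c)` with `C(x) = 0` unless `x` is a unit.  So for `Re s > 1`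
`PC.LT b χ s = ∑_x C(x) Es b (x.val/c) s` (`eN_coe` of `PC/CHI.lean` compares `stdAddChar` with the exponential;
`pd_summable` gives the summability).  If `om Es b (a/c) (1 + θI + α) → 0` for all `a` prime to `c`, the (finite) sum
tends to `0`: contradiction.
-/

set_option autoImplicit false

namespace Pool.Agent.H11.PE

open Complex Filter Topology Pool.Agent.H11.PC Pool.Agent.H11.PB

open scoped ZMod in
private theorem nz_inv {c : ℕ} [NeZero c] (χ : DirichletCharacter ℂ c) (hχ : χ.IsPrimitive)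
    (n : ZMod c) :
    χ n = ∑ k : ZMod c, ((c : ℂ)⁻¹ * (χ⁻¹ k * gaussSum χ ZMod.stdAddChar)) * eN c (k * n) := by
  have hc : (c : ℂ) ≠ 0 := Nat.cast_ne_zero.2 (NeZero.ne c)
  have h := congrFun (ZMod.dft_dft (χ : ZMod c → ℂ)) (-n)
  rw [neg_neg, ZMod.dft_apply] at h
  have h2 : ∑ j : ZMod c, ZMod.stdAddChar (-(j * -n)) • 𝓕 (χ : ZMod c → ℂ) j =
      ∑ k : ZMod c, (χ⁻¹ k * gaussSum χ ZMod.stdAddChar) * eN c (k * n) := by
    rw [← Equiv.sum_comp (Equiv.neg (ZMod c))]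
    refine Finset.sum_congr rfl fun k _ => ?_
    rw [Equiv.neg_apply, hχ.fourierTransform_eq_inv_mul_gaussSum, neg_neg, smul_eq_mul, mul_comm]
    unfold eN
    congr 3
    ring
  rw [h2, smul_eq_mul] at h
  calc χ n = (c : ℂ)⁻¹ * ((c : ℂ) * χ n) := by field_simp
    _ = _ := by
      rw [← h, Finset.mul_sum]
      refine Finset.sum_congr rfl fun k _ => ?_
      ring

private theorem nz_lt {b : ℕ → ℂ} (hb : PD0 b) {c : ℕ} [NeZero c] (χ : DirichletCharacter ℂ c)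
    (hχ : χ.IsPrimitive) (s : ℂ) (hs : 1 < s.re) :
    PC.LT b (fun n => χ (n : ZMod c)) s =
      ∑ k : ZMod c, ((c : ℂ)⁻¹ * (χ⁻¹ k * gaussSum χ ZMod.stdAddChar)) *
        Es b ((k.val : ℝ) / (c : ℝ)) s := by
  have h1 : (fun n : ℕ => b n * χ (n : ZMod c)) = ∑ k : ZMod c,
      ((c : ℂ)⁻¹ * (χ⁻¹ k * gaussSum χ ZMod.stdAddChar)) •
        (fun n : ℕ => b n * cexp (-(2 * (Real.pi : ℂ) * n *
          (((k.val : ℝ) / (c : ℝ) : ℝ) : ℂ) * I))) := by
    funext n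
    rw [nz_inv χ hχ, Finset.sum_apply, Finset.mul_sum]
    refine Finset.sum_congr rfl fun k _ => ?_
    have h2 : eN c (k * (n : ZMod c)) = cexp (-(2 * (Real.pi : ℂ) * n *
          (((k.val : ℝ) / (c : ℝ) : ℝ) : ℂ) * I)) := by
      have h3 : k * (n : ZMod c) = ((k.val * n : ℕ) : ZMod c) := by
        rw [Nat.cast_mul, ZMod.natCast_zmod_val]
      rw [h3, eN_coe]
      congr 1
      push_cast
      ring
    rw [h2, Pi.smul_apply, smul_eq_mul]
    ring
  unfold PC.LT Es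
  rw [h1, LSeries_sum]
  · refine Finset.sum_congr rfl fun k _ => ?_
    rw [LSeries_smul]
  · intro k _
    apply LSeriesSummable.smul
    apply pd_summable hb _ _ s hs
    intro n
    rw [Complex.norm_exp]
    have : (-(2 * (Real.pi : ℂ) * n * (((k.val : ℝ) / (c : ℝ) : ℝ) : ℂ) * I)).re = 0 := by
      have h5 : (-(2 * (Real.pi : ℂ) * n * (((k.val : ℝ) / (c : ℝ) : ℝ) : ℂ) * I)) =
          (((-(2 * Real.pi * n * ((k.val : ℝ) / (c : ℝ))) : ℝ)) : ℂ) * I := by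
        push_cast
        ring
      rw [h5]
      simp
    rw [this, Real.exp_zero]

theorem nz {b : ℕ → ℂ} {θ : ℝ} {U : Ultrafilter ℝ} {om : ℝ → ℝ} {M0 : ℕ} (B : BD0 b θ U om M0) :
    ∃ c a : ℕ, 1 ≤ c ∧ Nat.Coprime a c ∧ ¬ Tendsto (fun α : ℝ =>
      (om α : ℂ) * Es b ((a : ℝ) / (c : ℝ)) (1 + θ * I + α)) U (𝓝 0) := by
  obtain ⟨c, hc0, χ, hχ, hne⟩ := B.ne
  by_contra hcon
  push Not at hcon
  apply hne
  have hc1 : 1 ≤ c := Nat.one_le_iff_ne_zero.2 (NeZero.ne c)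
  have hpos : ∀ᶠ α : ℝ in (U : Filter ℝ), 0 < α := B.le self_mem_nhdsWithin
  have hT : Tendsto (fun α : ℝ => ∑ k : ZMod c,
      ((c : ℂ)⁻¹ * (χ⁻¹ k * gaussSum χ ZMod.stdAddChar)) *
        ((om α : ℂ) * Es b ((k.val : ℝ) / (c : ℝ)) (1 + θ * I + α))) U (𝓝 0) := by
    have h0 : (0 : ℂ) = ∑ k : ZMod c, 0 := by simp
    rw [h0]
    refine tendsto_finsetSum _ fun k _ => ?_
    by_cases hk : IsUnit k
    · have hcop : Nat.Coprime k.val c := by
        obtain ⟨u, rfl⟩ := hk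
        exact ZMod.val_coe_unit_coprime u
      have := (hcon c k.val hc1 hcop).const_mul
        ((c : ℂ)⁻¹ * (χ⁻¹ k * gaussSum χ ZMod.stdAddChar))
      rwa [mul_zero] at this
    · rw [MulChar.map_nonunit χ⁻¹ hk]
      simp
  refine Tendsto.congr' ?_ hT
  filter_upwards [hpos] with α hα
  rw [nz_lt B.pd χ hχ]
  · rw [Finset.mul_sum]
    refine Finset.sum_congr rfl fun k _ => ?_
    ring
  · simp [hα]

end Pool.Agent.H11.PE
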