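import Mathlib
import Pool.Agent.H11.PE.Defs
import Pool.Agent.H11.SC7.EulL
import Pool.Agent.H11.PC.CMG

/-!
# EPF: from the factorisation to the Euler factors
-/

set_option autoImplicit false

namespace Pool.Agent.H11.PE

open Complex Filter Topology Pool.Agent.H11.PC Pool.Agent.H11.PB Pool.Agent.H11.Selberg

private theorem epf_abs {A : ℕ → ℂ} (hA : ∀ s : ℂ, 1 < s.re → LSeriesSummable A s) :
    LSeries.abscissaOfAbsConv A < ⊤ := by
  have h := (hA 2 (by norm_num)).abscissaOfAbsConv_le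
  refine lt_of_le_of_lt h ?_
  exact EReal.coe_lt_top _

theorem ep2_of_factor (a : ℕ → ℂ) (F : ℂ → ℂ) (hS : IsSelberg a F) {N1 N2 : ℕ} [NeZero N1]
    [NeZero N2] (χ1 : DirichletCharacter ℂ N1) (t1 : ℝ) (χ2 : DirichletCharacter ℂ N2) (t2 : ℝ)
    (hF : ∀ s : ℂ, 1 < s.re → F s = χ1.LFunction (s + t1 * I) * χ2.LFunction (s + t2 * I)) :
    ∀ p : ℕ, p.Prime → EP2 a χ1 t1 χ2 t2 p := by
  set g1 : ℕ → ℂ := fun n => χ1 (n : ZMod N1) * (n : ℂ) ^ (-((t1 : ℂ) * I)) with hg1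
  set g2 : ℕ → ℂ := fun n => χ2 (n : ZMod N2) * (n : ℂ) ^ (-((t2 : ℂ) * I)) with hg2
  have hs1 : ∀ s : ℂ, 1 < s.re → LSeriesSummable g1 s := fun s hs =>
    SC7.twist_summable χ1 t1 s hs
  have hs2 : ∀ s : ℂ, 1 < s.re → LSeriesSummable g2 s := fun s hs =>
    SC7.twist_summable χ2 t2 s hs
  have hconv : ∀ s : ℂ, 1 < s.re → LSeriesSummable (LSeries.convolution g1 g2) s := fun s hs =>
    (hs1 s hs).convolution (hs2 s hs)
  have heq : (fun x : ℝ => LSeries a x) =ᶠ[atTop] fun x : ℝ => LSeries (LSeries.convolution g1 g2) x := by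
    filter_upwards [eventually_gt_atTop (1 : ℝ)] with x hx
    have hx' : 1 < (x : ℂ).re := by simpa using hx
    rw [← hS.eq_LSeries x hx', hF x hx', SC7.twist_eq χ1 t1 x hx', SC7.twist_eq χ2 t2 x hx',
      LSeries_convolution' (hs1 x hx') (hs2 x hx')]
  have hco : ∀ n : ℕ, n ≠ 0 → a n = LSeries.convolution g1 g2 n := fun n hn =>
    LSeries.eq_of_LSeries_eventually_eq (epf_abs hS.summable) (epf_abs hconv) heq hn
  have hpow : ∀ {N : ℕ} (χ : DirichletCharacter ℂ N) (t : ℝ) (p i : ℕ),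
      χ ((p ^ i : ℕ) : ZMod N) * ((p ^ i : ℕ) : ℂ) ^ (-((t : ℂ) * I)) = zch χ t p ^ i := by
    intro N χ t p i
    unfold zch
    rw [mul_pow]
    congr 1
    · push_cast
      rw [map_pow]
    · rw [← Complex.cpow_nat_mul]
      push_cast
      rw [← Complex.natCast_cpow_natCast_mul]
  intro p hp k
  rw [hco _ (pow_ne_zero k hp.ne_zero), LSeries.convolution_def]
  show ∑ x ∈ (p ^ k).divisorsAntidiagonal, g1 x.1 * g2 x.2 = _
  rw [Nat.sum_divisorsAntidiagonal (fun i j => g1 i * g2 j), Nat.sum_divisors_prime_pow hp]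
  refine Finset.sum_congr rfl fun i hi => ?_
  rw [Nat.pow_div (Nat.lt_succ_iff.mp (Finset.mem_range.mp hi)) hp.pos]
  show χ1 ((p ^ i : ℕ) : ZMod N1) * ((p ^ i : ℕ) : ℂ) ^ (-((t1 : ℂ) * I)) *
    (χ2 ((p ^ (k - i) : ℕ) : ZMod N2) * ((p ^ (k - i) : ℕ) : ℂ) ^ (-((t2 : ℂ) * I))) = _
  rw [hpow, hpow]

end Pool.Agent.H11.PE
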