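import Mathlib
import Pool.Agent.H11.PE.Defs
import Pool.Agent.H11.PB.SPR
import Pool.Agent.H11.PC.DIR

/-!
# EXC: the two alternatives exclude each other

For `F = L(s + i t1, χ1) L(s + i t2, χ2)` the twist by `conj χ1`, at `t = -t1`, has
`Re PS = log (1/α) + (O(1) or log (1/α))`, and `T(α) ≤ 4 log (1/α) + O(1)`.
-/

set_option autoImplicit false

namespace Pool.Agent.H11.PE

open Complex Filter Topology Pool.Agent.H11.PC Pool.Agent.H11.PB Pool.Agent.H11.Selberg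

private theorem exc_prod {N1 N2 : ℕ} [NeZero N1] [NeZero N2] (χ1 : DirichletCharacter ℂ N1)
    (χ2 : DirichletCharacter ℂ N2) : ∃ (L : ℕ) (_ : NeZero L) (Ψ : DirichletCharacter ℂ L),
      ∀ n : ℕ, χ1 (n : ZMod N1) * χ2 (n : ZMod N2) = Ψ (n : ZMod L) := by
  have hL : NeZero (N1 * N2) := ⟨Nat.mul_ne_zero (NeZero.ne N1) (NeZero.ne N2)⟩
  refine ⟨N1 * N2, hL, DirichletCharacter.changeLevel (Nat.dvd_mul_right N1 N2) χ1 *
    (DirichletCharacter.changeLevel (Nat.dvd_mul_left N2 N1) χ2), ?_⟩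
  intro n
  by_cases hn : Nat.Coprime n (N1 * N2)
  · rw [MulChar.mul_apply, ntr_level _ χ1 n hn, ntr_level _ _ n hn]
  · have hR : (DirichletCharacter.changeLevel (Nat.dvd_mul_right N1 N2) χ1 *
        (DirichletCharacter.changeLevel (Nat.dvd_mul_left N2 N1) χ2)) (n : ZMod (N1 * N2)) = 0 := by
      apply MulChar.map_nonunit
      rw [ZMod.isUnit_iff_coprime]
      exact hn
    rw [hR]
    rw [Nat.coprime_mul_iff_right, not_and_or] at hn
    rcases hn with hn | hn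
    · rw [MulChar.map_nonunit χ1 (by rwa [ZMod.isUnit_iff_coprime]), zero_mul]
    · rw [MulChar.map_nonunit χ2 (by rwa [ZMod.isUnit_iff_coprime]), mul_zero]

private theorem exc_cast (p : ℕ) (α : ℝ) :
    ((p : ℕ) : ℂ) ^ (-(1 + (α : ℂ))) = (((p : ℝ) ^ (-(1 + α)) : ℝ) : ℂ) := by
  rw [Complex.ofReal_cpow (Nat.cast_nonneg _)]
  push_cast
  rfl

private theorem exc_zn {N : ℕ} (χ : DirichletCharacter ℂ N) (t : ℝ) (p : ℕ) (hp : p.Prime) :
    ‖zch χ t p‖ ≤ 1 := by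
  rw [zch, norm_mul, norm_natCast_cpow_of_pos hp.pos]
  have h : (-((t : ℂ) * I)).re = 0 := by simp
  rw [h, Real.rpow_zero, mul_one]
  exact χ.norm_le_one _

theorem excl (a : ℕ → ℂ) {N1 N2 : ℕ} [NeZero N1] [NeZero N2] (χ1 : DirichletCharacter ℂ N1)
    (t1 : ℝ) (χ2 : DirichletCharacter ℂ N2) (t2 : ℝ)
    (hloc : ∀ p : ℕ, p.Prime → EP2 a χ1 t1 χ2 t2 p) :
    ∀ C : ℝ, ∃ α : ℝ, 0 < α ∧ α ≤ 1 / 2 ∧ 1 / 4 * RR a α + C <
      (PS (fun n => a n * χ1⁻¹ (n : ZMod N1)) (1 + ((-t1 : ℝ) : ℂ) * I + α)).re := by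
  intro C
  obtain ⟨L, hL, Ψ, hΨ⟩ := exc_prod χ2 χ1⁻¹
  obtain ⟨D1, hD1⟩ := dir_one (L := N1)
  obtain ⟨D2, hD2⟩ := dir_one (L := 1)
  have hw : ∃ D : ℝ, ∀ α : ℝ, 0 < α → α ≤ 1 →
      -D ≤ (PS (fun n => Ψ (n : ZMod L)) (1 + ((t2 - t1 : ℝ) : ℂ) * I + α)).re := by
    by_cases hc : Ψ ≠ 1 ∨ t2 - t1 ≠ 0
    · obtain ⟨C, hC⟩ := dir_bdd Ψ (t2 - t1) hc
      refine ⟨C, fun α h1 h2 => ?_⟩
      have h3 := (Complex.abs_re_le_norm _).trans (hC α h1 h2)
      exact (abs_le.1 h3).1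
    · push Not at hc
      obtain ⟨C, hC⟩ := dir_one (L := L)
      refine ⟨C, fun α h1 h2 => ?_⟩
      rw [hc.1, hc.2, Complex.ofReal_zero, zero_mul, add_zero]
      have h4 := (Complex.abs_re_le_norm _).trans (hC α h1 h2)
      rw [Complex.add_re, Complex.ofReal_re] at h4
      have h5 := (abs_le.1 h4).1
      have h6 : Real.log α ≤ 0 := Real.log_nonpos h1.le h2
      linarith
  obtain ⟨D3, hD3⟩ := hw
  obtain ⟨l, hl⟩ : ∃ l : ℝ, l = 2 * (|C| + |D1| + |D2| + |D3| + 1) := ⟨_, rfl⟩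
  have hl2 : 2 ≤ l := by
    have h1 := abs_nonneg C
    have h2 := abs_nonneg D1
    have h3 := abs_nonneg D2
    have h4 := abs_nonneg D3
    linarith
  obtain ⟨α, hα⟩ : ∃ α : ℝ, α = Real.exp (-l) := ⟨_, rfl⟩
  have hα0 : 0 < α := by rw [hα]; exact Real.exp_pos _
  have hα2 : α ≤ 1 / 2 := by
    have h1 : Real.exp (-l) ≤ Real.exp (-1) := Real.exp_le_exp.2 (by linarith)
    have h2 : Real.exp (-1) ≤ 1 / 2 := by
      have h3 : (2 : ℝ) ≤ Real.exp 1 := by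
        have := Real.add_one_le_exp (1 : ℝ)
        linarith
      rw [Real.exp_neg, ← one_div]
      exact one_div_le_one_div_of_le (by norm_num) h3
    rw [hα]
    linarith
  have hlog : Real.log α = -l := by rw [hα, Real.log_exp]
  have hlog' : Real.log (1 / α) = l := by rw [one_div, Real.log_inv, hlog, neg_neg]
  refine ⟨α, hα0, hα2, ?_⟩
  have hα1 : α ≤ 1 := by linarith
  have hs : 1 < (1 + (α : ℂ)).re := by simpa using hα0
  have hs2 : 1 < (1 + ((t2 - t1 : ℝ) : ℂ) * I + α : ℂ).re := by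
    have : (1 + ((t2 - t1 : ℝ) : ℂ) * I + α : ℂ).re = 1 + α := by simp
    rw [this]
    linarith
  have hap : ∀ p : ℕ, p.Prime → a p = zch χ1 t1 p + zch χ2 t2 p := by
    intro p hp
    have h1 := hloc p hp 1
    rw [pow_one] at h1
    rw [h1]
    simp [Finset.sum_range_succ]
    ring
  -- the twisted sum
  have e1 : PS (fun n => a n * χ1⁻¹ (n : ZMod N1)) (1 + ((-t1 : ℝ) : ℂ) * I + α) =
      PS (fun n => (1 : DirichletCharacter ℂ N1) (n : ZMod N1)) (1 + α) +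
      PS (fun n => Ψ (n : ZMod L)) (1 + ((t2 - t1 : ℝ) : ℂ) * I + α) := by
    have hs1 : ∀ {N : ℕ} [NeZero N] (χ : DirichletCharacter ℂ N) (s : ℂ), 1 < s.re →
        Summable (fun p : Nat.Primes => χ ((p : ℕ) : ZMod N) * ((p : ℕ) : ℂ) ^ (-s)) := by
      intro N hN χ s hs
      exact (prime_summable_one (fun n => χ (n : ZMod N)) (fun n => χ.norm_le_one _) s hs).of_norm
    unfold PS
    rw [← (hs1 (1 : DirichletCharacter ℂ N1) (1 + α) hs).tsum_add (hs1 Ψ _ hs2)]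
    refine tsum_congr fun p => ?_
    have hp := p.2
    have hp0 : ((p : ℕ) : ℂ) ≠ 0 := by exact_mod_cast hp.ne_zero
    show a (p : ℕ) * χ1⁻¹ ((p : ℕ) : ZMod N1) * _ = _
    rw [hap p hp]
    unfold zch
    rw [← hΨ]
    have h1 : (1 : DirichletCharacter ℂ N1) ((p : ℕ) : ZMod N1) =
        χ1 ((p : ℕ) : ZMod N1) * χ1⁻¹ ((p : ℕ) : ZMod N1) := by
      rw [← MulChar.mul_apply, mul_inv_cancel]
    have h2 : ((p : ℕ) : ℂ) ^ (-(1 + ((-t1 : ℝ) : ℂ) * I + α : ℂ)) =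
        ((p : ℕ) : ℂ) ^ ((t1 : ℂ) * I) * ((p : ℕ) : ℂ) ^ (-(1 + α : ℂ)) := by
      rw [← Complex.cpow_add _ _ hp0]
      congr 1
      push_cast
      ring
    have h3 : ((p : ℕ) : ℂ) ^ (-(1 + ((t2 - t1 : ℝ) : ℂ) * I + α : ℂ)) =
        ((p : ℕ) : ℂ) ^ (-((t2 : ℂ) * I)) * (((p : ℕ) : ℂ) ^ ((t1 : ℂ) * I) *
          ((p : ℕ) : ℂ) ^ (-(1 + α : ℂ))) := by
      rw [← Complex.cpow_add _ _ hp0, ← Complex.cpow_add _ _ hp0]
      congr 1
      push_cast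
      ring
    have h4 : ((p : ℕ) : ℂ) ^ (-((t1 : ℂ) * I)) * ((p : ℕ) : ℂ) ^ ((t1 : ℂ) * I) = 1 := by
      rw [← Complex.cpow_add _ _ hp0, neg_add_cancel, Complex.cpow_zero]
    rw [h1, h2, h3]
    linear_combination (χ1 ((p : ℕ) : ZMod N1) * χ1⁻¹ ((p : ℕ) : ZMod N1) *
      ((p : ℕ) : ℂ) ^ (-(1 + α : ℂ))) * h4
  have f1 := (Complex.abs_re_le_norm _).trans (hD1 α hα0 hα1)
  rw [Complex.add_re, Complex.ofReal_re, hlog] at f1
  have g1 := (abs_le.1 f1).1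
  have g3 := hD3 α hα0 hα1
  -- the sum of squares
  have hTT : TT a α ≤ 4 * (l + |D2|) := by
    have hr : Summable (fun p : Nat.Primes => ((p : ℕ) : ℝ) ^ (-(1 + α))) :=
      Nat.Primes.summable_rpow.mpr (by linarith)
    have h2 : PS (fun n => (1 : DirichletCharacter ℂ 1) (n : ZMod 1)) (1 + α) =
        ((∑' p : Nat.Primes, ((p : ℕ) : ℝ) ^ (-(1 + α)) : ℝ) : ℂ) := by
      rw [Complex.ofReal_tsum]
      unfold PS
      refine tsum_congr fun p => ?_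
      show (1 : DirichletCharacter ℂ 1) (((p : ℕ) : ℕ) : ZMod 1) *
        ((p : ℕ) : ℂ) ^ (-(1 + ((α : ℝ) : ℂ))) = _
      rw [MulChar.one_apply (isUnit_of_subsingleton _), one_mul, exc_cast]
    have h3 := hD2 α hα0 hα1
    rw [h2, ← Complex.ofReal_add, Complex.norm_real, Real.norm_eq_abs, hlog] at h3
    have h4 := (abs_le.1 h3).2
    have h5 : ∑' p : Nat.Primes, ((p : ℕ) : ℝ) ^ (-(1 + α)) ≤ l + |D2| := by
      have := le_abs_self D2
      linarith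
    have h6 : ∀ p : Nat.Primes, ‖a (p : ℕ)‖ ^ 2 * ((p : ℕ) : ℝ) ^ (-(1 + α)) ≤
        4 * ((p : ℕ) : ℝ) ^ (-(1 + α)) := by
      intro p
      apply mul_le_mul_of_nonneg_right _ (Real.rpow_nonneg (Nat.cast_nonneg _) _)
      have h7 : ‖a (p : ℕ)‖ ≤ 2 := by
        rw [hap p p.2]
        refine (norm_add_le _ _).trans ?_
        have := exc_zn χ1 t1 p p.2
        have := exc_zn χ2 t2 p p.2
        linarith
      have h8 := norm_nonneg (a (p : ℕ))
      nlinarith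
    have hr4 : Summable (fun p : Nat.Primes => 4 * ((p : ℕ) : ℝ) ^ (-(1 + α))) := hr.mul_left 4
    have h9 : TT a α ≤ ∑' p : Nat.Primes, 4 * ((p : ℕ) : ℝ) ^ (-(1 + α)) := by
      unfold TT
      refine Summable.tsum_le_tsum h6 (Summable.of_nonneg_of_le (fun p => ?_) h6 hr4) hr4
      positivity
    rw [tsum_mul_left] at h9
    linarith
  have hRR : RR a α ≤ 2 * (l + |D2|) := by
    unfold RR
    rw [hlog']
    have hD : 0 ≤ |D2| := abs_nonneg _
    rw [show 2 * (l + |D2|) = Real.sqrt ((2 * (l + |D2|)) ^ 2) by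
      rw [Real.sqrt_sq (by linarith)]]
    apply Real.sqrt_le_sqrt
    have h1 : TT a α * l ≤ 4 * (l + |D2|) * l :=
      mul_le_mul_of_nonneg_right hTT (by linarith)
    nlinarith
  rw [e1, Complex.add_re]
  have k1 := le_abs_self C
  have k2 := le_abs_self D1
  have k3 := le_abs_self D3
  have k4 := abs_nonneg D2
  linarith

end Pool.Agent.H11.PE
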