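import Mathlib

/-!
# Definitions of the final statement
-/

set_option autoImplicit false

namespace Pool.Agent.H11.PE

/-- `F(s) = L(s + i t1, χ1) L(s + i t2, χ2)` for `Re s > 1`, with primitive non-principal Dirichlet characters and
real `t1`, `t2`. -/
def IsDirichletPair (F : ℂ → ℂ) : Prop :=
  ∃ (N1 : ℕ) (_ : NeZero N1) (χ1 : DirichletCharacter ℂ N1) (N2 : ℕ) (_ : NeZero N2)
    (χ2 : DirichletCharacter ℂ N2) (t1 t2 : ℝ), χ1.IsPrimitive ∧ χ2.IsPrimitive ∧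
    χ1 ≠ 1 ∧ χ2 ≠ 1 ∧ ∀ s : ℂ, 1 < s.re →
      F s = χ1.LFunction (s + t1 * Complex.I) * χ2.LFunction (s + t2 * Complex.I)

/-- `T(α) = ∑_p |a(p)|² p^(-1-α)` -/
noncomputable def T (a : ℕ → ℂ) (α : ℝ) : ℝ :=
  ∑' p : Nat.Primes, ‖a (p : ℕ)‖ ^ 2 * ((p : ℕ) : ℝ) ^ (-(1 + α))

/-- For every Dirichlet character `χ`, all real `t` and all `η > 0` there is `C` with
`Re ∑_p a(p) χ(p) p^(-1-it-α) ≤ η (T(α) log (1/α))^(1/2) + C` for `0 < α ≤ 1/2`. -/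
def NotPretentious (a : ℕ → ℂ) : Prop :=
  ∀ (L : ℕ) (_ : NeZero L) (χ : DirichletCharacter ℂ L) (t η : ℝ), 0 < η →
    ∃ C : ℝ, ∀ α : ℝ, 0 < α → α ≤ 1 / 2 →
      (∑' p : Nat.Primes, a (p : ℕ) * χ ((p : ℕ) : ZMod L) *
        ((p : ℕ) : ℂ) ^ (-(1 + t * Complex.I + α) : ℂ)).re ≤
        η * Real.sqrt (T a α * Real.log (1 / α)) + C

end Pool.Agent.H11.PE
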