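import Mathlib
import Pool.Agent.H11.PE.Defs
import Pool.Agent.H11.PB.TRC
import Pool.Agent.H11.PC.SB
import Pool.Agent.H11.PC.PDOF
import Pool.Agent.H11.PC.CMG

/-!
# TFO: the truncated form under `S_F(x) = O(log log x)`
-/

set_option autoImplicit false

namespace Pool.Agent.H11.PE

open Complex Filter Topology Pool.Agent.H11.PC Pool.Agent.H11.PB Pool.Agent.H11.Selberg

theorem trunc_form (a : ℕ → ℂ) (F : ℂ → ℂ) (hS : IsSelberg a F)
    (hO : ∃ C : ℝ, ∀ x : ℝ, 16 ≤ x → S a x ≤ C * Real.log (Real.log x))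
    {L : ℕ} (χ : DirichletCharacter ℂ L) (t : ℝ)
    (hB : ∀ η : ℝ, 0 < η → ∃ C : ℝ, ∀ α : ℝ, 0 < α → α ≤ 1 / 2 →
        (PS (fun n => a n * χ (n : ZMod L)) (1 + t * I + α)).re ≤ η * RR a α + C)
    (η : ℝ) (hη : 0 < η) : ∃ C : ℝ, ∀ x : ℝ, 16 ≤ x →
        (∑ p ∈ (Finset.Icc 1 ⌊x⌋₊).filter Nat.Prime,
          a p * χ (p : ZMod L) * (p : ℂ) ^ (-(1 + t * I) : ℂ)).re ≤
          η * Real.log (Real.log x) + C := by
  have ha : PD a := by
    have h0 := pd_of a F hS hO 0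
    have e : (fun n : ℕ => a n * (n : ℂ) ^ (-(((0 : ℝ) : ℂ) * I) : ℂ)) = a := by
      funext n
      rw [Complex.ofReal_zero, zero_mul, neg_zero, Complex.cpow_zero, mul_one]
    rwa [e] at h0
  obtain ⟨C1, hC1, htr⟩ := trunc ha
  obtain ⟨C2, hC2, hsb⟩ := sb_sum ha
  have hq : 0 < Real.sqrt (C2 + 1) := Real.sqrt_pos.2 (by linarith)
  obtain ⟨C3, hC3⟩ := hB (η / (2 * Real.sqrt (C2 + 1))) (by positivity)
  refine ⟨C3 + η + C1 ^ 2 / (2 * η), fun x hx16 => ?_⟩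
  have hlx : 2 < Real.log x := by
    have h1 : Real.exp 2 < 16 := by
      have h2 := Real.exp_one_lt_d9
      have h3 : Real.exp 2 = Real.exp 1 * Real.exp 1 := by
        rw [← Real.exp_add]
        norm_num
      have h4 := Real.exp_pos 1
      rw [h3]
      nlinarith
    rw [Real.lt_log_iff_exp_lt (by linarith)]
    linarith
  obtain ⟨LL, hLLd⟩ : ∃ LL : ℝ, LL = Real.log (Real.log x) := ⟨_, rfl⟩
  have hLL : 0 < LL := by rw [hLLd]; exact Real.log_pos (by linarith)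
  obtain ⟨α, hα⟩ : ∃ α : ℝ, α = 1 / Real.log x := ⟨_, rfl⟩
  have hα0 : 0 < α := by rw [hα]; positivity
  have hα2 : α ≤ 1 / 2 := by
    rw [hα]
    exact one_div_le_one_div_of_le (by norm_num) hlx.le
  have hlα : Real.log (1 / α) = LL := by rw [hα, one_div_one_div, hLLd]
  have h1 := htr (fun n => a n * χ (n : ZMod L) * (n : ℂ) ^ (((-t : ℝ) : ℂ) * I)) (by
    intro p hp
    rw [norm_mul, norm_mul]
    have g1 := χ.norm_le_one (p : ZMod L)
    have g2 : ‖(p : ℂ) ^ (((-t : ℝ) : ℂ) * I)‖ = 1 := by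
      rw [norm_natCast_cpow_of_pos hp.pos]
      simp
    rw [g2, mul_one]
    exact mul_le_of_le_one_right (norm_nonneg _) g1) x hx16
  rw [← hα, ← hLLd] at h1
  have h2 : PS (fun n => a n * χ (n : ZMod L) * (n : ℂ) ^ (((-t : ℝ) : ℂ) * I))
      (1 + (α : ℂ)) = PS (fun n => a n * χ (n : ZMod L)) (1 + t * I + (α : ℂ)) := by
    rw [PS_shift (fun n => a n * χ (n : ZMod L)) (-t) (1 + (α : ℂ))]
    congr 1
    push_cast
    ring
  have h3 : ∑ p ∈ (Finset.Icc 1 ⌊x⌋₊).filter Nat.Prime,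
      (a p * χ (p : ZMod L) * (p : ℂ) ^ (((-t : ℝ) : ℂ) * I)) * (p : ℂ) ^ (-1 : ℂ) =
      ∑ p ∈ (Finset.Icc 1 ⌊x⌋₊).filter Nat.Prime,
        a p * χ (p : ZMod L) * (p : ℂ) ^ (-(1 + t * I) : ℂ) := by
    refine Finset.sum_congr rfl fun p hp => ?_
    have hp' := (Finset.mem_filter.1 hp).2
    have hp0 : (p : ℂ) ≠ 0 := Nat.cast_ne_zero.2 hp'.ne_zero
    rw [mul_assoc (a p * χ (p : ZMod L)), ← cpow_add _ _ hp0]
    congr 2
    push_cast
    ring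
  rw [h2] at h1
  have h4 := (Complex.abs_re_le_norm _).trans h1
  rw [sub_re] at h4
  have h5 := (abs_le.1 h4).2
  have h6 : (∑ p ∈ (Finset.Icc 1 ⌊x⌋₊).filter Nat.Prime,
      (a p * χ (p : ZMod L) * (p : ℂ) ^ (((-t : ℝ) : ℂ) * I)) * (p : ℂ) ^ (-1 : ℂ)).re =
      (∑ p ∈ (Finset.Icc 1 ⌊x⌋₊).filter Nat.Prime,
        a p * χ (p : ZMod L) * (p : ℂ) ^ (-(1 + t * I) : ℂ)).re := by rw [h3]
  have h8 : C1 * Real.sqrt LL ≤ η / 2 * LL + C1 ^ 2 / (2 * η) := by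
    have e1 : LL = Real.sqrt LL ^ 2 := (Real.sq_sqrt hLL.le).symm
    have e2 : η / 2 * (Real.sqrt LL - C1 / η) ^ 2 =
        η / 2 * Real.sqrt LL ^ 2 - C1 * Real.sqrt LL + C1 ^ 2 / (2 * η) := by
      field_simp
      ring
    have e3 : 0 ≤ η / 2 * (Real.sqrt LL - C1 / η) ^ 2 := by positivity
    rw [← e1] at e2
    linarith
  have h9 := hC3 α hα0 hα2
  have hRR : RR a α ≤ Real.sqrt (C2 + 1) * (LL + 1) := by
    have h10 := hsb α hα0 hα2
    unfold RR TT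
    rw [hlα] at h10 ⊢
    have h11 : (∑' p : Nat.Primes, ‖a (p : ℕ)‖ ^ 2 * ((p : ℕ) : ℝ) ^ (-(1 + α))) * LL ≤
        (C2 + 1) * (LL + 1) ^ 2 := by
      have h12 := mul_le_mul_of_nonneg_right h10 hLL.le
      nlinarith
    refine (Real.sqrt_le_sqrt h11).trans ?_
    rw [Real.sqrt_mul (by linarith), Real.sqrt_sq (by linarith)]
  have h13 : η / (2 * Real.sqrt (C2 + 1)) * RR a α ≤ η / 2 * (LL + 1) := by
    have h14 : η / (2 * Real.sqrt (C2 + 1)) * RR a α ≤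
        η / (2 * Real.sqrt (C2 + 1)) * (Real.sqrt (C2 + 1) * (LL + 1)) :=
      mul_le_mul_of_nonneg_left hRR (by positivity)
    have h15 : η / (2 * Real.sqrt (C2 + 1)) * (Real.sqrt (C2 + 1) * (LL + 1)) =
        η / 2 * (LL + 1) := by
      field_simp
    linarith
  rw [← hLLd]
  linarith [h5, h6, h8, h9, h13]

end Pool.Agent.H11.PE
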