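import Mathlib
import Pool.Agent.H11.PE.RDefs
import Pool.Agent.H11.PE.ASM0
import Pool.Agent.H11.PE.EXC
import Pool.Agent.H11.PE.EPF
import Pool.Agent.H11.PE.TFO

/-!
# FINL: the final statement
-/

set_option autoImplicit false

namespace Pool.Agent.H11.PE

open Complex Filter Topology Pool.Agent.H11.Selberg Pool.Agent.H11.SC Pool.Agent.H11.PC
  Pool.Agent.H11.PB

theorem pair_or (a : ℕ → ℂ) (F : ℂ → ℂ) (hS : IsSelberg a F) (G : ℂ → ℂ)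
    (hG : Differentiable ℂ G) (hGF : ∀ s, s ≠ 1 → G s = F s)
    (Q : ℝ) (r : ℕ) (lam : Fin r → ℝ) (mu : Fin r → ℂ) (ε : ℂ)
    (hQ : 0 < Q) (hlam : ∀ j, 0 < lam j) (hmu : ∀ j, 0 ≤ (mu j).re) (hε : ‖ε‖ = 1)
    (hfe : ∀ s : ℂ, 0 < s.re → s.re < 1 →
      completed Q lam mu F s =
        ε * (starRingEnd ℂ) (completed Q lam mu F (1 - (starRingEnd ℂ) s)))
    (hdeg : 2 * ∑ j, lam j = 2)
    (hq : ∃ k : ℚ, (2 * Real.pi) ^ 2 * Q ^ 2 * ∏ j, (lam j) ^ (2 * lam j) = (k : ℝ)) :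
    IsDirichletPair F ∨ NotPretentious a := by
  rcases alternative0 a F hS G hG hGF Q r lam mu ε hQ hlam hmu hε hfe hdeg hq with
    ⟨N1, hN1, χ1, N2, hN2, χ2, t1, t2, p1, p2, h1, h2, hloc⟩ | h
  · left
    exact ⟨N1, hN1, χ1, N2, hN2, χ2, t1, t2, p1, p2, h1, h2,
      factor_L_L a F hS χ1 t1 χ2 t2 hloc⟩
  · right
    exact h

theorem pair_not (a : ℕ → ℂ) (F : ℂ → ℂ) (hS : IsSelberg a F) (hP : IsDirichletPair F) :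
    ¬ NotPretentious a ∧ ¬ IsPrimitive a F ∧
      ¬ ∃ C : ℝ, ∀ x : ℝ, 2 ≤ x → |S a x - Real.log (Real.log x)| ≤ C := by
  obtain ⟨N1, hN1, χ1, N2, hN2, χ2, t1, t2, p1, p2, h1, h2, hF⟩ := hP
  have hloc := ep2_of_factor a F hS χ1 t1 χ2 t2 hF
  refine ⟨fun hN => ?_, not_primitive2 a F χ1 p1 h1 t1 χ2 p2 h2 t2 hF,
    s_prod a F hS χ1 t1 χ2 t2 hloc⟩
  obtain ⟨C, hC⟩ := hN N1 hN1 χ1⁻¹ (-t1) (1 / 4) (by norm_num)
  obtain ⟨α, hα, hα2, hlt⟩ := excl a χ1 t1 χ2 t2 hloc C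
  exact absurd (hC α hα hα2) (not_le.2 hlt)

end Pool.Agent.H11.PE
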